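import Pool.Agent.H88.PM.Conc

set_option autoImplicit false

/-!
The limits of the iteration and the function `FF`.
-/

namespace Pool.Agent.H88.PM

open Finset Filter Topology

theorem xs_mono_step {s : ℝ} (hs : 0 ≤ s) {j k : ℕ} (h : xs j s ≤ xs k s) :
    xs (k + 1) s ≤ xs (j + 1) s := by
  rw [xs_succ, xs_succ]
  apply Real.exp_le_exp.mpr
  have := mul_le_mul_of_nonneg_left h hs
  linarith

theorem xs_steps {s : ℝ} (hs : 0 ≤ s) (i : ℕ) :
    xs (2 * i + 2) s ≤ xs (2 * i) s ∧ xs (2 * i + 1) s ≤ xs (2 * i + 3) s ∧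
      xs (2 * i + 1) s ≤ xs (2 * i) s := by
  induction i with
  | zero =>
    have h1 : xs 2 s ≤ xs 0 s := by rw [xs_zero]; exact xs_le_one 2 hs
    have h2 : xs 1 s ≤ xs 0 s := by rw [xs_zero]; exact xs_le_one 1 hs
    exact ⟨h1, xs_mono_step hs h1, h2⟩
  | succ i ih =>
    have h1 := xs_mono_step hs ih.2.1
    have h2 := xs_mono_step hs h1
    have h3 := xs_mono_step hs (xs_mono_step hs ih.2.2)
    exact ⟨h1, h2, h3⟩

theorem xs_even_antitone {s : ℝ} (hs : 0 ≤ s) : Antitone (fun i => xs (2 * i) s) :=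
  antitone_nat_of_succ_le (fun i => (xs_steps hs i).1)

theorem xs_odd_monotone {s : ℝ} (hs : 0 ≤ s) : Monotone (fun i => xs (2 * i + 1) s) :=
  monotone_nat_of_le_succ (fun i => (xs_steps hs i).2.1)

theorem xs_odd_le_even {s : ℝ} (hs : 0 ≤ s) (i j : ℕ) : xs (2 * i + 1) s ≤ xs (2 * j) s := by
  have h1 := xs_odd_monotone hs (le_max_left i j)
  have h2 := xs_even_antitone hs (le_max_right i j)
  exact h1.trans ((xs_steps hs (max i j)).2.2.trans h2)

/-- the larger limit -/
noncomputable def Pl (s : ℝ) : ℝ := ⨅ i, xs (2 * i) s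

/-- the smaller limit -/
noncomputable def ql (s : ℝ) : ℝ := ⨆ i, xs (2 * i + 1) s

theorem xs_bdd_even (s : ℝ) : BddBelow (Set.range (fun i => xs (2 * i) s)) :=
  ⟨0, by rintro _ ⟨i, rfl⟩; exact (xs_pos _ _).le⟩

theorem xs_bdd_odd {s : ℝ} (hs : 0 ≤ s) : BddAbove (Set.range (fun i => xs (2 * i + 1) s)) :=
  ⟨1, by rintro _ ⟨i, rfl⟩; exact xs_le_one _ hs⟩

theorem tendsto_Pl {s : ℝ} (hs : 0 ≤ s) : Tendsto (fun i => xs (2 * i) s) atTop (𝓝 (Pl s)) :=
  tendsto_atTop_ciInf (xs_even_antitone hs) (xs_bdd_even s)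

theorem tendsto_ql {s : ℝ} (hs : 0 ≤ s) : Tendsto (fun i => xs (2 * i + 1) s) atTop (𝓝 (ql s)) :=
  tendsto_atTop_ciSup (xs_odd_monotone hs) (xs_bdd_odd hs)

theorem Pl_le {s : ℝ} (i : ℕ) : Pl s ≤ xs (2 * i) s := ciInf_le (xs_bdd_even s) i

theorem le_ql {s : ℝ} (hs : 0 ≤ s) (i : ℕ) : xs (2 * i + 1) s ≤ ql s := le_ciSup (xs_bdd_odd hs) i

theorem ql_eq {s : ℝ} (hs : 0 ≤ s) : ql s = Real.exp (-(s * Pl s)) := by
  apply tendsto_nhds_unique (tendsto_ql hs)
  have h : Tendsto (fun i => Real.exp (-(s * xs (2 * i) s))) atTop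
      (𝓝 (Real.exp (-(s * Pl s)))) :=
    (Real.continuous_exp.tendsto _).comp (((tendsto_Pl hs).const_mul s).neg)
  exact h

theorem Pl_eq {s : ℝ} (hs : 0 ≤ s) : Pl s = Real.exp (-(s * ql s)) := by
  have h1 : Tendsto (fun i => xs (2 * (i + 1)) s) atTop (𝓝 (Pl s)) :=
    (tendsto_add_atTop_iff_nat 1).mpr (tendsto_Pl hs)
  apply tendsto_nhds_unique h1
  have h : Tendsto (fun i => Real.exp (-(s * xs (2 * i + 1) s))) atTop
      (𝓝 (Real.exp (-(s * ql s)))) :=
    (Real.continuous_exp.tendsto _).comp (((tendsto_ql hs).const_mul s).neg)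
  exact h

theorem ql_pos {s : ℝ} (hs : 0 ≤ s) : 0 < ql s := by rw [ql_eq hs]; exact Real.exp_pos _

theorem Pl_pos {s : ℝ} (hs : 0 ≤ s) : 0 < Pl s := by rw [Pl_eq hs]; exact Real.exp_pos _

theorem ql_le_Pl {s : ℝ} (hs : 0 ≤ s) : ql s ≤ Pl s := by
  apply le_ciInf
  intro j
  apply ciSup_le
  intro i
  exact xs_odd_le_even hs i j

theorem Pl_le_one (s : ℝ) : Pl s ≤ 1 := by
  have := Pl_le (s := s) 0
  rwa [mul_zero, xs_zero] at this

theorem ql_le_one {s : ℝ} (hs : 0 ≤ s) : ql s ≤ 1 := (ql_le_Pl hs).trans (Pl_le_one s)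

/-- the two-step map -/
noncomputable def gg (s x : ℝ) : ℝ := Real.exp (-(s * Real.exp (-(s * x))))

theorem gg_mono {s : ℝ} (hs : 0 ≤ s) {x y : ℝ} (h : x ≤ y) : gg s x ≤ gg s y := by
  unfold gg
  apply Real.exp_le_exp.mpr
  apply neg_le_neg
  apply mul_le_mul_of_nonneg_left _ hs
  apply Real.exp_le_exp.mpr
  have := mul_le_mul_of_nonneg_left h hs
  linarith

theorem xs_gg (k : ℕ) (s : ℝ) : xs (k + 2) s = gg s (xs k s) := rfl

theorem ql_le_of_gg {s : ℝ} (hs : 0 ≤ s) {x : ℝ} (hx : 0 ≤ x) (h : gg s x ≤ x) : ql s ≤ x := by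
  apply ciSup_le
  intro i
  induction i with
  | zero =>
    have h1 : xs (2 * 0 + 1) s = gg s 0 := by
      unfold gg
      rw [show 2 * 0 + 1 = 0 + 1 by ring, xs_succ, xs_zero]
      simp
    rw [h1]
    exact (gg_mono hs hx).trans h
  | succ i ih =>
    rw [show 2 * (i + 1) + 1 = (2 * i + 1) + 2 by ring, xs_gg]
    exact (gg_mono hs ih).trans h

theorem le_Pl_of_gg {s : ℝ} (hs : 0 ≤ s) {x : ℝ} (hx : x ≤ 1) (h : x ≤ gg s x) : x ≤ Pl s := by
  apply le_ciInf
  intro i
  induction i with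
  | zero => rw [mul_zero, xs_zero]; exact hx
  | succ i ih =>
    rw [show 2 * (i + 1) = (2 * i) + 2 by ring, xs_gg]
    exact h.trans (gg_mono hs ih)

/-- the potential function -/
noncomputable def psi (s x : ℝ) : ℝ := x - x * Real.log x + Real.exp (-(s * x)) - 1

/-- the limiting deficiency -/
noncomputable def FF (s : ℝ) : ℝ := Pl s + ql s + s * Pl s * ql s - 1

theorem log_ql {s : ℝ} (hs : 0 ≤ s) : Real.log (ql s) = -(s * Pl s) := by
  rw [ql_eq hs, Real.log_exp]

theorem log_Pl {s : ℝ} (hs : 0 ≤ s) : Real.log (Pl s) = -(s * ql s) := by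
  rw [Pl_eq hs, Real.log_exp]

theorem psi_ql {s : ℝ} (hs : 0 ≤ s) : psi s (ql s) = FF s := by
  unfold psi FF
  rw [log_ql hs, ← Pl_eq hs]
  ring

theorem psi_Pl {s : ℝ} (hs : 0 ≤ s) : psi s (Pl s) = FF s := by
  unfold psi FF
  rw [log_Pl hs, ← ql_eq hs]
  ring

theorem psi_cont (s : ℝ) : Continuous (psi s) := by
  unfold psi
  have h1 : Continuous (fun x : ℝ => x * Real.log x) := Real.continuous_mul_log
  have h2 : Continuous (fun x : ℝ => Real.exp (-(s * x))) := by fun_prop
  exact ((continuous_id.sub h1).add h2).sub continuous_const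

theorem psi_deriv (s x : ℝ) (hx : x ≠ 0) :
    HasDerivAt (psi s) (-Real.log x - s * Real.exp (-(s * x))) x := by
  have h1 : HasDerivAt (fun x : ℝ => x * Real.log x) (Real.log x + 1) x :=
    Real.hasDerivAt_mul_log hx
  have h2 : HasDerivAt (fun x : ℝ => Real.exp (-(s * x)))
      (Real.exp (-(s * x)) * (-(s * 1))) x :=
    ((((hasDerivAt_id x).const_mul s).neg)).exp
  have h3 := (((hasDerivAt_id x).sub h1).add h2).sub_const 1
  have h4 : (1 - (Real.log x + 1) + Real.exp (-(s * x)) * (-(s * 1))) =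
    -Real.log x - s * Real.exp (-(s * x)) := by ring
  rw [h4] at h3
  exact h3

theorem psi_deriv_nonneg {s x : ℝ} (hx : 0 < x) (h : x ≤ gg s x) :
    0 ≤ -Real.log x - s * Real.exp (-(s * x)) := by
  have h1 := Real.log_le_log hx h
  unfold gg at h1
  rw [Real.log_exp] at h1
  linarith

theorem psi_deriv_nonpos {s x : ℝ} (hx : 0 < x) (h : gg s x ≤ x) :
    -Real.log x - s * Real.exp (-(s * x)) ≤ 0 := by
  have h0 : 0 < gg s x := Real.exp_pos _
  have h1 := Real.log_le_log h0 h
  unfold gg at h1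
  rw [Real.log_exp] at h1
  linarith

theorem psi_monoOn {s a b : ℝ} (ha : 0 ≤ a)
    (h : ∀ x, a < x → x < b → x ≤ gg s x) : MonotoneOn (psi s) (Set.Icc a b) := by
  apply monotoneOn_of_deriv_nonneg (convex_Icc a b) (psi_cont s).continuousOn
  · intro x hx
    rw [interior_Icc] at hx
    exact (psi_deriv s x (by linarith [hx.1] : x ≠ 0) |>.differentiableAt).differentiableWithinAt
  · intro x hx
    rw [interior_Icc] at hx
    have hx0 : 0 < x := lt_of_le_of_lt ha hx.1
    rw [(psi_deriv s x hx0.ne').deriv]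
    exact psi_deriv_nonneg hx0 (h x hx.1 hx.2)

theorem psi_antiOn {s a b : ℝ} (ha : 0 ≤ a)
    (h : ∀ x, a < x → x < b → gg s x ≤ x) : AntitoneOn (psi s) (Set.Icc a b) := by
  apply antitoneOn_of_deriv_nonpos (convex_Icc a b) (psi_cont s).continuousOn
  · intro x hx
    rw [interior_Icc] at hx
    have hx0 : 0 < x := lt_of_le_of_lt ha hx.1
    exact (psi_deriv s x hx0.ne').differentiableAt.differentiableWithinAt
  · intro x hx
    rw [interior_Icc] at hx
    have hx0 : 0 < x := lt_of_le_of_lt ha hx.1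
    rw [(psi_deriv s x hx0.ne').deriv]
    exact psi_deriv_nonpos hx0 (h x hx.1 hx.2)

theorem exists_fix {s : ℝ} (hs : 0 ≤ s) : ∃ t : ℝ, 0 ≤ t ∧ t ≤ 1 ∧ t = Real.exp (-(s * t)) := by
  have hc : ContinuousOn (fun t : ℝ => Real.exp (-(s * t)) - t) (Set.Icc 0 1) := by fun_prop
  have h := intermediate_value_Icc' (zero_le_one' ℝ) hc
  have h0 : (0:ℝ) ∈ Set.Icc (Real.exp (-(s * 1)) - 1) (Real.exp (-(s * 0)) - 0) := by
    constructor
    · have : Real.exp (-(s * 1)) ≤ 1 := Real.exp_le_one_iff.mpr (by linarith)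
      linarith
    · simp
  obtain ⟨t, ht, h1⟩ := h h0
  refine ⟨t, ht.1, ht.2, ?_⟩
  simp only at h1
  linarith

/-- for `s t < 1` there is only one root -/
theorem unique_small {s t : ℝ} (hs : 0 ≤ s) (ht : t = Real.exp (-(s * t))) (hst : s * t < 1) :
    ql s = Pl s := by
  by_contra hne
  have hlt : ql s < Pl s := lt_of_le_of_ne (ql_le_Pl hs) hne
  have hq := ql_pos hs
  -- `s < e`
  have hse : s < Real.exp 1 := by
    have h1 : s = s * t * Real.exp (s * t) := by
      have : s * t * Real.exp (s * t) = s * (Real.exp (-(s * t)) * Real.exp (s * t)) := by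
        rw [← ht]; ring
      rw [this, ← Real.exp_add]
      simp
    have ht0 : 0 ≤ t := by rw [ht]; exact (Real.exp_pos _).le
    rw [h1]
    calc s * t * Real.exp (s * t) ≤ 1 * Real.exp (s * t) :=
          mul_le_mul_of_nonneg_right hst.le (Real.exp_pos _).le
      _ < 1 * Real.exp 1 := by
          rw [one_mul, one_mul]
          exact Real.exp_lt_exp.mpr hst
      _ = Real.exp 1 := one_mul _
  set h : ℝ → ℝ := fun x => -Real.log x - s * Real.exp (-(s * x)) with hh
  have hderiv : ∀ x : ℝ, 0 < x → HasDerivAt h (-x⁻¹ - s * (Real.exp (-(s * x)) * (-(s * 1)))) x := by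
    intro x hx
    have h1 : HasDerivAt (fun x : ℝ => -Real.log x) (-x⁻¹) x := (Real.hasDerivAt_log hx.ne').neg
    have h2 : HasDerivAt (fun x : ℝ => Real.exp (-(s * x)))
        (Real.exp (-(s * x)) * (-(s * 1))) x :=
      ((((hasDerivAt_id x).const_mul s).neg)).exp
    exact h1.sub (h2.const_mul s)
  have hanti : StrictAntiOn h (Set.Icc (ql s) (Pl s)) := by
    apply strictAntiOn_of_deriv_neg (convex_Icc _ _)
    · intro x hx
      exact (hderiv x (lt_of_lt_of_le hq hx.1)).continuousAt.continuousWithinAt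
    · intro x hx
      rw [interior_Icc] at hx
      have hx0 : 0 < x := hq.trans hx.1
      rw [(hderiv x hx0).deriv]
      -- `s * (s x) e^{-s x} < 1`
      have h1 : s * x * Real.exp (-(s * x)) ≤ Real.exp (-1) := by
        have h2 := Real.add_one_le_exp (s * x - 1)
        have h3 : s * x ≤ Real.exp (s * x - 1) := by linarith
        calc s * x * Real.exp (-(s * x)) ≤ Real.exp (s * x - 1) * Real.exp (-(s * x)) :=
              mul_le_mul_of_nonneg_right h3 (Real.exp_pos _).le
          _ = Real.exp (-1) := by rw [← Real.exp_add]; congr 1; ring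
      have h4 : s * (s * x * Real.exp (-(s * x))) < 1 := by
        rcases hs.eq_or_lt with h5 | h5
        · rw [← h5]; norm_num
        · calc s * (s * x * Real.exp (-(s * x))) ≤ s * Real.exp (-1) :=
                mul_le_mul_of_nonneg_left h1 hs
            _ < Real.exp 1 * Real.exp (-1) :=
                mul_lt_mul_of_pos_right hse (Real.exp_pos _)
            _ = 1 := by rw [← Real.exp_add]; simp
      have h6 : -x⁻¹ - s * (Real.exp (-(s * x)) * (-(s * 1))) =
          x⁻¹ * (s * (s * x * Real.exp (-(s * x))) - 1) := by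
        field_simp
        ring
      rw [h6]
      exact mul_neg_of_pos_of_neg (by positivity) (by linarith)
  have h7 := hanti (Set.left_mem_Icc.mpr hlt.le) (Set.right_mem_Icc.mpr hlt.le) hlt
  have h8 : h (ql s) = 0 := by
    simp only [hh]
    rw [log_ql hs, ← Pl_eq hs]; ring
  have h9 : h (Pl s) = 0 := by
    simp only [hh]
    rw [log_Pl hs, ← ql_eq hs]; ring
  rw [h8, h9] at h7
  exact lt_irrefl _ h7

theorem gg_deriv (s x : ℝ) : HasDerivAt (gg s) (s * s * Real.exp (-(s * x + s * Real.exp (-(s * x))))) x := by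
  have h2 : HasDerivAt (fun x : ℝ => Real.exp (-(s * x)))
      (Real.exp (-(s * x)) * (-(s * 1))) x :=
    ((((hasDerivAt_id x).const_mul s).neg)).exp
  have h3 := ((h2.const_mul s).neg).exp
  have h4 : Real.exp (-(s * Real.exp (-(s * x)))) * -(s * (Real.exp (-(s * x)) * -(s * 1))) =
      s * s * Real.exp (-(s * x + s * Real.exp (-(s * x)))) := by
    have h5 : Real.exp (-(s * x + s * Real.exp (-(s * x)))) =
      Real.exp (-(s * Real.exp (-(s * x)))) * Real.exp (-(s * x)) := by
      rw [← Real.exp_add]; congr 1; ring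
    rw [h5]; ring
  exact HasDerivAt.congr_deriv h3 h4

theorem gg_convex {s t : ℝ} (hs : 0 ≤ s) (ht : t = Real.exp (-(s * t))) (hst : 1 ≤ s * t) :
    ConvexOn ℝ (Set.Icc 0 t) (gg s) := by
  apply MonotoneOn.convexOn_of_deriv (convex_Icc 0 t)
  · intro x _
    exact (gg_deriv s x).continuousAt.continuousWithinAt
  · intro x _
    exact (gg_deriv s x).differentiableAt.differentiableWithinAt
  · intro x hx y hy hxy
    rw [interior_Icc] at hx hy
    rw [(gg_deriv s x).deriv, (gg_deriv s y).deriv]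
    apply mul_le_mul_of_nonneg_left _ (by positivity)
    apply Real.exp_le_exp.mpr
    apply neg_le_neg
    -- `s y + s e^{-s y} ≤ s x + s e^{-s x}`
    have h1 : Real.exp (-(s * x)) = Real.exp (-(s * y)) * Real.exp (s * (y - x)) := by
      rw [← Real.exp_add]; congr 1; ring
    have h2 := Real.add_one_le_exp (s * (y - x))
    have h3 : t ≤ Real.exp (-(s * y)) := by
      rw [ht]
      apply Real.exp_le_exp.mpr
      have := mul_le_mul_of_nonneg_left hy.2.le hs
      linarith
    have h4 : (y - x) ≤ Real.exp (-(s * x)) - Real.exp (-(s * y)) := by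
      rw [h1]
      have h5 : 0 ≤ s * (y - x) := mul_nonneg hs (by linarith)
      have h6 : t * (s * (y - x)) ≤ Real.exp (-(s * y)) * (Real.exp (s * (y - x)) - 1) := by
        apply mul_le_mul h3 (by linarith) h5 (Real.exp_pos _).le
      nlinarith
    nlinarith

/-- the potential is maximal at the roots -/
theorem psi_le {s x : ℝ} (hs : 0 ≤ s) (hx0 : 0 ≤ x) (hx1 : x ≤ 1) : psi s x ≤ FF s := by
  have hq := ql_pos hs
  rcases le_total x (ql s) with h1 | h1
  · -- left
    have h2 : MonotoneOn (psi s) (Set.Icc 0 (ql s)) := by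
      apply psi_monoOn le_rfl
      intro y hy0 hy1
      by_contra h3
      push Not at h3
      exact absurd (ql_le_of_gg hs hy0.le h3.le) (not_le.mpr hy1)
    have h3 := h2 ⟨hx0, h1⟩ (Set.right_mem_Icc.mpr hq.le) h1
    rwa [psi_ql hs] at h3
  rcases le_total (Pl s) x with h2 | h2
  · -- right
    have h3 : AntitoneOn (psi s) (Set.Icc (Pl s) 1) := by
      apply psi_antiOn (Pl_pos hs).le
      intro y hy0 hy1
      by_contra h3
      push Not at h3
      exact absurd (le_Pl_of_gg hs hy1.le h3.le) (not_le.mpr hy0)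
    have h4 := h3 (Set.left_mem_Icc.mpr (Pl_le_one s)) ⟨h2, hx1⟩ h2
    rwa [psi_Pl hs] at h4
  · -- middle
    obtain ⟨t, ht0, ht1, ht⟩ := exists_fix hs
    by_cases hst : s * t < 1
    · have h3 := unique_small hs ht hst
      have h4 : x = ql s := le_antisymm (by rw [h3]; exact h2) h1
      rw [h4, psi_ql hs]
    push Not at hst
    have hspos : 0 < s := by
      by_contra h
      have : s = 0 := le_antisymm (not_lt.mp h) hs
      rw [this] at hst
      norm_num at hst
    have hgt : gg s t = t := by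
      unfold gg
      rw [← ht, ← ht]
    have hgq : gg s (ql s) = ql s := by
      unfold gg
      rw [← Pl_eq hs, ← ql_eq hs]
    have hqt : ql s ≤ t := ql_le_of_gg hs ht0 hgt.le
    have htP : t ≤ Pl s := le_Pl_of_gg hs ht1 hgt.ge
    have hconv := gg_convex hs ht hst
    have hlow : ∀ y, ql s ≤ y → y ≤ t → gg s y ≤ y := by
      intro y hy1 hy2
      rcases hqt.eq_or_lt with heq | hlt
      · have : y = t := le_antisymm hy2 (heq ▸ hy1)
        rw [this, hgt]
      · have hd : t - ql s ≠ 0 := by linarith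
        have hb1 : 0 ≤ (t - y) / (t - ql s) := div_nonneg (by linarith) (by linarith)
        have hb2 : 0 ≤ (y - ql s) / (t - ql s) := div_nonneg (by linarith) (by linarith)
        have hb3 : (t - y) / (t - ql s) + (y - ql s) / (t - ql s) = 1 := by
          rw [← add_div]
          have : t - y + (y - ql s) = t - ql s := by ring
          rw [this, div_self hd]
        have h5 := hconv.2 (⟨hq.le, hqt⟩ : ql s ∈ Set.Icc 0 t) (Set.right_mem_Icc.mpr ht0)
          hb1 hb2 hb3
        rw [hgt, hgq] at h5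
        simp only [smul_eq_mul] at h5
        have h6 : (t - y) / (t - ql s) * ql s + (y - ql s) / (t - ql s) * t = y := by
          field_simp
          ring
        rwa [h6] at h5
    rcases le_total x t with h3 | h3
    · have h4 : AntitoneOn (psi s) (Set.Icc (ql s) t) :=
        psi_antiOn hq.le (fun y hy1 hy2 => hlow y hy1.le hy2.le)
      have h5 := h4 (Set.left_mem_Icc.mpr hqt) ⟨h1, h3⟩ h1
      rwa [psi_ql hs] at h5
    · have h4 : MonotoneOn (psi s) (Set.Icc t (Pl s)) := by
        apply psi_monoOn ht0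
        intro y hy1 hy2
        have hy0 : 0 < y := lt_of_le_of_lt ht0 hy1
        set z : ℝ := -Real.log y / s with hz
        have hyz : Real.exp (-(s * z)) = y := by
          rw [hz]
          have : -(s * (-Real.log y / s)) = Real.log y := by field_simp
          rw [this, Real.exp_log hy0]
        have hz1 : ql s ≤ z := by
          rw [hz, le_div_iff₀ hspos]
          have := Real.log_le_log hy0 hy2.le
          rw [log_Pl hs] at this
          linarith
        have hz2 : z ≤ t := by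
          rw [hz, div_le_iff₀ hspos]
          have htpos : 0 < t := by rw [ht]; exact Real.exp_pos _
          have := Real.log_le_log htpos hy1.le
          rw [ht, Real.log_exp] at this
          linarith
        have h6 := hlow z hz1 hz2
        have h7 : gg s y = Real.exp (-(s * gg s z)) := by
          unfold gg
          rw [hyz]
        rw [h7]
        calc y = Real.exp (-(s * z)) := hyz.symm
          _ ≤ Real.exp (-(s * gg s z)) := by
            apply Real.exp_le_exp.mpr
            have := mul_le_mul_of_nonneg_left h6 hs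
            linarith
      have h5 := h4 ⟨h3, h2⟩ (Set.right_mem_Icc.mpr htP) h2
      rwa [psi_Pl hs] at h5

theorem FF_anti {s s' : ℝ} (hs : 0 ≤ s) (h : s ≤ s') : FF s' ≤ FF s := by
  have hs' : 0 ≤ s' := hs.trans h
  rw [← psi_ql hs']
  refine le_trans ?_ (psi_le hs (ql_pos hs').le (ql_le_one hs'))
  unfold psi
  have : Real.exp (-(s' * ql s')) ≤ Real.exp (-(s * ql s')) := by
    apply Real.exp_le_exp.mpr
    have := mul_le_mul_of_nonneg_right h (ql_pos hs').le
    linarith
  linarith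

theorem FF_strict {s s' : ℝ} (hs : 0 ≤ s) (h : s < s') : FF s' < FF s := by
  have hs' : 0 ≤ s' := hs.trans h.le
  rw [← psi_ql hs']
  refine lt_of_lt_of_le ?_ (psi_le hs (ql_pos hs').le (ql_le_one hs'))
  unfold psi
  have : Real.exp (-(s' * ql s')) < Real.exp (-(s * ql s')) := by
    apply Real.exp_lt_exp.mpr
    have := mul_lt_mul_of_pos_right h (ql_pos hs')
    linarith
  linarith

theorem FF_step {s h : ℝ} (hs : 0 ≤ s) (hh : 0 ≤ h) : FF s - h * (Pl s * ql s) ≤ FF (s + h) := by
  have h1 := psi_le (s := s + h) (x := ql s) (by linarith) (ql_pos hs).le (ql_le_one hs)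
  refine le_trans ?_ h1
  rw [← psi_ql hs]
  unfold psi
  have h2 : Real.exp (-((s + h) * ql s)) = Real.exp (-(s * ql s)) * Real.exp (-(h * ql s)) := by
    rw [← Real.exp_add]; congr 1; ring
  have h3 := Real.add_one_le_exp (-(h * ql s))
  have h4 : Real.exp (-(s * ql s)) = Pl s := (Pl_eq hs).symm
  rw [h2, h4]
  have h5 := Pl_pos hs
  nlinarith

theorem FF_zero : FF 0 = 1 := by
  have h1 : Pl 0 = 1 := by rw [Pl_eq le_rfl]; simp
  have h2 : ql 0 = 1 := by rw [ql_eq le_rfl]; simp
  unfold FF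
  rw [h1, h2]
  norm_num

theorem FF_lip {s s' : ℝ} (hs : 0 ≤ s) (h : s ≤ s') : |FF s' - FF s| ≤ s' - s := by
  have h1 := FF_anti hs h
  have h2 := FF_step hs (h := s' - s) (by linarith)
  rw [show s + (s' - s) = s' by ring] at h2
  have h3 : Pl s * ql s ≤ 1 := by
    have := mul_le_mul (Pl_le_one s) (ql_le_one hs) (ql_pos hs).le zero_le_one
    linarith
  rw [abs_le]
  constructor
  · nlinarith
  · linarith

theorem FF_cont (c : ℝ) : ContinuousOn FF (Set.Icc 0 c) := by
  have h : LipschitzOnWith 1 FF (Set.Icc 0 c) := by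
    apply LipschitzOnWith.of_dist_le_mul
    intro x hx y hy
    rw [Real.dist_eq, Real.dist_eq, NNReal.coe_one, one_mul]
    rcases le_total x y with h | h
    · rw [abs_sub_comm, abs_sub_comm x y, abs_of_nonneg (by linarith : 0 ≤ y - x)]
      exact FF_lip hx.1 h
    · rw [abs_of_nonneg (by linarith : 0 ≤ x - y)]
      exact FF_lip hy.1 h
  exact h.continuousOn

/-- the limit at infinity -/
theorem FF_small {ε : ℝ} (hε : 0 < ε) : ∃ s : ℝ, 0 ≤ s ∧ FF s < ε := by
  -- a point where `x - x log x < ε`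
  have h1 : Tendsto (fun x : ℝ => x - x * Real.log x) (𝓝 0) (𝓝 0) := by
    have h2 : Continuous (fun x : ℝ => x - x * Real.log x) :=
      continuous_id.sub Real.continuous_mul_log
    have h3 := h2.tendsto 0
    simpa using h3
  obtain ⟨δ, hδ, h2⟩ := Metric.tendsto_nhds_nhds.mp h1 ε hε
  -- `ql s < δ` for large s
  set s : ℝ := (1 / δ) * (1 / δ) with hs
  have hs0 : 0 < s := by positivity
  refine ⟨s, hs0.le, ?_⟩
  have hq := ql_pos hs0.le
  have hqδ : ql s < δ := by
    by_contra h3
    push Not at h3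
    have h4 : ql s ≤ Real.exp (-(s * ql s)) := by
      have h5 := ql_le_Pl hs0.le
      rwa [Pl_eq hs0.le] at h5
    have h5 : δ ≤ Real.exp (-(s * δ)) := by
      refine h3.trans (h4.trans ?_)
      apply Real.exp_le_exp.mpr
      have := mul_le_mul_of_nonneg_left h3 hs0.le
      linarith
    have h6 : s * δ = 1 / δ := by rw [hs]; field_simp
    rw [h6] at h5
    have h7 := Real.add_one_le_exp (1 / δ)
    have h8 : Real.exp (1 / δ) * Real.exp (-(1 / δ)) = 1 := by rw [← Real.exp_add]; simp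
    have h9 : (1 / δ + 1) * δ ≤ Real.exp (1 / δ) * Real.exp (-(1 / δ)) :=
      mul_le_mul h7 h5 hδ.le (Real.exp_pos _).le
    have h10 : (1 / δ + 1) * δ = 1 + δ := by field_simp
    linarith
  have h3 := @h2 (ql s) (by rw [Real.dist_eq, sub_zero, abs_of_pos hq]; exact hqδ)
  rw [Real.dist_eq, sub_zero] at h3
  have h4 := (abs_lt.mp h3).2
  rw [← psi_ql hs0.le]
  unfold psi
  have h5 : Real.exp (-(s * ql s)) ≤ 1 := Real.exp_le_one_iff.mpr (by
    have := mul_nonneg hs0.le hq.le; linarith)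
  linarith

/-- every value in `(0, 1)` is attained -/
theorem FF_surj {y : ℝ} (hy0 : 0 < y) (hy1 : y < 1) : ∃ c : ℝ, 0 < c ∧ FF c = y := by
  obtain ⟨s, hs, h1⟩ := FF_small hy0
  have h2 := intermediate_value_Icc' hs (FF_cont s)
  have h3 : y ∈ Set.Icc (FF s) (FF 0) := ⟨h1.le, by rw [FF_zero]; exact hy1.le⟩
  obtain ⟨c, hc, h4⟩ := h2 h3
  refine ⟨c, ?_, h4⟩
  rcases hc.1.eq_or_lt with h5 | h5
  · rw [← h5, FF_zero] at h4
    linarith
  · exact h5

end Pool.Agent.H88.PM
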