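import Pool.Agent.H88.PM.Graph

set_option autoImplicit false

/-!
Concentration of the number of vertices satisfying the truncated recursion.
-/

namespace Pool.Agent.H88.PM

open Finset

/-- the limiting frequencies -/
noncomputable def xs : ℕ → ℝ → ℝ
  | 0, _ => 1
  | k + 1, s => Real.exp (-(s * xs k s))

theorem xs_zero (s : ℝ) : xs 0 s = 1 := rfl

theorem xs_succ (k : ℕ) (s : ℝ) : xs (k + 1) s = Real.exp (-(s * xs k s)) := rfl

theorem xs_pos (k : ℕ) (s : ℝ) : 0 < xs k s := by
  cases k with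
  | zero => rw [xs_zero]; norm_num
  | succ k => rw [xs_succ]; exact Real.exp_pos _

theorem xs_le_one (k : ℕ) {s : ℝ} (hs : 0 ≤ s) : xs k s ≤ 1 := by
  cases k with
  | zero => rw [xs_zero]
  | succ k =>
    rw [xs_succ]
    apply Real.exp_le_one_iff.mpr
    have := mul_nonneg hs (xs_pos k s).le
    linarith

theorem abs_exp_neg_sub {a b : ℝ} (ha : 0 ≤ a) (hb : 0 ≤ b) :
    |Real.exp (-a) - Real.exp (-b)| ≤ |a - b| := by
  have key : ∀ a b : ℝ, 0 ≤ a → a ≤ b → Real.exp (-a) - Real.exp (-b) ≤ b - a := by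
    intro a b ha hab
    have h1 : Real.exp (-b) = Real.exp (-a) * Real.exp (-(b - a)) := by
      rw [← Real.exp_add]; congr 1; ring
    have h2 : 1 - (b - a) ≤ Real.exp (-(b - a)) := by
      have := Real.add_one_le_exp (-(b - a)); linarith
    have h3 : Real.exp (-a) ≤ 1 := Real.exp_le_one_iff.mpr (by linarith)
    have h4 : 0 < Real.exp (-a) := Real.exp_pos _
    rw [h1]
    nlinarith
  rcases le_total a b with h | h
  · rw [abs_of_nonneg (by have := Real.exp_le_exp.mpr (neg_le_neg h); linarith),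
      abs_of_nonpos (by linarith)]
    have := key a b ha h
    linarith
  · rw [abs_of_nonpos (by have := Real.exp_le_exp.mpr (neg_le_neg h); linarith),
      abs_of_nonneg (by linarith)]
    have := key b a hb h
    linarith

theorem xs_lip {c : ℝ} (hc : 0 ≤ c) (k : ℕ) : ∃ L : ℝ, 0 ≤ L ∧ ∀ s s' : ℝ, 0 ≤ s → s ≤ c →
    0 ≤ s' → s' ≤ c → |s * xs k s - s' * xs k s'| ≤ L * |s - s'| := by
  induction k with
  | zero =>
    refine ⟨1, by norm_num, ?_⟩
    intro s s' _ _ _ _
    rw [xs_zero, xs_zero]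
    simp
  | succ k ih =>
    obtain ⟨L, hL, h⟩ := ih
    refine ⟨1 + c * L, by positivity, ?_⟩
    intro s s' h1 h2 h3 h4
    have h5 := h s s' h1 h2 h3 h4
    have h6 : |xs (k + 1) s - xs (k + 1) s'| ≤ L * |s - s'| := by
      rw [xs_succ, xs_succ]
      exact (abs_exp_neg_sub (mul_nonneg h1 (xs_pos k s).le)
        (mul_nonneg h3 (xs_pos k s').le)).trans h5
    have h7 : s * xs (k + 1) s - s' * xs (k + 1) s' =
      (s - s') * xs (k + 1) s + s' * (xs (k + 1) s - xs (k + 1) s') := by ring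
    rw [h7]
    refine (abs_add_le _ _).trans ?_
    rw [abs_mul, abs_mul, abs_of_pos (xs_pos (k + 1) s), abs_of_nonneg h3]
    have h8 := xs_le_one (k + 1) h1
    have h9 : |s - s'| * xs (k + 1) s ≤ |s - s'| * 1 :=
      mul_le_mul_of_nonneg_left h8 (abs_nonneg _)
    have h10 : s' * |xs (k + 1) s - xs (k + 1) s'| ≤ c * (L * |s - s'|) :=
      mul_le_mul h4 h6 (abs_nonneg _) hc
    linarith

theorem xs_succ_lip {c : ℝ} (hc : 0 ≤ c) (k : ℕ) : ∃ L : ℝ, 0 ≤ L ∧ ∀ s s' : ℝ, 0 ≤ s → s ≤ c →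
    0 ≤ s' → s' ≤ c → |xs k s - xs k s'| ≤ L * |s - s'| := by
  cases k with
  | zero =>
    refine ⟨0, le_rfl, ?_⟩
    intro s s' _ _ _ _
    rw [xs_zero, xs_zero]
    simp
  | succ k =>
    obtain ⟨L, hL, h⟩ := xs_lip hc k
    refine ⟨L, hL, ?_⟩
    intro s s' h1 h2 h3 h4
    rw [xs_succ, xs_succ]
    exact (abs_exp_neg_sub (mul_nonneg h1 (xs_pos k s).le)
      (mul_nonneg h3 (xs_pos k s').le)).trans (h s s' h1 h2 h3 h4)

theorem abs_pow_sub {a b : ℝ} (ha : 0 ≤ a) (ha1 : a ≤ 1) (hb : 0 ≤ b) (hb1 : b ≤ 1) (M : ℕ) :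
    |a ^ M - b ^ M| ≤ M * |a - b| := by
  induction M with
  | zero => simp
  | succ M ih =>
    have h1 : a ^ (M + 1) - b ^ (M + 1) = a * (a ^ M - b ^ M) + (a - b) * b ^ M := by ring
    rw [h1]
    refine (abs_add_le _ _).trans ?_
    rw [abs_mul, abs_mul, abs_of_nonneg ha, abs_of_nonneg (pow_nonneg hb M)]
    have h2 : a * |a ^ M - b ^ M| ≤ 1 * (M * |a - b|) :=
      mul_le_mul ha1 ih (abs_nonneg _) zero_le_one
    have h3 : |a - b| * b ^ M ≤ |a - b| * 1 :=
      mul_le_mul_of_nonneg_left (pow_le_one₀ hb hb1) (abs_nonneg _)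
    push_cast
    linarith

theorem abs_pow_sub_exp {p : ℝ} (h0 : 0 ≤ p) (h1 : p ≤ 1) (M : ℕ) :
    |(1 - p) ^ M - Real.exp (-(p * M))| ≤ M * p ^ 2 := by
  have h2 : Real.exp (-(p * M)) = Real.exp (-p) ^ M := by
    rw [← Real.exp_nat_mul]; congr 1; ring
  rw [h2]
  refine (abs_pow_sub (by linarith) (by linarith) (Real.exp_pos _).le
    (Real.exp_le_one_iff.mpr (by linarith)) M).trans ?_
  apply mul_le_mul_of_nonneg_left _ (by positivity)
  have h3 := Real.abs_exp_sub_one_sub_id_le (x := -p) (by rw [abs_neg, abs_of_nonneg h0]; exact h1)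
  rw [abs_sub_comm]
  have h4 : Real.exp (-p) - 1 - -p = Real.exp (-p) - (1 - p) := by ring
  rw [h4, neg_sq] at h3
  exact h3

theorem card_erase_erase {V : Type*} [DecidableEq V] {B : Finset V} {v u : V} (hv : v ∈ B)
    (hu : u ∈ B) (hvu : v ≠ u) : (((B.erase v).erase u).card : ℝ) = B.card - 2 := by
  have h1 : u ∈ B.erase v := Finset.mem_erase.mpr ⟨hvu.symm, hu⟩
  have h2 := Finset.card_erase_add_one h1
  have h3 := Finset.card_erase_add_one hv
  have h4 : ((B.erase v).erase u).card + 2 = B.card := by omega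
  rw [← h4]
  push_cast
  ring

/-- one-step estimate -/
theorem step_est {p c L : ℝ} (h0 : 0 ≤ p) (h1 : p ≤ 1) (hc : 0 ≤ c) (k : ℕ) (hL : 0 ≤ L)
    (hlip : ∀ s s' : ℝ, 0 ≤ s → s ≤ c →
      0 ≤ s' → s' ≤ c → |s * xs k s - s' * xs k s'| ≤ L * |s - s'|)
    (m m' : ℝ) (M : ℕ) (hm : p * m ≤ c) (hm' : 0 ≤ m') (hmm' : |m - m'| ≤ 2) (hmle : m' ≤ m)
    (hM : (M : ℝ) ≤ m) :
    ((1 - p) ^ M - xs (k + 1) (p * m)) ^ 2 ≤
      2 * p ^ 2 * ((M : ℝ) - m' * xs k (p * m')) ^ 2 + 2 * (p * (c + 2 * L)) ^ 2 := by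
  have e1 := abs_pow_sub_exp h0 h1 M
  have hm0 : 0 ≤ m := hm'.trans hmle
  have e2 : |Real.exp (-(p * M)) - xs (k + 1) (p * m)| ≤ |p * M - p * m * xs k (p * m)| := by
    rw [xs_succ]
    exact abs_exp_neg_sub (by positivity)
      (mul_nonneg (mul_nonneg h0 hm0) (xs_pos k _).le)
  have e3 : |p * M - p * m * xs k (p * m)| ≤ p * |(M : ℝ) - m' * xs k (p * m')| + L * (p * 2) := by
    have h2 : p * M - p * m * xs k (p * m) = p * ((M : ℝ) - m' * xs k (p * m')) +
      (p * m' * xs k (p * m') - p * m * xs k (p * m)) := by ring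
    rw [h2]
    refine (abs_add_le _ _).trans ?_
    rw [abs_mul, abs_of_nonneg h0]
    have h3 := hlip (p * m') (p * m) (by positivity)
      ((mul_le_mul_of_nonneg_left hmle h0).trans hm) (by positivity) hm
    have h4 : |p * m' - p * m| ≤ p * 2 := by
      rw [← mul_sub, abs_mul, abs_of_nonneg h0, abs_sub_comm]
      exact mul_le_mul_of_nonneg_left hmm' h0
    have h5 := mul_le_mul_of_nonneg_left h4 hL
    linarith
  have e4 : (M : ℝ) * p ^ 2 ≤ p * c := by
    have : (M : ℝ) * p ^ 2 = p * (p * M) := by ring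
    rw [this]
    exact mul_le_mul_of_nonneg_left ((mul_le_mul_of_nonneg_left hM h0).trans hm) h0
  have e5 : |(1 - p) ^ M - xs (k + 1) (p * m)| ≤
      p * |(M : ℝ) - m' * xs k (p * m')| + p * (c + 2 * L) := by
    have h2 : (1 - p) ^ M - xs (k + 1) (p * m) = ((1 - p) ^ M - Real.exp (-(p * M))) +
      (Real.exp (-(p * M)) - xs (k + 1) (p * m)) := by ring
    rw [h2]
    refine (abs_add_le _ _).trans ?_
    linarith
  rw [← sq_abs]
  have h6 : |(1 - p) ^ M - xs (k + 1) (p * m)| ^ 2 ≤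
      (p * |(M : ℝ) - m' * xs k (p * m')| + p * (c + 2 * L)) ^ 2 :=
    pow_le_pow_left₀ (abs_nonneg _) e5 2
  refine h6.trans ?_
  have h7 : 2 * p ^ 2 * ((M : ℝ) - m' * xs k (p * m')) ^ 2 =
      2 * (p * |(M : ℝ) - m' * xs k (p * m')|) ^ 2 := by
    rw [mul_pow, sq_abs]; ring
  rw [h7]
  nlinarith [sq_nonneg (p * |(M : ℝ) - m' * xs k (p * m')| - p * (c + 2 * L))]

/-- **Concentration.** -/
theorem conc {c : ℝ} (hc : 0 ≤ c) (k : ℕ) : ∃ C : ℝ, 0 ≤ C ∧
    ∀ (V : Type) [Fintype V] [DecidableEq V] (B : Finset V) (p : ℝ), 0 ≤ p → p ≤ 1 →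
      p * B.card ≤ c →
      cE p (fun ω : Sym2 V → Bool =>
        (((Tk (gr ω) k B).card : ℝ) - B.card * xs k (p * B.card)) ^ 2) ≤ C * B.card := by
  induction k with
  | zero =>
    refine ⟨0, le_rfl, ?_⟩
    intro V _ _ B p _ _ _
    have h : ∀ ω : Sym2 V → Bool,
        (((Tk (gr ω) 0 B).card : ℝ) - B.card * xs 0 (p * B.card)) ^ 2 = 0 := by
      intro ω
      have h2 : Tk (gr ω) 0 B = B := by
        ext v
        rw [mem_Tk]
        simp [tr]
      rw [h2, xs_zero]
      ring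
    rw [cE_congr p h, cE_const]
    simp
  | succ k ih =>
    obtain ⟨C, hC, ih⟩ := ih
    obtain ⟨L, hL, hlip⟩ := xs_lip hc k
    refine ⟨1 + 2 * c * (1 + c) ^ (k + 1) + 2 * c * c * C + 2 * c * (c + 2 * L) ^ 2,
      by positivity, ?_⟩
    intro V _ _ B p h0 h1 hB
    set m : ℝ := (B.card : ℝ) with hm
    set x : ℝ := xs (k + 1) (p * m) with hx
    have hm0 : 0 ≤ m := by rw [hm]; positivity
    have hs0 : 0 ≤ p * m := mul_nonneg h0 hm0
    have hx0 : 0 ≤ x := (xs_pos _ _).le
    have hx1 : x ≤ 1 := xs_le_one _ hs0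
    -- the square as a double sum
    have e1 : ∀ ω : Sym2 V → Bool, (((Tk (gr ω) (k + 1) B).card : ℝ) - m * x) ^ 2 =
        ∑ v ∈ B, ∑ u ∈ B, (ind (tr (gr ω) (k + 1) B v) - x) * (ind (tr (gr ω) (k + 1) B u) - x) := by
      intro ω
      rw [← Finset.sum_mul_sum, ← sq]
      rw [Finset.sum_sub_distrib, Finset.sum_const, nsmul_eq_mul, ← card_Tk]
    rw [cE_congr p e1, cE_sum]
    -- bound for each pair
    set δ : ℝ := p * (1 + c) ^ (k + 1) with hδ
    have hδ0 : 0 ≤ δ := by positivity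
    set κ : ℝ := 2 * δ + 2 * p ^ 2 * (C * m) + 2 * (p * (c + 2 * L)) ^ 2 with hκ
    have hκ0 : 0 ≤ κ := by positivity
    have e2 : ∀ v ∈ B, ∀ u ∈ B, cE p (fun ω : Sym2 V → Bool =>
        (ind (tr (gr ω) (k + 1) B v) - x) * (ind (tr (gr ω) (k + 1) B u) - x)) ≤
        (if v = u then 1 else 0) + κ := by
      intro v hv u hu
      have habs : ∀ P : Prop, |ind P - x| ≤ 1 := by
        intro P
        have := ind_nonneg P
        have := ind_le_one P
        rw [abs_le]
        constructor <;> linarith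
      by_cases hvu : v = u
      · rw [if_pos hvu]
        have : cE p (fun ω : Sym2 V → Bool =>
          (ind (tr (gr ω) (k + 1) B v) - x) * (ind (tr (gr ω) (k + 1) B u) - x)) ≤ 1 := by
          apply cE_le h0 h1
          intro ω
          refine (le_abs_self _).trans ?_
          rw [abs_mul]
          exact mul_le_one₀ (habs _) (abs_nonneg _) (habs _)
        linarith
      · rw [if_neg hvu, zero_add]
        have f1 : ∀ ω : Sym2 V → Bool,
            (ind (tr (gr ω) (k + 1) B v) - x) * (ind (tr (gr ω) (k + 1) B u) - x) ≤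
            (ind (tr (gr ω) (k + 1) (B.erase u) v) - x) *
              (ind (tr (gr ω) (k + 1) (B.erase v) u) - x) +
            (ind (¬ (tr (gr ω) (k + 1) B v ↔ tr (gr ω) (k + 1) (B.erase u) v)) +
              ind (¬ (tr (gr ω) (k + 1) B u ↔ tr (gr ω) (k + 1) (B.erase v) u))) := by
          intro ω
          rw [← abs_ind_sub, ← abs_ind_sub]
          have g1 := habs (tr (gr ω) (k + 1) B v)
          have g2 := habs (tr (gr ω) (k + 1) (B.erase v) u)
          set a := ind (tr (gr ω) (k + 1) B v)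
          set b := ind (tr (gr ω) (k + 1) B u)
          set a' := ind (tr (gr ω) (k + 1) (B.erase u) v)
          set b' := ind (tr (gr ω) (k + 1) (B.erase v) u)
          have g3 : (a - x) * (b - x) = (a' - x) * (b' - x) +
            ((a - a') * (b' - x) + (a - x) * (b - b')) := by ring
          have g4 : (a - a') * (b' - x) ≤ |a - a'| := by
            refine (le_abs_self _).trans ?_
            rw [abs_mul]
            exact mul_le_of_le_one_right (abs_nonneg _) g2
          have g5 : (a - x) * (b - b') ≤ |b - b'| := by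
            refine (le_abs_self _).trans ?_
            rw [abs_mul]
            exact mul_le_of_le_one_left (abs_nonneg _) g1
          linarith
        have f2 := cE_mono h0 h1 f1
        rw [cE_add, cE_add, ← cP_eq, ← cP_eq, cE_tr_two p x k B v u hvu] at f2
        have f3 := cP_tr_diff h0 h1 hc (k + 1) B v u hB hv hvu
        have f4 := cP_tr_diff h0 h1 hc (k + 1) B u v hB hu (Ne.symm hvu)
        have hcard : (((B.erase v).erase u).card : ℝ) = m - 2 := card_erase_erase hv hu hvu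
        have hcard0 : (0:ℝ) ≤ m - 2 := by rw [← hcard]; positivity
        have f5 : ∀ ω : Sym2 V → Bool,
            ((1 - p) ^ (Tk (gr ω) k ((B.erase v).erase u)).card - x) ^ 2 ≤
            2 * p ^ 2 * (((Tk (gr ω) k ((B.erase v).erase u)).card : ℝ) -
              ((B.erase v).erase u).card * xs k (p * ((B.erase v).erase u).card)) ^ 2 +
              2 * (p * (c + 2 * L)) ^ 2 := by
          intro ω
          rw [hcard]
          apply step_est h0 h1 hc k hL hlip m (m - 2) _ hB hcard0 (by simp) (by linarith)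
          have g1 : ((Tk (gr ω) k ((B.erase v).erase u)).card : ℝ) ≤
              ((B.erase v).erase u).card := by
            exact_mod_cast Finset.card_le_card (Tk_sub _ _ _)
          rw [hcard] at g1
          linarith
        have f6 := cE_mono h0 h1 f5
        rw [cE_add, cE_const, cE_mul_left] at f6
        have f7 := ih V ((B.erase v).erase u) p h0 h1 (by
          rw [hcard]
          have := mul_le_mul_of_nonneg_left (by linarith : m - 2 ≤ m) h0
          linarith)
        have f8 : C * (((B.erase v).erase u).card : ℝ) ≤ C * m := by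
          rw [hcard]
          exact mul_le_mul_of_nonneg_left (by linarith) hC
        have f9 := mul_le_mul_of_nonneg_left (f7.trans f8) (by positivity : 0 ≤ 2 * p ^ 2)
        rw [hκ]
        linarith
    have e3 : ∑ v ∈ B, cE p (fun ω : Sym2 V → Bool => ∑ u ∈ B,
        (ind (tr (gr ω) (k + 1) B v) - x) * (ind (tr (gr ω) (k + 1) B u) - x)) ≤
        ∑ v ∈ B, ∑ u ∈ B, ((if v = u then 1 else 0) + κ) := by
      apply Finset.sum_le_sum
      intro v hv
      rw [cE_sum]
      exact Finset.sum_le_sum (fun u hu => e2 v hv u hu)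
    refine e3.trans ?_
    have e4 : ∑ v ∈ B, ∑ u ∈ B, ((if v = u then (1:ℝ) else 0) + κ) = m + m * (m * κ) := by
      have : ∀ v ∈ B, ∑ u ∈ B, ((if v = u then (1:ℝ) else 0) + κ) = 1 + m * κ := by
        intro v hv
        rw [Finset.sum_add_distrib, Finset.sum_ite_eq, if_pos hv, Finset.sum_const, nsmul_eq_mul]
      rw [Finset.sum_congr rfl this, Finset.sum_const, nsmul_eq_mul]
      ring
    rw [e4, hκ]
    have g1 : m * (m * (2 * δ)) ≤ m * (2 * c * (1 + c) ^ (k + 1)) := by
      apply mul_le_mul_of_nonneg_left _ hm0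
      have : m * (2 * δ) = (p * m) * (2 * (1 + c) ^ (k + 1)) := by rw [hδ]; ring
      rw [this]
      have := mul_le_mul_of_nonneg_right hB (by positivity : (0:ℝ) ≤ 2 * (1 + c) ^ (k + 1))
      linarith
    have g2 : m * (m * (2 * p ^ 2 * (C * m))) ≤ m * (2 * c * c * C) := by
      apply mul_le_mul_of_nonneg_left _ hm0
      have : m * (2 * p ^ 2 * (C * m)) = 2 * ((p * m) * (p * m)) * C := by ring
      rw [this]
      have h5 : (p * m) * (p * m) ≤ c * c := mul_le_mul hB hB hs0 hc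
      have := mul_le_mul_of_nonneg_right h5 hC
      linarith
    have g3 : m * (m * (2 * (p * (c + 2 * L)) ^ 2)) ≤ m * (2 * c * (c + 2 * L) ^ 2) := by
      apply mul_le_mul_of_nonneg_left _ hm0
      have : m * (2 * (p * (c + 2 * L)) ^ 2) = 2 * ((p * m) * p) * (c + 2 * L) ^ 2 := by ring
      rw [this]
      have h5 : (p * m) * p ≤ c * 1 := mul_le_mul hB h1 h0 hc
      have := mul_le_mul_of_nonneg_right h5 (sq_nonneg (c + 2 * L))
      linarith
    nlinarith [g1, g2, g3]

end Pool.Agent.H88.PM
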