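import Mathlib

set_option autoImplicit false

/-!
Expectations on the discrete cube `ι → Bool` with independent Bernoulli(`p`) coordinates.
-/

namespace Pool.Agent.H88.PM

open Finset

section Cube

variable {ι : Type*} [Fintype ι]

/-- the weight of a bit -/
noncomputable def bw (p : ℝ) (b : Bool) : ℝ := if b then p else 1 - p

/-- the weight of a point of the cube -/
noncomputable def cw (p : ℝ) (ω : ι → Bool) : ℝ := ∏ i, bw p (ω i)

open Classical in
/-- expectation on the cube -/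
noncomputable def cE (p : ℝ) (f : (ι → Bool) → ℝ) : ℝ := ∑ ω, cw p ω * f ω

theorem cE_def [DecidableEq ι] (p : ℝ) (f : (ι → Bool) → ℝ) : cE p f = ∑ ω, cw p ω * f ω := by
  unfold cE
  exact Finset.sum_congr (by ext; simp) (fun _ _ => rfl)

theorem bw_nonneg {p : ℝ} (h0 : 0 ≤ p) (h1 : p ≤ 1) (b : Bool) : 0 ≤ bw p b := by
  unfold bw
  split_ifs <;> linarith

theorem cw_nonneg {p : ℝ} (h0 : 0 ≤ p) (h1 : p ≤ 1) (ω : ι → Bool) : 0 ≤ cw p ω :=
  Finset.prod_nonneg (fun i _ => bw_nonneg h0 h1 _)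

/-- product formula -/
theorem cE_prod (p : ℝ) (g : ι → Bool → ℝ) :
    cE p (fun ω => ∏ i, g i (ω i)) = ∏ i, (p * g i true + (1 - p) * g i false) := by
  classical
  rw [cE_def]
  have h := Finset.prod_univ_sum (fun _ : ι => (univ : Finset Bool))
    (fun i b => bw p b * g i b)
  simp only [Fintype.piFinset_univ] at h
  have h2 : ∀ i : ι, ∑ b : Bool, bw p b * g i b = p * g i true + (1 - p) * g i false := by
    intro i
    simp [bw]
  rw [← Finset.prod_congr rfl (fun i _ => h2 i), h]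
  apply Finset.sum_congr rfl
  intro ω _
  unfold cw
  rw [← Finset.prod_mul_distrib]

theorem cE_const (p c : ℝ) : cE (ι := ι) p (fun _ => c) = c := by
  have h : cE (ι := ι) p (fun _ => (1 : ℝ)) = 1 := by
    have := cE_prod (ι := ι) p (fun _ _ => 1)
    simpa using this
  classical
  rw [cE_def] at h ⊢
  rw [← Finset.sum_mul]
  simp only [mul_one] at h
  rw [h, one_mul]

theorem cE_congr (p : ℝ) {f g : (ι → Bool) → ℝ} (h : ∀ ω, f ω = g ω) : cE p f = cE p g := by
  rw [funext h]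

theorem cE_add (p : ℝ) (f g : (ι → Bool) → ℝ) :
    cE p (fun ω => f ω + g ω) = cE p f + cE p g := by
  classical
  rw [cE_def, cE_def, cE_def, ← Finset.sum_add_distrib]
  exact Finset.sum_congr rfl (fun ω _ => mul_add _ _ _)

theorem cE_sub (p : ℝ) (f g : (ι → Bool) → ℝ) :
    cE p (fun ω => f ω - g ω) = cE p f - cE p g := by
  classical
  rw [cE_def, cE_def, cE_def, ← Finset.sum_sub_distrib]
  exact Finset.sum_congr rfl (fun ω _ => mul_sub _ _ _)

theorem cE_mul_left (p c : ℝ) (f : (ι → Bool) → ℝ) :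
    cE p (fun ω => c * f ω) = c * cE p f := by
  classical
  rw [cE_def, cE_def, Finset.mul_sum]
  exact Finset.sum_congr rfl (fun ω _ => by ring)

theorem cE_mul_right (p c : ℝ) (f : (ι → Bool) → ℝ) :
    cE p (fun ω => f ω * c) = cE p f * c := by
  rw [mul_comm, ← cE_mul_left]
  exact cE_congr p (fun ω => mul_comm _ _)

theorem cE_sum {κ : Type*} (s : Finset κ) (p : ℝ) (f : κ → (ι → Bool) → ℝ) :
    cE p (fun ω => ∑ k ∈ s, f k ω) = ∑ k ∈ s, cE p (f k) := by
  classical
  simp only [cE_def]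
  rw [Finset.sum_comm]
  exact Finset.sum_congr rfl (fun ω _ => Finset.mul_sum _ _ _)

theorem cE_mono {p : ℝ} (h0 : 0 ≤ p) (h1 : p ≤ 1) {f g : (ι → Bool) → ℝ}
    (h : ∀ ω, f ω ≤ g ω) : cE p f ≤ cE p g := by
  classical
  rw [cE_def, cE_def]
  exact Finset.sum_le_sum (fun ω _ => mul_le_mul_of_nonneg_left (h ω) (cw_nonneg h0 h1 ω))

theorem cE_nonneg {p : ℝ} (h0 : 0 ≤ p) (h1 : p ≤ 1) {f : (ι → Bool) → ℝ}
    (h : ∀ ω, 0 ≤ f ω) : 0 ≤ cE p f := by
  have := cE_mono h0 h1 (f := fun _ => 0) (g := f) h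
  rwa [cE_const] at this

theorem cE_le {p : ℝ} (h0 : 0 ≤ p) (h1 : p ≤ 1) {f : (ι → Bool) → ℝ} {c : ℝ}
    (h : ∀ ω, f ω ≤ c) : cE p f ≤ c := by
  have := cE_mono h0 h1 (f := f) (g := fun _ => c) h
  rwa [cE_const] at this

theorem le_cE {p : ℝ} (h0 : 0 ≤ p) (h1 : p ≤ 1) {f : (ι → Bool) → ℝ} {c : ℝ}
    (h : ∀ ω, c ≤ f ω) : c ≤ cE p f := by
  have := cE_mono h0 h1 (f := fun _ => c) (g := f) h
  rwa [cE_const] at this

open Classical in
/-- probability on the cube -/
noncomputable def cP (p : ℝ) (A : (ι → Bool) → Prop) : ℝ :=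
  cE p (fun ω => if A ω then 1 else 0)

theorem cP_def (p : ℝ) (A : (ι → Bool) → Prop) [DecidablePred A] :
    cP p A = cE p (fun ω => if A ω then 1 else 0) := by
  unfold cP
  apply cE_congr
  intro ω
  by_cases h : A ω <;> simp [h]

open Classical in
/-- indicator of a proposition -/
noncomputable def ind (P : Prop) : ℝ := if P then 1 else 0

theorem ind_def (P : Prop) [Decidable P] : ind P = if P then 1 else 0 := by
  unfold ind
  by_cases h : P <;> simp [h]

theorem ind_pos {P : Prop} (h : P) : ind P = 1 := by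
  classical
  rw [ind_def, if_pos h]

theorem ind_neg {P : Prop} (h : ¬ P) : ind P = 0 := by
  classical
  rw [ind_def, if_neg h]

theorem ind_nonneg (P : Prop) : 0 ≤ ind P := by
  classical
  rw [ind_def]
  split_ifs <;> norm_num

theorem ind_le_one (P : Prop) : ind P ≤ 1 := by
  classical
  rw [ind_def]
  split_ifs <;> norm_num

theorem ind_congr {P Q : Prop} (h : P ↔ Q) : ind P = ind Q := by rw [propext h]

theorem abs_ind_sub (P Q : Prop) : |ind P - ind Q| = ind (¬ (P ↔ Q)) := by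
  by_cases hP : P <;> by_cases hQ : Q
  · rw [ind_pos hP, ind_pos hQ, ind_neg (by tauto)]; simp
  · rw [ind_pos hP, ind_neg hQ, ind_pos (by tauto)]; simp
  · rw [ind_neg hP, ind_pos hQ, ind_pos (by tauto)]; simp
  · rw [ind_neg hP, ind_neg hQ, ind_neg (by tauto)]; simp

theorem cP_eq (p : ℝ) (A : (ι → Bool) → Prop) : cP p A = cE p (fun ω => ind (A ω)) := by
  classical
  rw [cP_def]
  exact cE_congr p (fun ω => (ind_def _).symm)

theorem cP_congr (p : ℝ) {A B : (ι → Bool) → Prop} (h : ∀ ω, A ω ↔ B ω) : cP p A = cP p B := by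
  rw [funext (fun ω => propext (h ω))]

theorem cP_nonneg {p : ℝ} (h0 : 0 ≤ p) (h1 : p ≤ 1) (A : (ι → Bool) → Prop) : 0 ≤ cP p A := by
  classical
  rw [cP_def]
  exact cE_nonneg h0 h1 (fun ω => by split_ifs <;> norm_num)

theorem cP_mono {p : ℝ} (h0 : 0 ≤ p) (h1 : p ≤ 1) {A B : (ι → Bool) → Prop}
    (h : ∀ ω, A ω → B ω) : cP p A ≤ cP p B := by
  classical
  rw [cP_def, cP_def]
  apply cE_mono h0 h1
  intro ω
  by_cases hA : A ω
  · simp [hA, h ω hA]
  · rw [if_neg hA]
    split_ifs <;> norm_num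

theorem cP_not (p : ℝ) (A : (ι → Bool) → Prop) : cP p (fun ω => ¬ A ω) = 1 - cP p A := by
  classical
  rw [cP_def, cP_def]
  have h1 : ∀ ω : ι → Bool, (if ¬ A ω then (1:ℝ) else 0) = 1 - (if A ω then 1 else 0) := by
    intro ω
    by_cases hA : A ω <;> simp [hA]
  rw [cE_congr p h1, cE_sub, cE_const]

theorem cP_le_one {p : ℝ} (h0 : 0 ≤ p) (h1 : p ≤ 1) (A : (ι → Bool) → Prop) : cP p A ≤ 1 := by
  have := cP_nonneg h0 h1 (fun ω => ¬ A ω)
  rw [cP_not] at this
  linarith

theorem cP_or_le {p : ℝ} (h0 : 0 ≤ p) (h1 : p ≤ 1) (A B : (ι → Bool) → Prop) :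
    cP p (fun ω => A ω ∨ B ω) ≤ cP p A + cP p B := by
  classical
  rw [cP_def, cP_def, cP_def, ← cE_add]
  apply cE_mono h0 h1
  intro ω
  by_cases hA : A ω <;> by_cases hB : B ω <;> simp [hA, hB]

theorem cP_exists_le {κ : Type*} (s : Finset κ) {p : ℝ} (h0 : 0 ≤ p) (h1 : p ≤ 1)
    (A : κ → (ι → Bool) → Prop) :
    cP p (fun ω => ∃ k ∈ s, A k ω) ≤ ∑ k ∈ s, cP p (A k) := by
  classical
  have : ∀ k, cP p (A k) = cE p (fun ω => if A k ω then 1 else 0) := fun k => cP_def p (A k)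
  simp only [this]
  rw [cP_def, ← cE_sum]
  apply cE_mono h0 h1
  intro ω
  by_cases h : ∃ k ∈ s, A k ω
  · rw [if_pos h]
    obtain ⟨k, hk, hA⟩ := h
    have h2 : (if A k ω then (1:ℝ) else 0) ≤ ∑ k ∈ s, (if A k ω then (1:ℝ) else 0) :=
      Finset.single_le_sum (f := fun k => if A k ω then (1:ℝ) else 0)
        (fun k _ => by split_ifs <;> norm_num) hk
    rw [if_pos hA] at h2
    exact h2
  · rw [if_neg h]
    exact Finset.sum_nonneg (fun k _ => by split_ifs <;> norm_num)

/-- Markov's inequality. -/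
theorem cP_markov {p : ℝ} (h0 : 0 ≤ p) (h1 : p ≤ 1) (f : (ι → Bool) → ℝ) (hf : ∀ ω, 0 ≤ f ω)
    (t : ℝ) (ht : 0 < t) : cP p (fun ω => t ≤ f ω) ≤ cE p f / t := by
  classical
  rw [le_div_iff₀ ht, cP_def, mul_comm, ← cE_mul_left]
  apply cE_mono h0 h1
  intro ω
  split_ifs with h
  · linarith
  · simpa using hf ω

/-- the probability of a product event -/
theorem cP_pi (p : ℝ) (g : ι → Bool → Prop) [∀ i b, Decidable (g i b)] :
    cP p (fun ω => ∀ i, g i (ω i)) =
      ∏ i, (p * (if g i true then 1 else 0) + (1 - p) * (if g i false then 1 else 0)) := by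
  classical
  rw [cP_def, ← cE_prod p (fun i b => if g i b then (1:ℝ) else 0)]
  apply cE_congr
  intro ω
  by_cases hJ : ∀ i, g i (ω i)
  · rw [if_pos hJ]
    symm
    apply Finset.prod_eq_one
    intro i _
    rw [if_pos (hJ i)]
  · rw [if_neg hJ]
    push Not at hJ
    obtain ⟨i, hi⟩ := hJ
    symm
    apply Finset.prod_eq_zero (Finset.mem_univ i)
    rw [if_neg hi]

/-- the event that all coordinates in `J` are `false` -/
theorem cP_all_false (p : ℝ) (J : Finset ι) :
    cP p (fun ω => ∀ i ∈ J, ω i = false) = (1 - p) ^ J.card := by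
  classical
  rw [cP_congr p (B := fun ω => ∀ i, (i ∈ J → ω i = false)) (fun ω => Iff.rfl),
    cP_pi p (fun i b => i ∈ J → b = false)]
  have h2 : ∀ i : ι, (p * (if (i ∈ J → true = false) then (1:ℝ) else 0) +
      (1 - p) * (if (i ∈ J → false = false) then (1:ℝ) else 0)) =
      if i ∈ J then (1 - p) else 1 := by
    intro i
    by_cases hi : i ∈ J <;> simp [hi]
  rw [Finset.prod_congr rfl (fun i _ => h2 i), Finset.prod_ite_mem, Finset.univ_inter,
    Finset.prod_const]

/-- combining two independent configurations coordinatewise -/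
theorem cE_comb (p r p' : ℝ) (κ : ι → Bool → Bool → Bool)
    (hκ : ∀ i η, ∑ b : Bool × Bool, (if κ i b.1 b.2 = η then bw p b.1 * bw r b.2 else 0)
      = bw p' η) (f : (ι → Bool) → ℝ) :
    cE p' f = cE p (fun ω => cE r (fun ω' => f (fun i => κ i (ω i) (ω' i)))) := by
  classical
  simp only [cE_def]
  simp only [Finset.mul_sum]
  have key : ∀ η : ι → Bool, cw p' η = ∑ ω : ι → Bool, ∑ ω' : ι → Bool,
      (if (fun i => κ i (ω i) (ω' i)) = η then cw p ω * cw r ω' else 0) := by
    intro η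
    have h := Finset.prod_univ_sum (fun _ : ι => (univ : Finset (Bool × Bool)))
      (fun i b => if κ i b.1 b.2 = η i then bw p b.1 * bw r b.2 else 0)
    simp only [Fintype.piFinset_univ] at h
    rw [Finset.prod_congr rfl (fun i _ => hκ i (η i))] at h
    have h3 : cw p' η = ∏ i, bw p' (η i) := rfl
    rw [h3, h, ← Finset.sum_product', Finset.univ_product_univ]
    refine Fintype.sum_equiv (Equiv.arrowProdEquivProdArrow ι (fun _ => Bool) (fun _ => Bool))
      _ _ ?_
    intro b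
    show ∏ i, (if κ i (b i).1 (b i).2 = η i then bw p (b i).1 * bw r (b i).2 else 0) =
      if (fun i => κ i (b i).1 (b i).2) = η then
        cw p (fun i => (b i).1) * cw r (fun i => (b i).2) else 0
    by_cases hb : (fun i => κ i (b i).1 (b i).2) = η
    · rw [if_pos hb]
      unfold cw
      rw [← Finset.prod_mul_distrib]
      apply Finset.prod_congr rfl
      intro i _
      rw [if_pos (congrFun hb i)]
    · rw [if_neg hb]
      obtain ⟨i, hi⟩ : ∃ i, κ i (b i).1 (b i).2 ≠ η i := by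
        by_contra hcon
        push Not at hcon
        exact hb (funext hcon)
      apply Finset.prod_eq_zero (Finset.mem_univ i)
      rw [if_neg hi]
  calc ∑ η, cw p' η * f η = ∑ η, ∑ ω : ι → Bool, ∑ ω' : ι → Bool,
        (if (fun i => κ i (ω i) (ω' i)) = η then cw p ω * cw r ω' * f η else 0) := by
        apply Finset.sum_congr rfl
        intro η _
        rw [key η, Finset.sum_mul]
        apply Finset.sum_congr rfl
        intro ω _
        rw [Finset.sum_mul]
        apply Finset.sum_congr rfl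
        intro ω' _
        split_ifs <;> ring
    _ = ∑ ω : ι → Bool, ∑ ω' : ι → Bool, ∑ η : ι → Bool,
        (if (fun i => κ i (ω i) (ω' i)) = η then cw p ω * cw r ω' * f η else 0) := by
        rw [Finset.sum_comm]
        apply Finset.sum_congr rfl
        intro ω _
        rw [Finset.sum_comm]
    _ = _ := by
        apply Finset.sum_congr rfl
        intro ω _
        apply Finset.sum_congr rfl
        intro ω' _
        rw [Finset.sum_ite_eq]
        simp only [Finset.mem_univ, if_true]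
        ring

/-- Decoupling. -/
theorem cE_decouple (p : ℝ) (J : ι → Prop) (Φ : (ι → Bool) → (ι → Bool) → ℝ)
    (h1 : ∀ ω₁ ω₂ ω', (∀ i, ¬ J i → ω₁ i = ω₂ i) → Φ ω₁ ω' = Φ ω₂ ω')
    (h2 : ∀ ω ω₁ ω₂, (∀ i, J i → ω₁ i = ω₂ i) → Φ ω ω₁ = Φ ω ω₂) :
    cE p (fun ω => Φ ω ω) = cE p (fun ω => cE p (fun ω' => Φ ω ω')) := by
  classical
  rw [cE_comb p p p (fun i b b' => if J i then b' else b)]
  · apply cE_congr
    intro ω
    apply cE_congr
    intro ω'
    rw [h1 _ ω _ (fun i hi => by simp [hi]), h2 ω _ ω' (fun i hi => by simp [hi])]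
  · intro i η
    rw [Fintype.sum_prod_type]
    by_cases hJ : J i
    · cases η <;> simp [hJ, bw] <;> ring
    · cases η <;> simp [hJ, bw] <;> ring

/-- independence -/
theorem cE_indep (p : ℝ) (J : ι → Prop) (f g : (ι → Bool) → ℝ)
    (h1 : ∀ ω₁ ω₂, (∀ i, ¬ J i → ω₁ i = ω₂ i) → f ω₁ = f ω₂)
    (h2 : ∀ ω₁ ω₂, (∀ i, J i → ω₁ i = ω₂ i) → g ω₁ = g ω₂) :
    cE p (fun ω => f ω * g ω) = cE p f * cE p g := by
  rw [cE_decouple p J (fun ω ω' => f ω * g ω') (fun ω₁ ω₂ ω' h => by rw [h1 ω₁ ω₂ h])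
    (fun ω ω₁ ω₂ h => by rw [h2 ω₁ ω₂ h]), ← cE_mul_right]
  apply cE_congr
  intro ω
  rw [cE_mul_left]

/-- independence for events -/
theorem cP_indep (p : ℝ) (J : ι → Prop) (A B : (ι → Bool) → Prop)
    (h1 : ∀ ω₁ ω₂, (∀ i, ¬ J i → ω₁ i = ω₂ i) → (A ω₁ ↔ A ω₂))
    (h2 : ∀ ω₁ ω₂, (∀ i, J i → ω₁ i = ω₂ i) → (B ω₁ ↔ B ω₂)) :
    cP p (fun ω => A ω ∧ B ω) = cP p A * cP p B := by
  classical
  rw [cP_def, cP_def, cP_def, ← cE_indep p J]
  · apply cE_congr
    intro ω
    by_cases hA : A ω <;> by_cases hB : B ω <;> simp [hA, hB]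
  · intro ω₁ ω₂ h
    rw [if_congr (h1 ω₁ ω₂ h) rfl rfl]
  · intro ω₁ ω₂ h
    rw [if_congr (h2 ω₁ ω₂ h) rfl rfl]

/-- invariance under permutation of the coordinates -/
theorem cE_perm (p : ℝ) (e : ι ≃ ι) (f : (ι → Bool) → ℝ) :
    cE p (fun ω => f (fun i => ω (e i))) = cE p f := by
  classical
  rw [cE_def, cE_def]
  refine Fintype.sum_equiv (Equiv.arrowCongr e.symm (Equiv.refl Bool)) _ _ ?_
  intro ω
  have h1 : (Equiv.arrowCongr e.symm (Equiv.refl Bool)) ω = fun i => ω (e i) := by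
    funext i
    simp [Equiv.arrowCongr]
  rw [h1]
  congr 1
  unfold cw
  exact (Equiv.prod_comp e (fun i => bw p (ω i))).symm

/-- Jensen for the square -/
theorem cE_sq_le {p : ℝ} (h0 : 0 ≤ p) (h1 : p ≤ 1) (f : (ι → Bool) → ℝ) :
    cE p f ^ 2 ≤ cE p (fun ω => f ω ^ 2) := by
  have h := cE_nonneg h0 h1 (f := fun ω => (f ω - cE p f) ^ 2) (fun ω => sq_nonneg _)
  have h2 : cE p (fun ω => (f ω - cE p f) ^ 2) = cE p (fun ω => f ω ^ 2) - cE p f ^ 2 := by
    have h3 : ∀ ω, (f ω - cE p f) ^ 2 = f ω ^ 2 - (2 * cE p f * f ω - cE p f ^ 2) := by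
      intro ω; ring
    rw [cE_congr p h3, cE_sub, cE_sub, cE_mul_left, cE_const]
    ring
  linarith

theorem cE_abs_le {p : ℝ} (h0 : 0 ≤ p) (h1 : p ≤ 1) (f : (ι → Bool) → ℝ) {η : ℝ} (hη : 0 < η) :
    cE p (fun ω => |f ω|) ≤ η + cE p (fun ω => f ω ^ 2) / η := by
  have h2 : ∀ ω, |f ω| ≤ η + f ω ^ 2 * (1 / η) := by
    intro ω
    rw [mul_one_div]
    by_cases h : |f ω| ≤ η
    · have : 0 ≤ f ω ^ 2 / η := by positivity
      linarith
    · push Not at h
      have h3 : |f ω| ≤ f ω ^ 2 / η := by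
        rw [le_div_iff₀ hη, ← sq_abs]
        nlinarith [abs_nonneg (f ω)]
      linarith
  have h3 := cE_mono h0 h1 h2
  rw [cE_add, cE_const, cE_mul_right, mul_one_div] at h3
  exact h3

theorem abs_cE_le {p : ℝ} (h0 : 0 ≤ p) (h1 : p ≤ 1) (f : (ι → Bool) → ℝ) :
    |cE p f| ≤ cE p (fun ω => |f ω|) := by
  rw [abs_le]
  constructor
  · have h2 := cE_mono h0 h1 (f := fun ω => (-1) * |f ω|) (g := f)
      (fun ω => by have := neg_abs_le (f ω); linarith)
    rw [cE_mul_left] at h2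
    linarith
  · exact cE_mono h0 h1 (fun ω => le_abs_self _)

end Cube

section Option

variable {κ : Type*} [Fintype κ]

theorem cE_option (p : ℝ) (f : (Option κ → Bool) → ℝ) :
    cE p f = p * cE p (fun ω => f (fun o => o.elim true ω)) +
      (1 - p) * cE p (fun ω => f (fun o => o.elim false ω)) := by
  classical
  rw [cE_def, cE_def, cE_def]
  have h1 : ∑ ω : Option κ → Bool, cw p ω * f ω =
      ∑ x : Bool × (κ → Bool), bw p x.1 * (cw p x.2 * f (fun o => o.elim x.1 x.2)) := by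
    refine Fintype.sum_equiv (Equiv.piOptionEquivProd (β := fun _ : Option κ => Bool)) _ _ ?_
    intro ω
    have h2 : (fun o : Option κ => o.elim (ω none) (fun a => ω (some a))) = ω := by
      funext o
      cases o <;> rfl
    show cw p ω * f ω = bw p (ω none) * (cw p (fun a => ω (some a)) *
      f (fun o => o.elim (ω none) (fun a => ω (some a))))
    rw [h2]
    unfold cw
    rw [Fintype.prod_option]
    ring
  rw [h1, Fintype.sum_prod_type]
  simp only [Fintype.sum_bool, bw, if_true, Finset.mul_sum]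
  rfl

end Option

/-- Poincare inequality on the cube. -/
theorem cE_variance {ι : Type*} [Fintype ι] {p : ℝ} (h0 : 0 ≤ p) (h1 : p ≤ 1) (K : ℝ) :
    ∀ f : (ι → Bool) → ℝ,
    (∀ (i : ι) (ω₁ ω₂ : ι → Bool), (∀ j, j ≠ i → ω₁ j = ω₂ j) → |f ω₁ - f ω₂| ≤ K) →
    cE p (fun ω => f ω ^ 2) - cE p f ^ 2 ≤ (Fintype.card ι : ℝ) * (p * (1 - p) * K ^ 2) := by
  refine Fintype.induction_empty_option (P := fun (ι : Type _) _ => ∀ f : (ι → Bool) → ℝ,
    (∀ (i : ι) (ω₁ ω₂ : ι → Bool), (∀ j, j ≠ i → ω₁ j = ω₂ j) → |f ω₁ - f ω₂| ≤ K) →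
    cE p (fun ω => f ω ^ 2) - cE p f ^ 2 ≤ (Fintype.card ι : ℝ) * (p * (1 - p) * K ^ 2))
    ?_ ?_ ?_ ι
  · -- equivalences
    intro α β _ e hα f hf
    letI := Fintype.ofEquiv β e.symm
    have hcard : Fintype.card α = Fintype.card β := Fintype.card_congr e
    have key : ∀ g : (β → Bool) → ℝ, cE p g = cE (ι := α) p (fun ω => g (fun b => ω (e.symm b))) := by
      intro g
      classical
      rw [cE_def, cE_def]
      refine Fintype.sum_equiv (Equiv.arrowCongr e.symm (Equiv.refl Bool)) _ _ ?_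
      intro ω
      have h1 : (Equiv.arrowCongr e.symm (Equiv.refl Bool)) ω = fun i => ω (e i) := by
        funext i
        simp [Equiv.arrowCongr]
      rw [h1]
      have h2 : (fun b => ω (e (e.symm b))) = ω := by
        funext b; simp
      rw [h2]
      congr 1
      unfold cw
      exact (Equiv.prod_comp e (fun i => bw p (ω i))).symm
    have h := hα (fun ω => f (fun b => ω (e.symm b))) (by
      intro i ω₁ ω₂ h
      apply hf (e i)
      intro j hj
      apply h
      intro hji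
      apply hj
      rw [← hji]
      simp)
    rw [key (fun ω => f ω ^ 2), key f, ← hcard]
    exact h
  · intro f _
    have h2 : ∀ g : (PEmpty → Bool) → ℝ, cE p g = g (fun _ => false) := by
      intro g
      have : ∀ ω : PEmpty → Bool, g ω = g (fun _ => false) := by
        intro ω
        congr 1
        funext x
        exact x.elim
      rw [cE_congr p this, cE_const]
    rw [h2, h2]
    simp
  · intro α _ hα f hf
    rw [cE_option p (fun ω => f ω ^ 2), cE_option p f]
    set f1 : (α → Bool) → ℝ := fun ω => f (fun o => o.elim true ω) with hf1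
    set f2 : (α → Bool) → ℝ := fun ω => f (fun o => o.elim false ω) with hf2
    have e1 := hα f1 (by
      intro i ω₁ ω₂ h
      apply hf (some i)
      intro j hj
      cases j with
      | none => rfl
      | some j => exact h j (fun hji => hj (by rw [hji])))
    have e2 := hα f2 (by
      intro i ω₁ ω₂ h
      apply hf (some i)
      intro j hj
      cases j with
      | none => rfl
      | some j => exact h j (fun hji => hj (by rw [hji])))
    have e3 : (cE p f1 - cE p f2) ^ 2 ≤ K ^ 2 := by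
      rw [← cE_sub]
      have h3 : |cE p (fun ω => f1 ω - f2 ω)| ≤ K := by
        refine (abs_cE_le h0 h1 _).trans ?_
        apply cE_le h0 h1
        intro ω
        apply hf none
        intro j hj
        cases j with
        | none => exact absurd rfl hj
        | some j => rfl
      rw [← sq_abs]
      exact pow_le_pow_left₀ (abs_nonneg _) h3 2
    have hp : 0 ≤ p * (1 - p) := mul_nonneg h0 (by linarith)
    rw [Fintype.card_option]
    push_cast
    have e4 := mul_le_mul_of_nonneg_left e1 h0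
    have e5 := mul_le_mul_of_nonneg_left e2 (by linarith : (0:ℝ) ≤ 1 - p)
    have e6 := mul_le_mul_of_nonneg_left e3 hp
    have e7 : p * cE p (fun ω => f1 ω ^ 2) + (1 - p) * cE p (fun ω => f2 ω ^ 2)
        - (p * cE p f1 + (1 - p) * cE p f2) ^ 2
        = p * (cE p (fun ω => f1 ω ^ 2) - cE p f1 ^ 2) +
          (1 - p) * (cE p (fun ω => f2 ω ^ 2) - cE p f2 ^ 2)
          + p * (1 - p) * (cE p f1 - cE p f2) ^ 2 := by ring
    have e8 : p * cE p (fun ω => f (fun o => o.elim true ω) ^ 2) +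
        (1 - p) * cE p (fun ω => f (fun o => o.elim false ω) ^ 2)
        = p * cE p (fun ω => f1 ω ^ 2) + (1 - p) * cE p (fun ω => f2 ω ^ 2) := rfl
    rw [e8, e7]
    nlinarith [e4, e5, e6]

/-- Chebyshev with the Poincare inequality. -/
theorem cP_dev {ι : Type*} [Fintype ι] {p : ℝ} (h0 : 0 ≤ p) (h1 : p ≤ 1) (K : ℝ)
    (f : (ι → Bool) → ℝ)
    (hf : ∀ (i : ι) (ω₁ ω₂ : ι → Bool), (∀ j, j ≠ i → ω₁ j = ω₂ j) → |f ω₁ - f ω₂| ≤ K)
    (t : ℝ) (ht : 0 < t) :
    cP p (fun ω => t ≤ |f ω - cE p f|) ≤ (Fintype.card ι : ℝ) * (p * K ^ 2) / t ^ 2 := by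
  have h2 := cE_variance h0 h1 K f hf
  have h3 : cE p (fun ω => (f ω - cE p f) ^ 2) = cE p (fun ω => f ω ^ 2) - cE p f ^ 2 := by
    have h3 : ∀ ω, (f ω - cE p f) ^ 2 = f ω ^ 2 - (2 * cE p f * f ω - cE p f ^ 2) := by
      intro ω; ring
    rw [cE_congr p h3, cE_sub, cE_sub, cE_mul_left, cE_const]
    ring
  have h4 : cP p (fun ω => t ≤ |f ω - cE p f|) ≤ cP p (fun ω => t ^ 2 ≤ (f ω - cE p f) ^ 2) := by
    apply cP_mono h0 h1
    intro ω h
    rw [← sq_abs (f ω - cE p f)]
    exact pow_le_pow_left₀ ht.le h 2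
  refine h4.trans ((cP_markov h0 h1 _ (fun ω => sq_nonneg _) (t ^ 2) (by positivity)).trans ?_)
  rw [h3]
  apply div_le_div_of_nonneg_right _ (by positivity)
  refine h2.trans ?_
  apply mul_le_mul_of_nonneg_left _ (by positivity)
  nlinarith [mul_nonneg h0 (sq_nonneg K), mul_nonneg (mul_nonneg h0 h0) (sq_nonneg K)]

end Pool.Agent.H88.PM
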