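import Pool.Agent.H88.PM.Calc

set_option autoImplicit false

/-!
The integral of the limiting increments.
-/

namespace Pool.Agent.H88.PM

open Finset Filter Topology MeasureTheory

theorem xs_cont (k : ℕ) : Continuous (xs k) := by
  induction k with
  | zero => exact continuous_const
  | succ k ih =>
    have h : xs (k + 1) = fun s => Real.exp (-(s * xs k s)) := rfl
    rw [h]
    exact Real.continuous_exp.comp ((continuous_id.mul ih).neg)

theorem Pl_meas : Measurable Pl := by
  have h : Pl = fun s => ⨅ i, xs (2 * i) s := rfl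
  rw [h]
  exact Measurable.iInf (fun i => (xs_cont (2 * i)).measurable)

theorem ql_meas : Measurable ql := by
  have h : ql = fun s => ⨆ i, xs (2 * i + 1) s := rfl
  rw [h]
  exact Measurable.iSup (fun i => (xs_cont (2 * i + 1)).measurable)

theorem int_of_bdd {f : ℝ → ℝ} (hf : Measurable f) {a b : ℝ} (ha : 0 ≤ a) (hab : a ≤ b) (K : ℝ)
    (hK : ∀ x, 0 ≤ x → |f x| ≤ K) :
    IntervalIntegrable f volume a b := by
  rw [intervalIntegrable_iff_integrableOn_Ioc_of_le hab]
  apply Measure.integrableOn_of_bounded (M := K)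
  · simp
  · exact hf.aestronglyMeasurable
  · rw [ae_restrict_iff' measurableSet_Ioc]
    filter_upwards with x hx
    rw [Real.norm_eq_abs]
    exact hK x (ha.trans hx.1.le)

theorem abs_Pl_le {s : ℝ} (hs : 0 ≤ s) : |Pl s| ≤ 1 := by
  rw [abs_of_pos (Pl_pos hs)]; exact Pl_le_one s

theorem abs_ql_le {s : ℝ} (hs : 0 ≤ s) : |ql s| ≤ 1 := by
  rw [abs_of_pos (ql_pos hs)]; exact ql_le_one hs

theorem Pl_int {a b : ℝ} (ha : 0 ≤ a) (hab : a ≤ b) : IntervalIntegrable Pl volume a b :=
  int_of_bdd Pl_meas ha hab 1 (fun _ hx => abs_Pl_le hx)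

theorem ql_int {a b : ℝ} (ha : 0 ≤ a) (hab : a ≤ b) : IntervalIntegrable ql volume a b :=
  int_of_bdd ql_meas ha hab 1 (fun _ hx => abs_ql_le hx)

theorem FF_nonneg {s : ℝ} (hs : 0 ≤ s) : 0 ≤ FF s := by
  have h := psi_le hs (x := 0) le_rfl zero_le_one
  unfold psi at h
  simpa using h

theorem FF_le_one {s : ℝ} (hs : 0 ≤ s) : FF s ≤ 1 := by
  have h := FF_anti le_rfl hs
  rwa [FF_zero] at h

theorem G_step {t h : ℝ} (ht : 0 ≤ t) (hh : 0 ≤ h) :
    h * (Pl t + ql t - 1) ≤ (t + h) * FF (t + h) - t * FF t + h ^ 2 := by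
  have h1 := FF_step ht hh
  have h2 : (t + h) * (FF t - h * (Pl t * ql t)) ≤ (t + h) * FF (t + h) :=
    mul_le_mul_of_nonneg_left h1 (by linarith)
  have h3 : FF t = Pl t + ql t + t * Pl t * ql t - 1 := rfl
  have h4 : Pl t * ql t ≤ 1 := by
    have := mul_le_mul (Pl_le_one t) (ql_le_one ht) (ql_pos ht).le zero_le_one
    linarith
  have h5 : h ^ 2 * (Pl t * ql t) ≤ h ^ 2 * 1 := mul_le_mul_of_nonneg_left h4 (sq_nonneg h)
  have h6 : (t + h) * (FF t - h * (Pl t * ql t)) - t * FF t =
    h * (Pl t + ql t - 1) - h ^ 2 * (Pl t * ql t) := by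
    rw [h3]; ring
  linarith

theorem G_cont {c : ℝ} : ContinuousOn (fun t => t * FF t) (Set.Icc 0 c) :=
  continuousOn_id.mul (FF_cont c)

/-- the integral of the limiting increments is at most `s * FF s` -/
theorem int_le {s : ℝ} (hs : 0 ≤ s) : ∫ t in (0:ℝ)..s, (Pl t + ql t - 1) ≤ s * FF s := by
  apply le_of_forall_pos_le_add
  intro ε hε
  set h : ℝ := min 1 (ε / (1 + s)) with hh
  have h0 : 0 < h := lt_min one_pos (by positivity)
  have h1 : h * (1 + s) ≤ ε := by
    have : h ≤ ε / (1 + s) := min_le_right _ _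
    rwa [le_div_iff₀ (by linarith)] at this
  have hint1 : IntervalIntegrable (fun t => Pl t + ql t - 1) volume 0 s :=
    ((Pl_int le_rfl hs).add (ql_int le_rfl hs)).sub intervalIntegrable_const
  have hG : ∀ a b : ℝ, 0 ≤ a → a ≤ b → IntervalIntegrable (fun t => t * FF t) volume a b := by
    intro a b ha hab
    apply ContinuousOn.intervalIntegrable_of_Icc hab
    exact (G_cont (c := b)).mono (Set.Icc_subset_Icc ha le_rfl)
  have hint2 : IntervalIntegrable (fun t => (t + h) * FF (t + h)) volume 0 s := by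
    have := (hG (0 + h) (s + h) (by linarith) (by linarith)).comp_add_right h
    simpa using this
  have e1 : ∫ t in (0:ℝ)..s, h * (Pl t + ql t - 1) ≤
      ∫ t in (0:ℝ)..s, ((t + h) * FF (t + h) - t * FF t + h ^ 2) := by
    apply intervalIntegral.integral_mono_on hs (hint1.const_mul h)
      ((hint2.sub (hG 0 s le_rfl hs)).add intervalIntegrable_const)
    intro t ht
    exact G_step ht.1 h0.le
  rw [intervalIntegral.integral_const_mul, intervalIntegral.integral_add
    (hint2.sub (hG 0 s le_rfl hs)) intervalIntegrable_const,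
    intervalIntegral.integral_sub hint2 (hG 0 s le_rfl hs), intervalIntegral.integral_const] at e1
  have e2 : ∫ t in (0:ℝ)..s, (t + h) * FF (t + h) = ∫ t in (0 + h)..(s + h), t * FF t :=
    intervalIntegral.integral_comp_add_right (fun t => t * FF t) h
  rw [e2] at e1
  have e3 : ∫ t in (0 + h)..(s + h), t * FF t = (∫ t in (0:ℝ)..s, t * FF t) +
      (∫ t in s..(s + h), t * FF t) - ∫ t in (0:ℝ)..h, t * FF t := by
    have g1 := intervalIntegral.integral_add_adjacent_intervals (hG 0 s le_rfl hs)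
      (hG s (s + h) hs (by linarith))
    have g2 := intervalIntegral.integral_add_adjacent_intervals (hG 0 h le_rfl h0.le)
      (hG h (s + h) h0.le (by linarith))
    rw [zero_add]
    linarith
  have e4 : 0 ≤ ∫ t in (0:ℝ)..h, t * FF t := by
    apply intervalIntegral.integral_nonneg h0.le
    intro t ht
    exact mul_nonneg ht.1 (FF_nonneg ht.1)
  have e5 : ∫ t in s..(s + h), t * FF t ≤ ∫ t in s..(s + h), (s * FF s + h) := by
    apply intervalIntegral.integral_mono_on (by linarith) (hG s (s + h) hs (by linarith))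
      intervalIntegrable_const
    intro t ht
    have ht0 : 0 ≤ t := hs.trans ht.1
    have g1 := FF_anti hs ht.1
    have g2 := FF_le_one hs
    have g3 := FF_nonneg hs
    calc t * FF t ≤ t * FF s := mul_le_mul_of_nonneg_left g1 ht0
      _ = s * FF s + (t - s) * FF s := by ring
      _ ≤ s * FF s + (t - s) * 1 := by
          have := mul_le_mul_of_nonneg_left g2 (by linarith [ht.1] : 0 ≤ t - s)
          linarith
      _ ≤ s * FF s + h := by linarith [ht.2]
  rw [intervalIntegral.integral_const] at e5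
  simp only [smul_eq_mul] at e1 e5
  have e6 : h * ∫ t in (0:ℝ)..s, (Pl t + ql t - 1) ≤ h * (s * FF s + ε) := by
    have g1 : (s + h - s) * (s * FF s + h) = h * (s * FF s + h) := by ring
    rw [g1] at e5
    have g2 : (s - 0) * h ^ 2 = h * (h * s) := by ring
    rw [g2] at e1
    have g3 : h * (s * FF s + h) + h * (h * s) = h * (s * FF s + h * (1 + s)) := by ring
    have g4 : h * (s * FF s + h * (1 + s)) ≤ h * (s * FF s + ε) :=
      mul_le_mul_of_nonneg_left (by linarith) h0.le
    linarith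
  exact le_of_mul_le_mul_left e6 h0

/-- uniform comparison with the truncated increments -/
theorem int_trunc {c : ℝ} (hc : 0 ≤ c) {ε : ℝ} (hε : 0 < ε) : ∃ i : ℕ, ∀ s : ℝ, 0 ≤ s → s ≤ c →
    ∫ t in (0:ℝ)..s, (xs (2 * i + 2) t + xs (2 * i + 3) t - 1) ≤ s * FF s + ε := by
  have h1 : Tendsto (fun i : ℕ => ∫ t in (0:ℝ)..c, (xs (2 * i) t - Pl t)) atTop
      (𝓝 (∫ t in (0:ℝ)..c, (0:ℝ))) := by
    apply intervalIntegral.tendsto_integral_filter_of_dominated_convergence (fun _ => (1:ℝ))
    · filter_upwards with i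
      exact ((xs_cont (2 * i)).measurable.sub Pl_meas).aestronglyMeasurable
    · filter_upwards with i
      filter_upwards with t ht
      rw [Set.uIoc_of_le hc] at ht
      have ht0 : 0 ≤ t := ht.1.le
      have g1 := Pl_le (s := t) i
      have g2 := xs_le_one (2 * i) ht0
      have g3 := Pl_pos ht0
      rw [Real.norm_eq_abs, abs_of_nonneg (by linarith)]
      linarith
    · exact intervalIntegrable_const
    · filter_upwards with t ht
      rw [Set.uIoc_of_le hc] at ht
      have := (tendsto_Pl ht.1.le).sub_const (Pl t)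
      simpa using this
  rw [intervalIntegral.integral_zero] at h1
  obtain ⟨N, hN⟩ := Metric.tendsto_atTop.mp h1 ε hε
  refine ⟨N, ?_⟩
  intro s hs0 hsc
  have h2 := hN (N + 1) (Nat.le_succ N)
  rw [Real.dist_eq, sub_zero] at h2
  have h3 : ∫ t in (0:ℝ)..c, (xs (2 * (N + 1)) t - Pl t) < ε := lt_of_le_of_lt (le_abs_self _) h2
  have hx : ∀ k a b, IntervalIntegrable (xs k) volume a b := fun k a b =>
    (xs_cont k).intervalIntegrable a b
  have h4 : ∫ t in (0:ℝ)..s, (xs (2 * N + 2) t + xs (2 * N + 3) t - 1) ≤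
      ∫ t in (0:ℝ)..s, ((Pl t + ql t - 1) + (xs (2 * (N + 1)) t - Pl t)) := by
    apply intervalIntegral.integral_mono_on hs0
    · exact ((hx _ _ _).add (hx _ _ _)).sub intervalIntegrable_const
    · exact (((Pl_int le_rfl hs0).add (ql_int le_rfl hs0)).sub intervalIntegrable_const).add
        ((hx _ _ _).sub (Pl_int le_rfl hs0))
    · intro t ht
      have g1 := le_ql ht.1 (N + 1)
      have g2 : xs (2 * (N + 1) + 1) t = xs (2 * N + 3) t := rfl
      have g3 : xs (2 * (N + 1)) t = xs (2 * N + 2) t := rfl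
      rw [g2] at g1
      rw [g3]
      linarith
  rw [intervalIntegral.integral_add (((Pl_int le_rfl hs0).add (ql_int le_rfl hs0)).sub
    intervalIntegrable_const) ((hx _ _ _).sub (Pl_int le_rfl hs0))] at h4
  have h5 : ∫ t in (0:ℝ)..s, (xs (2 * (N + 1)) t - Pl t) ≤
      ∫ t in (0:ℝ)..c, (xs (2 * (N + 1)) t - Pl t) := by
    have g1 := intervalIntegral.integral_add_adjacent_intervals
      ((hx (2 * (N + 1)) 0 s).sub (Pl_int le_rfl hs0))
      ((hx (2 * (N + 1)) s c).sub (Pl_int hs0 hsc))
    have g2 : 0 ≤ ∫ t in s..c, (xs (2 * (N + 1)) t - Pl t) := by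
      apply intervalIntegral.integral_nonneg hsc
      intro t _
      have := Pl_le (s := t) (N + 1)
      linarith
    linarith
  have h6 := int_le hs0
  linarith

/-- Riemann sums -/
theorem riemann {c L : ℝ} (f : ℝ → ℝ) (hf : Continuous f) (hL : 0 ≤ L)
    (hlip : ∀ x y : ℝ, 0 ≤ x → x ≤ c → 0 ≤ y → y ≤ c → |f x - f y| ≤ L * |x - y|)
    (p : ℝ) (hp : 0 ≤ p) (M : ℕ) (hM : p * M ≤ c) :
    p * ∑ m ∈ range M, f (p * m) ≤ (∫ t in (0:ℝ)..(p * M), f t) + L * p * c := by
  have h1 := intervalIntegral.sum_integral_adjacent_intervals (f := f) (μ := volume)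
    (a := fun k : ℕ => p * (k : ℝ)) (n := M)
    (fun k _ => hf.intervalIntegrable _ _)
  simp only [Nat.cast_zero, mul_zero] at h1
  have h2 : ∀ m ∈ range M, p * f (p * m) ≤
      (∫ t in (p * (m : ℝ))..(p * ((m + 1 : ℕ) : ℝ)), f t) + L * p * p := by
    intro m hm
    have hm2 : m + 1 ≤ M := Finset.mem_range.mp hm
    have hmM : p * ((m + 1 : ℕ) : ℝ) ≤ c := by
      refine le_trans ?_ hM
      apply mul_le_mul_of_nonneg_left _ hp
      exact_mod_cast hm2
    have hle : p * (m : ℝ) ≤ p * ((m + 1 : ℕ) : ℝ) := by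
      push_cast
      nlinarith
    have hm0 : 0 ≤ p * (m : ℝ) := by positivity
    have h3 : ∫ t in (p * (m : ℝ))..(p * ((m + 1 : ℕ) : ℝ)), (f (p * m) - L * p) ≤
        ∫ t in (p * (m : ℝ))..(p * ((m + 1 : ℕ) : ℝ)), f t := by
      apply intervalIntegral.integral_mono_on hle intervalIntegrable_const
        (hf.intervalIntegrable _ _)
      intro t ht
      have h4 := hlip (p * m) t hm0 (hle.trans hmM) (hm0.trans ht.1) (ht.2.trans hmM)
      have h5 : |p * (m : ℝ) - t| ≤ p := by
        rw [abs_sub_comm, abs_of_nonneg (by linarith [ht.1])]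
        have := ht.2
        push_cast at this
        linarith
      have h6 := mul_le_mul_of_nonneg_left h5 hL
      have h7 := (le_abs_self _).trans h4
      linarith
    rw [intervalIntegral.integral_const] at h3
    have h8 : p * ((m + 1 : ℕ) : ℝ) - p * (m : ℝ) = p := by push_cast; ring
    rw [h8, smul_eq_mul] at h3
    linarith
  rw [Finset.mul_sum]
  refine (Finset.sum_le_sum h2).trans ?_
  rw [Finset.sum_add_distrib, h1, Finset.sum_const, nsmul_eq_mul, Finset.card_range]
  have h9 : (M : ℝ) * (L * p * p) = L * p * (p * M) := by ring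
  rw [h9]
  have := mul_le_mul_of_nonneg_left hM (by positivity : 0 ≤ L * p)
  linarith

end Pool.Agent.H88.PM
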