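import Pool.Agent.H88.PM.Lower
import Pool.Agent.H88.PM.Integral

set_option autoImplicit false

/-!
Upper bound for the expected deficiency.
-/

namespace Pool.Agent.H88.PM

open Finset

section Relabel

variable {V : Type*} [Fintype V] [DecidableEq V]

/-- the map induced on pairs -/
def sym2Perm (σ : V ≃ V) : Sym2 V ≃ Sym2 V where
  toFun := Sym2.map σ
  invFun := Sym2.map σ.symm
  left_inv e := by
    rw [Sym2.map_map]
    simp
  right_inv e := by
    rw [Sym2.map_map]
    simp

/-- expectation of `(1 - p) ^ |DD|` -/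
noncomputable def yy (p : ℝ) (B : Finset V) : ℝ :=
  cE p (fun ω : Sym2 V → Bool => (1 - p) ^ (DD (gr ω) B).card)

theorem yy_map (p : ℝ) (σ : V ≃ V) (B : Finset V) : yy p (B.map σ.toEmbedding) = yy p B := by
  unfold yy
  rw [← cE_perm p (sym2Perm σ) (fun ω : Sym2 V → Bool => (1 - p) ^ (DD (gr ω) B).card)]
  apply cE_congr
  intro ω
  have hadj : ∀ x y, (gr (fun i => ω (sym2Perm σ i))).Adj x y ↔ (gr ω).Adj (σ x) (σ y) := by
    intro x y
    rw [gr_adj, gr_adj]
    have : sym2Perm σ s(x, y) = s(σ x, σ y) := rfl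
    rw [this]
    simp
  have h : DD (gr ω) (B.map σ.toEmbedding) =
      (DD (gr (fun i => ω (sym2Perm σ i))) B).map σ.toEmbedding := by
    ext x
    obtain ⟨y, rfl⟩ := σ.surjective x
    rw [mem_DD, Finset.mem_map_equiv, Finset.mem_map_equiv, mem_DD, Dv_relabel σ hadj]
    simp
  rw [h, Finset.card_map]

theorem yy_card (p : ℝ) {B B' : Finset V} (h : B.card = B'.card) : yy p B = yy p B' := by
  have e : {x // x ∈ B} ≃ {x // x ∈ B'} := Finset.equivOfCardEq h
  set σ : V ≃ V := Equiv.extendSubtype e with hσ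
  have h2 : B.map σ.toEmbedding = B' := by
    apply Finset.eq_of_subset_of_card_le
    · intro x hx
      rw [Finset.mem_map] at hx
      obtain ⟨y, hy, rfl⟩ := hx
      exact Equiv.extendSubtype_mem e y hy
    · rw [Finset.card_map, h]
  rw [← h2, yy_map]

theorem yy_le_one {p : ℝ} (h0 : 0 ≤ p) (h1 : p ≤ 1) (B : Finset V) : yy p B ≤ 1 :=
  cE_le h0 h1 (fun ω => pow_le_one₀ (by linarith) (by linarith))

theorem yy_nonneg {p : ℝ} (h0 : 0 ≤ p) (h1 : p ≤ 1) (B : Finset V) : 0 ≤ yy p B :=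
  cE_nonneg h0 h1 (fun ω => pow_nonneg (by linarith) _)

/-- the expected size of `DD` -/
theorem cE_DD (p : ℝ) (B : Finset V) :
    cE p (fun ω : Sym2 V → Bool => ((DD (gr ω) B).card : ℝ)) = ∑ v ∈ B, yy p (B.erase v) := by
  rw [cE_congr p (fun ω => card_DD (gr ω) B), cE_sum]
  apply Finset.sum_congr rfl
  intro v hv
  rw [← cP_eq, cP_Dv p B v hv]
  rfl

/-- the increments of the deficiency -/
theorem cE_dfc_step (p : ℝ) (B : Finset V) (v : V) (hv : v ∈ B) :
    cE p (fun ω : Sym2 V → Bool => (dfc (gr ω) B : ℝ)) =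
      cE p (fun ω : Sym2 V → Bool => (dfc (gr ω) (B.erase v) : ℝ)) +
        (2 * yy p (B.erase v) - 1) := by
  have h : ∀ ω : Sym2 V → Bool, (dfc (gr ω) B : ℝ) =
      (dfc (gr ω) (B.erase v) : ℝ) + (2 * ind (Dv (gr ω) B v) - 1) := by
    intro ω
    by_cases hD : Dv (gr ω) B v
    · rw [ind_pos hD]
      unfold Dv at hD
      rw [hD]
      push_cast
      ring
    · rw [ind_neg hD]
      have := not_Dv hv hD
      rw [← this]
      push_cast
      ring
  rw [cE_congr p h, cE_add, cE_sub, cE_const, cE_mul_left, ← cP_eq, cP_Dv p B v hv]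
  rfl

end Relabel

/-- chord inequality -/
theorem chord {s : ℝ} (hs : 0 ≤ s) (i : ℕ) {x : ℝ} (hx1 : xs (2 * i + 1) s ≤ x)
    (hx2 : x ≤ xs (2 * i + 2) s) :
    Real.exp (-(s * x)) ≤ xs (2 * i + 2) s + xs (2 * i + 3) s - x := by
  set a := xs (2 * i + 1) s with ha
  set b := xs (2 * i + 2) s with hb
  have h3 : xs (2 * i + 3) s = Real.exp (-(s * b)) := rfl
  have h2 : b = Real.exp (-(s * a)) := rfl
  have h4 : a ≤ xs (2 * i + 3) s := (xs_steps hs i).2.1
  rcases (hx1.trans hx2).eq_or_lt with hab | hab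
  · have hxa : x = a := le_antisymm (hab ▸ hx2) hx1
    rw [hxa, ← h2]
    linarith
  · have hd : b - a ≠ 0 := by linarith
    have hb1 : 0 ≤ (b - x) / (b - a) := div_nonneg (by linarith) (by linarith)
    have hb2 : 0 ≤ (x - a) / (b - a) := div_nonneg (by linarith) (by linarith)
    have hb3 : (b - x) / (b - a) + (x - a) / (b - a) = 1 := by
      rw [← add_div]
      have : b - x + (x - a) = b - a := by ring
      rw [this, div_self hd]
    have h5 := convexOn_exp.2 (Set.mem_univ (-(s * a))) (Set.mem_univ (-(s * b))) hb1 hb2 hb3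
    simp only [smul_eq_mul] at h5
    have h6 : (b - x) / (b - a) * (-(s * a)) + (x - a) / (b - a) * (-(s * b)) = -(s * x) := by
      field_simp
      ring
    rw [h6, ← h2, ← h3] at h5
    refine h5.trans ?_
    set θ := (x - a) / (b - a) with hθ
    have h7 : (b - x) / (b - a) = 1 - θ := by linarith
    have h8 : x = (1 - θ) * a + θ * b := by
      rw [hθ]
      field_simp
      ring
    rw [h7] at hb1 ⊢
    have h9 : b + xs (2 * i + 3) s - x = (1 - θ) * b + θ * xs (2 * i + 3) s +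
      (1 - θ) * (xs (2 * i + 3) s - a) := by
      rw [h8]; ring
    rw [h9]
    have := mul_nonneg hb1 (by linarith : 0 ≤ xs (2 * i + 3) s - a)
    linarith

theorem chord_err {s : ℝ} (hs : 0 ≤ s) (i : ℕ) {x A B : ℝ} (hA : A ≤ x) (hB : x ≤ B)
    (hx : 0 ≤ x) :
    Real.exp (-(s * x)) ≤ xs (2 * i + 2) s + xs (2 * i + 3) s - x +
      (1 + s) * (|A - xs (2 * i + 1) s| + |B - xs (2 * i + 2) s|) := by
  set a := xs (2 * i + 1) s with ha
  set b := xs (2 * i + 2) s with hb
  have hab : a ≤ b := by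
    have := xs_odd_le_even hs i (i + 1)
    exact this
  have ha0 : 0 ≤ a := (xs_pos _ _).le
  have h1 := neg_abs_le (A - a)
  have h2 := le_abs_self (A - a)
  have h3 := le_abs_self (B - b)
  have h4 := neg_abs_le (B - b)
  have n1 := abs_nonneg (A - a)
  have n2 := abs_nonneg (B - b)
  -- the clamp
  obtain ⟨z, hz1, hz2, hz3⟩ : ∃ z, a ≤ z ∧ z ≤ b ∧ |x - z| ≤ |A - a| + |B - b| := by
    rcases le_total x a with h5 | h5
    · refine ⟨a, le_rfl, hab, ?_⟩
      rw [abs_of_nonpos (by linarith)]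
      linarith
    · rcases le_total b x with h6 | h6
      · refine ⟨b, hab, le_rfl, ?_⟩
        rw [abs_of_nonneg (by linarith)]
        linarith
      · refine ⟨x, h5, h6, ?_⟩
        simp only [sub_self, abs_zero]
        linarith
  have h5 := chord hs i hz1 hz2
  have hz0 : 0 ≤ z := ha0.trans hz1
  have h6 := (le_abs_self _).trans (abs_exp_neg_sub (mul_nonneg hs hx) (mul_nonneg hs hz0))
  rw [← mul_sub, abs_mul, abs_of_nonneg hs] at h6
  have h7 := mul_le_mul_of_nonneg_left hz3 hs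
  have h8 := le_abs_self (x - z)
  nlinarith

/-- the key inequality for the sum of two consecutive values -/
theorem yy_pair {c : ℝ} (hc : 0 ≤ c) (i : ℕ) : ∃ C : ℝ, 0 ≤ C ∧
    ∀ (V : Type) [Fintype V] [DecidableEq V] (B : Finset V) (p : ℝ) (v : V), 0 ≤ p → p ≤ 1 →
      p * B.card ≤ c → v ∈ B →
      yy p B + yy p (B.erase v) ≤ xs (2 * i + 2) (p * B.card) + xs (2 * i + 3) (p * B.card) +
        C / Real.sqrt B.card := by
  obtain ⟨C1, hC1, h1⟩ := conc1 hc (2 * i + 1)
  obtain ⟨C2, hC2, h2⟩ := conc1 hc (2 * i + 2)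
  refine ⟨(1 + c) * (C1 + C2), by positivity, ?_⟩
  intro V _ _ B p v h0 hp1 hB hv
  have hcard : 0 < B.card := Finset.card_pos.mpr ⟨v, hv⟩
  set m : ℝ := (B.card : ℝ) with hm
  have hm0 : 0 < m := by rw [hm]; exact_mod_cast hcard
  set s : ℝ := p * m with hs
  have hs0 : 0 ≤ s := by positivity
  -- pointwise
  have e1 : ∀ ω : Sym2 V → Bool, (1 - p) ^ (DD (gr ω) B).card + (DD (gr ω) B).card * (1 / m) ≤
      xs (2 * i + 2) s + xs (2 * i + 3) s + (1 + s) * (1 / m) *
        (|((Tk (gr ω) (2 * i + 1) B).card : ℝ) - m * xs (2 * i + 1) s| +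
         |((Tk (gr ω) (2 * i + 2) B).card : ℝ) - m * xs (2 * i + 2) s|) := by
    intro ω
    have f1 : (1 - p) ^ (DD (gr ω) B).card ≤ Real.exp (-(s * ((DD (gr ω) B).card / m))) := by
      have g1 : -(s * (((DD (gr ω) B).card : ℝ) / m)) = ((DD (gr ω) B).card : ℝ) * (-p) := by
        rw [hs]; field_simp
      rw [g1, Real.exp_nat_mul]
      apply pow_le_pow_left₀ (by linarith)
      have := Real.add_one_le_exp (-p)
      linarith
    have f2 : ((Tk (gr ω) (2 * i + 1) B).card : ℝ) / m ≤ (DD (gr ω) B).card / m := by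
      apply div_le_div_of_nonneg_right _ hm0.le
      have : (Tk (gr ω) (2 * i + 1) B).card ≤ (DD (gr ω) B).card := by
        apply Finset.card_le_card
        intro x hx
        rw [mem_Tk] at hx
        rw [mem_DD]
        exact ⟨hx.1, (tr_sandwich (gr ω) i).2 B x hx.1 hx.2⟩
      exact_mod_cast this
    have f3 : ((DD (gr ω) B).card : ℝ) / m ≤ (Tk (gr ω) (2 * i + 2) B).card / m := by
      apply div_le_div_of_nonneg_right _ hm0.le
      have : (DD (gr ω) B).card ≤ (Tk (gr ω) (2 * i + 2) B).card := by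
        apply Finset.card_le_card
        intro x hx
        rw [mem_DD] at hx
        rw [mem_Tk]
        exact ⟨hx.1, (tr_sandwich (gr ω) (i + 1)).1 B x hx.1 hx.2⟩
      exact_mod_cast this
    have f4 := chord_err hs0 i f2 f3 (by positivity)
    have f5 : ∀ (a b : ℝ), |a / m - b| = (1 / m) * |a - m * b| := by
      intro a b
      rw [← abs_of_pos (by positivity : 0 < 1 / m), ← abs_mul]
      congr 1
      field_simp
    rw [f5, f5] at f4
    have f6 : ((DD (gr ω) B).card : ℝ) / m = (DD (gr ω) B).card * (1 / m) := by ring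
    rw [f6] at f4 f1
    have f7 := f1.trans f4
    linarith
  have e2 := cE_mono h0 hp1 e1
  rw [cE_add, cE_add, cE_const, cE_mul_left, cE_add, cE_mul_right, cE_DD] at e2
  have e3 : ∑ u ∈ B, yy p (B.erase u) = m * yy p (B.erase v) := by
    have : ∀ u ∈ B, yy p (B.erase u) = yy p (B.erase v) := by
      intro u hu
      apply yy_card
      rw [Finset.card_erase_of_mem hu, Finset.card_erase_of_mem hv]
    rw [Finset.sum_congr rfl this, Finset.sum_const, nsmul_eq_mul]
  rw [e3] at e2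
  have e4 : m * yy p (B.erase v) * (1 / m) = yy p (B.erase v) := by field_simp
  rw [e4] at e2
  have e5 := h1 V B p h0 hp1 hB
  have e6 := h2 V B p h0 hp1 hB
  have e7 : (1 + s) * (1 / m) * (cE p (fun ω : Sym2 V → Bool =>
        |((Tk (gr ω) (2 * i + 1) B).card : ℝ) - m * xs (2 * i + 1) s|) +
        cE p (fun ω : Sym2 V → Bool =>
         |((Tk (gr ω) (2 * i + 2) B).card : ℝ) - m * xs (2 * i + 2) s|)) ≤
      (1 + c) * (C1 + C2) / Real.sqrt m := by
    have g1 : (1 + s) * (1 / m) ≤ (1 + c) * (1 / m) :=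
      mul_le_mul_of_nonneg_right (by linarith) (by positivity)
    have g2 : (1 + c) * (C1 + C2) / Real.sqrt m = (1 + c) * (1 / m) *
        (C1 * Real.sqrt m + C2 * Real.sqrt m) := by
      have g3 : Real.sqrt m * Real.sqrt m = m := Real.mul_self_sqrt hm0.le
      have g4 : 0 < Real.sqrt m := Real.sqrt_pos.mpr hm0
      field_simp
      nlinarith
    rw [g2]
    apply mul_le_mul g1 (add_le_add e5 e6)
    · apply add_nonneg
      · exact cE_nonneg h0 hp1 (fun ω => abs_nonneg _)
      · exact cE_nonneg h0 hp1 (fun ω => abs_nonneg _)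
    · positivity
  have e8 : yy p B = cE p (fun ω : Sym2 V → Bool => (1 - p) ^ (DD (gr ω) B).card) := rfl
  rw [e8]
  linarith

theorem xs_at_zero (k : ℕ) : xs k 0 = 1 := by
  cases k with
  | zero => rfl
  | succ k => rw [xs_succ]; simp

/-- summation over a chain -/
theorem chain {c : ℝ} (hc : 0 ≤ c) (i : ℕ) : ∃ C : ℝ, 0 ≤ C ∧
    ∀ (V : Type) [Fintype V] [DecidableEq V] (p : ℝ), 0 ≤ p → p ≤ 1 → ∀ M : ℕ,
      ∀ (B : Finset V) (v : V), B.card = M + 1 → v ∈ B → p * B.card ≤ c →
      cE p (fun ω : Sym2 V → Bool => (dfc (gr ω) B : ℝ)) ≤ yy p (B.erase v) +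
        ∑ m ∈ range (M + 1), (xs (2 * i + 2) (p * m) + xs (2 * i + 3) (p * m) - 1) +
        2 * C * Real.sqrt M := by
  obtain ⟨C, hC, hpair⟩ := yy_pair hc i
  refine ⟨C, hC, ?_⟩
  intro V _ _ p h0 h1 M
  induction M with
  | zero =>
    intro B v hB hv _
    have e1 : ∀ ω : Sym2 V → Bool, (dfc (gr ω) B : ℝ) ≤ 1 := by
      intro ω
      have := (dfc_parity (gr ω) B).2
      rw [hB] at this
      exact_mod_cast this
    have e2 := cE_le h0 h1 e1
    have e3 := yy_nonneg h0 h1 (B.erase v)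
    simp only [zero_add, Finset.range_one, Finset.sum_singleton, Nat.cast_zero, mul_zero,
      xs_at_zero, Real.sqrt_zero]
    linarith
  | succ M ih =>
    intro B v hB hv hpB
    have hBe : (B.erase v).card = M + 1 := by rw [Finset.card_erase_of_mem hv, hB]; rfl
    obtain ⟨u, hu⟩ : (B.erase v).Nonempty := Finset.card_pos.mp (by omega)
    have hpBe : p * ((B.erase v).card : ℝ) ≤ c := by
      refine le_trans ?_ hpB
      apply mul_le_mul_of_nonneg_left _ h0
      exact_mod_cast Finset.card_le_card (Finset.erase_subset _ _)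
    have e1 := ih (B.erase v) u hBe hu hpBe
    have e2 := cE_dfc_step p B v hv
    have e3 := hpair V (B.erase v) p u h0 h1 hpBe hu
    rw [Finset.sum_range_succ, e2]
    rw [hBe] at e3
    have e4 : C / Real.sqrt ((M + 1 : ℕ) : ℝ) ≤
        2 * C * Real.sqrt ((M + 1 : ℕ) : ℝ) - 2 * C * Real.sqrt (M : ℝ) := by
      set a := Real.sqrt ((M + 1 : ℕ) : ℝ) with ha
      set b := Real.sqrt (M : ℝ) with hb
      have hapos : 0 < a := Real.sqrt_pos.mpr (by positivity)
      have hb0 : 0 ≤ b := Real.sqrt_nonneg _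
      have haa : a * a = M + 1 := by
        rw [ha, Real.mul_self_sqrt (by positivity)]; push_cast; ring
      have hbb : b * b = M := by rw [hb, Real.mul_self_sqrt (by positivity)]
      have hba : b ≤ a := by
        apply Real.sqrt_le_sqrt
        push_cast
        linarith
      rw [div_le_iff₀ hapos]
      have h5 : (2 * C * a - 2 * C * b) * a = C * (2 * (a * a) - 2 * (a * b)) := by ring
      rw [h5]
      have h6 : 1 ≤ 2 * (a * a) - 2 * (a * b) := by nlinarith [sq_nonneg (a - b)]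
      nlinarith
    linarith

/-- **Upper bound for the expected deficiency.** -/
theorem upper {c c₁ η : ℝ} (hc₁ : 0 < c₁) (hcc : c₁ ≤ c) (hη : 0 < η) : ∃ M₀ : ℕ,
    ∀ (V : Type) [Fintype V] [DecidableEq V] (B : Finset V) (p : ℝ), 0 ≤ p → p ≤ 1 →
      p * B.card ≤ c → c₁ ≤ p * B.card → M₀ ≤ B.card →
      cE p (fun ω : Sym2 V → Bool => (dfc (gr ω) B : ℝ)) ≤ B.card * (FF (p * B.card) + η) := by
  have hc : 0 ≤ c := hc₁.le.trans hcc
  obtain ⟨i, hi⟩ := int_trunc hc (by positivity : 0 < c₁ * (η / 2))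
  obtain ⟨C, hC, hchain⟩ := chain hc i
  obtain ⟨L1, hL1, hlip1⟩ := xs_succ_lip hc (2 * i + 2)
  obtain ⟨L2, hL2, hlip2⟩ := xs_succ_lip hc (2 * i + 3)
  -- choose `M₀`
  obtain ⟨N, hN⟩ := exists_nat_gt ((2 * ((1 + (L1 + L2) * c) + 2 * C + 1) / η) ^ 2)
  refine ⟨N + 1, ?_⟩
  intro V _ _ B p h0 h1 hB hB2 hBN
  have hcard : 0 < B.card := by omega
  obtain ⟨v, hv⟩ := Finset.card_pos.mp hcard
  obtain ⟨M, hM⟩ : ∃ M, B.card = M + 1 := ⟨B.card - 1, by omega⟩
  have e1 := hchain V p h0 h1 M B v hM hv hB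
  have e2 := yy_le_one h0 h1 (B.erase v)
  set m : ℝ := (B.card : ℝ) with hm
  have hm0 : 0 < m := by rw [hm]; exact_mod_cast hcard
  have hp0 : 0 < p := by
    by_contra h
    have : p = 0 := le_antisymm (not_lt.mp h) h0
    rw [this, zero_mul] at hB2
    linarith
  have hcont : Continuous (fun t => xs (2 * i + 2) t + xs (2 * i + 3) t - 1) :=
    ((xs_cont _).add (xs_cont _)).sub continuous_const
  have e3 := riemann (c := c) (L := L1 + L2) _ hcont (by positivity)
    (by
      intro x y hx hx' hy hy'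
      have g1 := hlip1 x y hx hx' hy hy'
      have g2 := hlip2 x y hx hx' hy hy'
      have g3 : (xs (2 * i + 2) x + xs (2 * i + 3) x - 1) -
        (xs (2 * i + 2) y + xs (2 * i + 3) y - 1) =
        (xs (2 * i + 2) x - xs (2 * i + 2) y) + (xs (2 * i + 3) x - xs (2 * i + 3) y) := by ring
      rw [g3]
      refine (abs_add_le _ _).trans ?_
      linarith) p h0 (M + 1) (by rw [← hM]; exact hB)
  rw [← hM] at e3 e1
  rw [← hm] at e3
  have e4 := hi (p * m) (by positivity) hB
  -- divide by `p`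
  have e5 : ∑ k ∈ range B.card, (xs (2 * i + 2) (p * k) + xs (2 * i + 3) (p * k) - 1) ≤
      m * FF (p * m) + m * (η / 2) + (L1 + L2) * c := by
    have g1 : p * ∑ k ∈ range B.card, (xs (2 * i + 2) (p * k) + xs (2 * i + 3) (p * k) - 1) ≤
        p * (m * FF (p * m) + m * (η / 2) + (L1 + L2) * c) := by
      have g2 : c₁ * (η / 2) ≤ p * m * (η / 2) := mul_le_mul_of_nonneg_right hB2 (by positivity)
      have g3 : p * (m * FF (p * m) + m * (η / 2) + (L1 + L2) * c) =
        p * m * FF (p * m) + p * m * (η / 2) + (L1 + L2) * p * c := by ring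
      rw [g3]
      linarith
    exact le_of_mul_le_mul_left g1 hp0
  have e6 : Real.sqrt M ≤ Real.sqrt m := by
    apply Real.sqrt_le_sqrt
    rw [hm, hM]
    push_cast
    linarith
  have e7 : 1 ≤ Real.sqrt m := by
    rw [Real.one_le_sqrt, hm]
    exact_mod_cast hcard
  have e8 : ((1 + (L1 + L2) * c) + 2 * C) * Real.sqrt m ≤ m * (η / 2) := by
    set K := (1 + (L1 + L2) * c) + 2 * C with hK
    have hK0 : 0 ≤ K := by positivity
    have g1 : (2 * (K + 1) / η) ^ 2 < m := by
      refine hN.trans_le ?_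
      rw [hm]
      exact_mod_cast (by omega : N ≤ B.card)
    have g2 : 2 * (K + 1) / η < Real.sqrt m := by
      apply Real.lt_sqrt_of_sq_lt g1
    have g3 : Real.sqrt m * Real.sqrt m = m := Real.mul_self_sqrt hm0.le
    have g4 : K ≤ Real.sqrt m * (η / 2) := by
      rw [div_lt_iff₀ hη] at g2
      linarith
    calc K * Real.sqrt m ≤ (Real.sqrt m * (η / 2)) * Real.sqrt m :=
          mul_le_mul_of_nonneg_right g4 (Real.sqrt_nonneg _)
      _ = (Real.sqrt m * Real.sqrt m) * (η / 2) := by ring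
      _ = m * (η / 2) := by rw [g3]
  have e9 : (1 + (L1 + L2) * c) * 1 ≤ (1 + (L1 + L2) * c) * Real.sqrt m :=
    mul_le_mul_of_nonneg_left e7 (by positivity)
  have e10 : 2 * C * Real.sqrt M ≤ 2 * C * Real.sqrt m :=
    mul_le_mul_of_nonneg_left e6 (by positivity)
  nlinarith [e1, e2, e5, e8, e9, e10]

end Pool.Agent.H88.PM
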