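import Pool.Agent.H88.PM.Random
import Pool.Agent.H88.PM.Upper

set_option autoImplicit false

/-!
Assembly.
-/

namespace Pool.Agent.H88.PM

open Finset Filter Topology

theorem ev_le (A : ℝ) {B : ℝ} (hB : 0 < B) : ∀ᶠ n : ℕ in atTop, A ≤ B * (n : ℝ) := by
  have h : Tendsto (fun n : ℕ => B * (n : ℝ)) atTop atTop :=
    Tendsto.const_mul_atTop hB tendsto_natCast_atTop_atTop
  exact h.eventually_ge_atTop A

theorem ev_div_le (A : ℝ) {δ : ℝ} (hδ : 0 < δ) : ∀ᶠ n : ℕ in atTop, A / (n : ℝ) ≤ δ := by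
  filter_upwards [ev_le A hδ, eventually_gt_atTop 0] with n hn hn0
  have : (0:ℝ) < n := by exact_mod_cast hn0
  rw [div_le_iff₀ this]
  exact hn

/-- the deficiency is Lipschitz -/
theorem dfc_lip {V : Type} [Fintype V] [DecidableEq V] (B : Finset V) (i : Sym2 V)
    (ω₁ ω₂ : Sym2 V → Bool) (h : ∀ j, j ≠ i → ω₁ j = ω₂ j) :
    |(dfc (gr ω₁) B : ℝ) - (dfc (gr ω₂) B : ℝ)| ≤ 2 := by
  induction i using Sym2.ind with
  | _ a b =>
    have key : ∀ ω₁ ω₂ : Sym2 V → Bool, (∀ j, j ≠ s(a, b) → ω₁ j = ω₂ j) →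
        dfc (gr ω₂) B ≤ dfc (gr ω₁) B + 2 := by
      intro ω₁ ω₂ h
      apply dfc_edge a b
      intro x y hxy
      by_cases hs : s(x, y) = s(a, b)
      · exact Or.inr hs
      · left
        rw [gr_adj] at hxy ⊢
        rw [← h _ hs]
        exact hxy
    have h1 := key ω₁ ω₂ h
    have h2 := key ω₂ ω₁ (fun j hj => (h j hj).symm)
    have h1' : (dfc (gr ω₂) B : ℝ) ≤ dfc (gr ω₁) B + 2 := by exact_mod_cast h1
    have h2' : (dfc (gr ω₁) B : ℝ) ≤ dfc (gr ω₂) B + 2 := by exact_mod_cast h2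
    rw [abs_le]
    constructor <;> linarith

theorem card_sym2_le (n : ℕ) (hn : 0 < n) : (Fintype.card (Sym2 (Fin n)) : ℝ) ≤ (n : ℝ) ^ 2 := by
  rw [Sym2.card, Fintype.card_fin, Nat.choose_two_right]
  have h1 : (n + 1) * (n + 1 - 1) / 2 ≤ n ^ 2 := by
    have : (n + 1) * (n + 1 - 1) = n * n + n := by
      rw [Nat.add_sub_cancel]; ring
    rw [this, sq]
    have h2 : n ≤ n * n := Nat.le_mul_of_pos_left n hn
    omega
  exact_mod_cast h1

/-- concentration of the deficiency on `Fin n` -/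
theorem dfc_dev {n : ℕ} (hn : 0 < n) (B : Finset (Fin n)) {p D s : ℝ} (h0 : 0 ≤ p) (h1 : p ≤ 1)
    (hp : p * n = D) (hs : 0 < s) :
    cP p (fun ω : Sym2 (Fin n) → Bool => s * n ≤ |(dfc (gr ω) B : ℝ) -
      cE p (fun ω : Sym2 (Fin n) → Bool => (dfc (gr ω) B : ℝ))|) ≤ 4 * D / s ^ 2 / n := by
  have hn0 : (0:ℝ) < n := by exact_mod_cast hn
  refine (cP_dev h0 h1 2 (fun ω : Sym2 (Fin n) → Bool => (dfc (gr ω) B : ℝ))
    (fun i ω₁ ω₂ h => dfc_lip B i ω₁ ω₂ h) (s * n) (by positivity)).trans ?_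
  have h2 := card_sym2_le n hn
  rw [div_le_iff₀ (by positivity)]
  have h3 : 4 * D / s ^ 2 / n * (s * n) ^ 2 = (n:ℝ) ^ 2 * (p * 2 ^ 2) := by
    rw [← hp]
    field_simp
    ring
  rw [h3]
  exact mul_le_mul_of_nonneg_right h2 (by positivity)

theorem exp_decay (k : ℕ) {κ : ℝ} (hκ : 0 < κ) :
    Tendsto (fun n : ℕ => ((n : ℝ) + 1) ^ k * Real.exp (-(κ * n))) atTop (𝓝 0) := by
  have h1 := Real.tendsto_pow_mul_exp_neg_atTop_nhds_zero k
  have h2 : Tendsto (fun n : ℕ => κ * ((n : ℝ) + 1)) atTop atTop := by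
    apply Tendsto.const_mul_atTop hκ
    exact tendsto_atTop_add_const_right _ _ tendsto_natCast_atTop_atTop
  have h3 := (h1.comp h2).const_mul (Real.exp κ / κ ^ k)
  rw [mul_zero] at h3
  refine h3.congr ?_
  intro n
  simp only [Function.comp]
  have h4 : Real.exp (-(κ * n)) = Real.exp κ * Real.exp (-(κ * ((n : ℝ) + 1))) := by
    rw [← Real.exp_add]; congr 1; ring
  rw [h4, mul_pow]
  field_simp

/-- **Upper part.** -/
theorem part1 {α c ε δ : ℝ} (hα : 0 < α) (hα1 : α < 1 / 2) (hc : 0 < c)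
    (hFF : FF c = α / (1 - α)) (hε : 0 < ε) (hδ : 0 < δ) :
    ∃ N : ℕ, ∀ n : ℕ, N ≤ n → Even n → ∀ H : SimpleGraph (Fin n),
      (∀ v, ∃ T : Finset (Fin n), (∀ y ∈ T, H.Adj v y) ∧ α * n ≤ (T.card : ℝ)) →
      1 - δ ≤ cP ((1 + ε) * (c / (1 - α)) / n) (fun ω : Sym2 (Fin n) → Bool =>
        ∃ M : (H ⊔ gr ω).Subgraph, M.IsPerfectMatching) := by
  have hα2 : 0 < 1 - α := by linarith
  set C : ℝ := c / (1 - α) with hC
  have hC0 : 0 < C := by positivity
  set c' : ℝ := (1 + ε) * c with hc'
  have hc'0 : 0 < c' := by positivity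
  have hCc : (1 - α) * C = c := by rw [hC]; field_simp
  set D : ℝ := (1 + ε) * C with hD
  have hD0 : 0 < D := by positivity
  have hDc : (1 - α) * D = c' := by rw [hD, hc', ← hCc]; ring
  set g : ℝ := FF c - FF c' with hg
  have hg0 : 0 < g := by
    have := FF_strict hc.le (s' := c') (by rw [hc']; nlinarith)
    linarith
  obtain ⟨M₀, hM₀⟩ := upper (c := c') (c₁ := c' / 2) (η := g / 2) (by positivity) (by linarith)
    (by positivity)
  set K : ℕ := ⌈4 / α⌉₊ with hK
  set k₀ : ℕ := ⌈2 / α⌉₊ with hk₀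
  set s : ℝ := (1 - α) * g / 4 with hs
  have hs0 : 0 < s := by positivity
  set κ : ℝ := D * α ^ 2 / 4 with hκ
  have hκ0 : 0 < κ := by positivity
  have hdecay := (exp_decay (2 * k₀) hκ0).eventually_le_const (by positivity : 0 < δ / 2)
  have hev : ∀ᶠ n : ℕ in atTop, Even n → ∀ H : SimpleGraph (Fin n),
      (∀ v, ∃ T : Finset (Fin n), (∀ y ∈ T, H.Adj v y) ∧ α * n ≤ (T.card : ℝ)) →
      1 - δ ≤ cP ((1 + ε) * C / n) (fun ω : Sym2 (Fin n) → Bool =>
        ∃ M : (H ⊔ gr ω).Subgraph, M.IsPerfectMatching) := by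
    filter_upwards [eventually_gt_atTop 0, ev_div_le D one_pos, ev_div_le D (by positivity : 0 < c' / 2),
      ev_le (M₀ + 1) hα2, ev_le (K + c') hs0,
      ev_div_le (4 / α * (4 * D / s ^ 2)) (by positivity : 0 < δ / 2), hdecay] with
      n hn hp1 hp2 hn1 hn2 hn3 hn4
    intro heven H hdeg
    have hn0 : (0:ℝ) < n := by exact_mod_cast hn
    set p : ℝ := (1 + ε) * C / n with hp
    have hpD : p * n = D := by rw [hp, hD]; field_simp
    have hp0 : 0 ≤ p := by positivity
    have hp1' : p ≤ 1 := hp1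
    set a : ℕ := ⌈α * n⌉₊ with ha
    have ha1 : α * n ≤ (a : ℝ) := Nat.le_ceil _
    have ha2 : (a : ℝ) < α * n + 1 := Nat.ceil_lt_add_one (by positivity)
    -- choose the sets `A v`
    have hAex : ∀ v, ∃ A : Finset (Fin n), (∀ y ∈ A, H.Adj v y) ∧ A.card = a := by
      intro v
      obtain ⟨T, hT1, hT2⟩ := hdeg v
      have h1 : a ≤ T.card := Nat.ceil_le.mpr hT2
      obtain ⟨A, hA1, hA2⟩ := Finset.exists_subset_card_eq h1
      exact ⟨A, fun y hy => hT1 y (hA1 hy), hA2⟩
    choose A hA1 hA2 using hAex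
    set d : ℕ := ⌈α * n / 2⌉₊ with hd
    have hd1 : α * n / 2 ≤ (d : ℝ) := Nat.le_ceil _
    have hd0 : 0 < d := Nat.ceil_pos.mpr (by positivity)
    -- the tail bound
    have hτ : ∀ v, cP p (fun ω : Sym2 (Fin n) → Bool => a + 2 ≤ dfc (gr ω) (univ \ A v) + K) ≤
        4 * D / s ^ 2 / n := by
      intro v
      set B : Finset (Fin n) := univ \ A v with hB
      have hBcard : (B.card : ℝ) = n - a := by
        have h1 : B.card + (A v).card = n := by
          rw [hB]
          have := Finset.card_sdiff_add_card_eq_card (Finset.subset_univ (A v))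
          rwa [Finset.card_univ, Fintype.card_fin] at this
        rw [hA2] at h1
        have h2 : (B.card : ℝ) + a = n := by exact_mod_cast h1
        linarith
      have hb1 : (B.card : ℝ) ≤ (1 - α) * n := by rw [hBcard]; linarith
      have hb2 : (1 - α) * n - 1 ≤ (B.card : ℝ) := by rw [hBcard]; linarith
      have hq1 : p * B.card ≤ c' := by
        calc p * B.card ≤ p * ((1 - α) * n) := mul_le_mul_of_nonneg_left hb1 hp0
          _ = (1 - α) * (p * n) := by ring
          _ = c' := by rw [hpD, hDc]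
      have hq2 : c' - D / n ≤ p * B.card := by
        have h1 : p * ((1 - α) * n - 1) ≤ p * B.card := mul_le_mul_of_nonneg_left hb2 hp0
        have h2 : p * ((1 - α) * n - 1) = c' - D / n := by
          have h3 : p * ((1 - α) * n - 1) = (1 - α) * (p * n) - p := by ring
          rw [h3, hpD, hDc]
        linarith
      have hq3 : c' / 2 ≤ p * B.card := by linarith
      have hBM : M₀ ≤ B.card := by
        have h1 : (M₀ : ℝ) ≤ B.card := by linarith
        exact_mod_cast h1
      have hE := hM₀ (Fin n) B p hp0 hp1' hq1 hq3 hBM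
      have hF : FF (p * B.card) ≤ FF c' + D / n := by
        have h1 := FF_lip (by positivity : 0 ≤ p * (B.card : ℝ)) hq1
        have h2 := (abs_le.mp h1).1
        linarith
      have hE2 : cE p (fun ω : Sym2 (Fin n) → Bool => (dfc (gr ω) B : ℝ)) ≤
          α * n - (1 - α) * n * (g / 2) + c' := by
        have h1 : FF (p * B.card) + g / 2 ≤ FF c - g / 2 + D / n := by
          rw [hg] at hg0 ⊢
          linarith
        have h2 : 0 ≤ FF c - g / 2 + D / n := by
          have h3 := FF_nonneg (by positivity : 0 ≤ p * (B.card : ℝ))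
          linarith
        calc cE p (fun ω : Sym2 (Fin n) → Bool => (dfc (gr ω) B : ℝ))
            ≤ B.card * (FF (p * B.card) + g / 2) := hE
          _ ≤ B.card * (FF c - g / 2 + D / n) := mul_le_mul_of_nonneg_left h1 (by positivity)
          _ ≤ ((1 - α) * n) * (FF c - g / 2 + D / n) := mul_le_mul_of_nonneg_right hb1 h2
          _ = α * n - (1 - α) * n * (g / 2) + c' := by
            rw [hFF, ← hDc]
            field_simp
      refine le_trans ?_ (dfc_dev hn B hp0 hp1' hpD hs0)
      apply cP_mono hp0 hp1'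
      intro ω hω
      have h1 : ((a : ℝ) + 2) ≤ dfc (gr ω) B + K := by exact_mod_cast hω
      refine le_trans ?_ (le_abs_self _)
      have h2 : s * n + s * n = (1 - α) * n * (g / 2) := by rw [hs]; ring
      linarith
    have hfail := fail_prob hn heven H hα a K k₀ d (Nat.le_ceil _) (Nat.le_ceil _) hd0 hd1
      (fun m hm => Nat.ceil_le.mpr hm.le) A hA1 hA2 hdeg hp0 hp1' hτ
    rw [cP_not] at hfail
    -- second term
    have e1 : (1 - p) ^ (d * d) ≤ Real.exp (-(κ * n)) := by
      have h1 : (1 - p) ^ (d * d) ≤ Real.exp (-p) ^ (d * d) := by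
        apply pow_le_pow_left₀ (by linarith)
        have := Real.add_one_le_exp (-p)
        linarith
      refine h1.trans ?_
      rw [← Real.exp_nat_mul]
      apply Real.exp_le_exp.mpr
      have h2 : κ * n = (α * n / 2) * (α * n / 2) * p := by
        have h3 : (α * n / 2) * (α * n / 2) * p = α ^ 2 * n / 4 * (p * n) := by ring
        rw [h3, hpD, hκ]; ring
      have h3 : (α * n / 2) * (α * n / 2) ≤ (d : ℝ) * d :=
        mul_le_mul hd1 hd1 (by positivity) (by positivity)
      have h4 := mul_le_mul_of_nonneg_right h3 hp0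
      push_cast
      linarith
    have e2 : ((n : ℝ) + 1) ^ (2 * k₀) * (1 - p) ^ (d * d) ≤ δ / 2 :=
      (mul_le_mul_of_nonneg_left e1 (by positivity)).trans hn4
    have e3 : 4 / α * (4 * D / s ^ 2 / n) ≤ δ / 2 := by
      have : 4 / α * (4 * D / s ^ 2 / n) = 4 / α * (4 * D / s ^ 2) / n := by ring
      rw [this]
      exact hn3
    linarith
  obtain ⟨N, hN⟩ := eventually_atTop.mp hev
  exact ⟨N, fun n hn heven H hdeg => hN n hn heven H hdeg⟩

/-- the truncated lower bound function -/
noncomputable def Fi (i : ℕ) (s : ℝ) : ℝ :=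
  xs (2 * i + 1) s + xs (2 * i + 2) s + s * xs (2 * i + 1) s * xs (2 * i + 2) s - 1

theorem Fi_tendsto {s : ℝ} (hs : 0 ≤ s) : Tendsto (fun i => Fi i s) atTop (𝓝 (FF s)) := by
  have h1 := tendsto_ql hs
  have h2 : Tendsto (fun i => xs (2 * i + 2) s) atTop (𝓝 (Pl s)) :=
    (tendsto_add_atTop_iff_nat (f := fun i => xs (2 * i) s) 1).mpr (tendsto_Pl hs)
  have h3 := ((h1.add h2).add ((h1.const_mul s).mul h2)).sub_const 1
  have h4 : ql s + Pl s + s * ql s * Pl s - 1 = FF s := by unfold FF; ring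
  rw [h4] at h3
  exact h3

theorem Fi_cont (i : ℕ) : Continuous (Fi i) := by
  unfold Fi
  exact (((xs_cont _).add (xs_cont _)).add ((continuous_id.mul (xs_cont _)).mul (xs_cont _))).sub
    continuous_const

/-- the complete bipartite graph -/
def bip (n a : ℕ) : SimpleGraph (Fin n) where
  Adj x y := (x.val < a ∧ ¬ y.val < a) ∨ (¬ x.val < a ∧ y.val < a)
  symm := ⟨fun x y h => by tauto⟩
  loopless := ⟨fun x h => by tauto⟩

/-- **Lower part.** -/
theorem part0 {α c ε δ : ℝ} (hα : 0 < α) (hα1 : α < 1 / 2) (hc : 0 < c)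
    (hFF : FF c = α / (1 - α)) (hε : 0 < ε) (hε1 : ε < 1) (hδ : 0 < δ) :
    ∃ N : ℕ, ∀ n : ℕ, N ≤ n → ∃ H : SimpleGraph (Fin n),
      (∀ v, ∃ T : Finset (Fin n), (∀ y ∈ T, H.Adj v y) ∧ ⌈α * n⌉₊ ≤ T.card) ∧
      cP ((1 - ε) * (c / (1 - α)) / n) (fun ω : Sym2 (Fin n) → Bool =>
        ∃ M : (H ⊔ gr ω).Subgraph, M.IsPerfectMatching) ≤ δ := by
  have hα2 : 0 < 1 - α := by linarith
  set C : ℝ := c / (1 - α) with hC
  have hC0 : 0 < C := by positivity
  set c' : ℝ := (1 - ε) * c with hc'
  have h1ε : 0 < 1 - ε := by linarith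
  have hc'0 : 0 < c' := by positivity
  have hCc : (1 - α) * C = c := by rw [hC]; field_simp
  set D : ℝ := (1 - ε) * C with hD
  have hD0 : 0 < D := by positivity
  have hDc : (1 - α) * D = c' := by rw [hD, hc', ← hCc]; ring
  set g : ℝ := FF c' - FF c with hg
  have hg0 : 0 < g := by
    have := FF_strict hc'0.le (s' := c) (by rw [hc']; nlinarith)
    linarith
  -- the level
  have h1 := (Fi_tendsto hc'0.le).eventually_const_lt (by linarith : FF c' - g / 4 < FF c')
  obtain ⟨i, hi⟩ := h1.exists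
  obtain ⟨r, hr0, hr⟩ := Metric.continuousAt_iff.mp ((Fi_cont i).continuousAt (x := c')) (g / 4)
    (by positivity)
  obtain ⟨C', hC', hlow⟩ := lower hc'0.le i
  set s : ℝ := (1 - α) * g / 4 with hs
  have hs0 : 0 < s := by positivity
  set θ : ℝ := s / (2 * (C' + 1)) with hθ
  have hθ0 : 0 < θ := by positivity
  have hCθ : C' * θ ≤ s / 2 := by
    rw [hθ]
    have : C' * (s / (2 * (C' + 1))) = (s / 2) * (C' / (C' + 1)) := by field_simp
    rw [this]
    have h2 : C' / (C' + 1) ≤ 1 := by rw [div_le_one (by positivity)]; linarith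
    have := mul_le_mul_of_nonneg_left h2 (by positivity : 0 ≤ s / 2)
    linarith
  have hev : ∀ᶠ n : ℕ in atTop, ∃ H : SimpleGraph (Fin n),
      (∀ v, ∃ T : Finset (Fin n), (∀ y ∈ T, H.Adj v y) ∧ ⌈α * n⌉₊ ≤ T.card) ∧
      cP ((1 - ε) * C / n) (fun ω : Sym2 (Fin n) → Bool =>
        ∃ M : (H ⊔ gr ω).Subgraph, M.IsPerfectMatching) ≤ δ := by
    filter_upwards [eventually_gt_atTop 0, ev_div_le D one_pos, ev_div_le D (by positivity : 0 < r / 2),
      ev_le 2 (by linarith : 0 < 1 - 2 * α),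
      ev_le ((FF c + g / 2) + C' / θ + C' + 1) (by positivity : 0 < s / 2),
      ev_div_le (4 * D / s ^ 2) hδ] with n hn hp1 hp2 hn1 hn2 hn3
    have hn0 : (0:ℝ) < n := by exact_mod_cast hn
    set p : ℝ := (1 - ε) * C / n with hp
    have hpD : p * n = D := by rw [hp, hD]; field_simp
    have hp0 : 0 ≤ p := by positivity
    have hp1' : p ≤ 1 := hp1
    set a : ℕ := ⌈α * n⌉₊ with ha
    have ha1 : α * n ≤ (a : ℝ) := Nat.le_ceil _
    have ha2 : (a : ℝ) < α * n + 1 := Nat.ceil_lt_add_one (by positivity)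
    have ha3 : 2 * a ≤ n := by
      have : (2:ℝ) * a ≤ n := by linarith
      exact_mod_cast this
    set A : Finset (Fin n) := univ.filter (fun x => x.val < a) with hA
    have hAcard : A.card = a := by
      rw [hA, Fin.card_filter_val_lt]
      omega
    set B : Finset (Fin n) := univ \ A with hB
    have hBc : B.card + a = n := by
      have := Finset.card_sdiff_add_card_eq_card (Finset.subset_univ A)
      rw [Finset.card_univ, Fintype.card_fin, hAcard] at this
      exact this
    refine ⟨bip n a, ?_, ?_⟩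
    · intro v
      by_cases hv : v.val < a
      · refine ⟨B, ?_, by omega⟩
        intro y hy
        left
        refine ⟨hv, ?_⟩
        simpa [hB, hA] using hy
      · refine ⟨A, ?_, hAcard.ge⟩
        intro y hy
        right
        refine ⟨hv, ?_⟩
        simpa [hA] using hy
    · have hBcard : (B.card : ℝ) = n - a := by
        have h2 : (B.card : ℝ) + a = n := by exact_mod_cast hBc
        linarith
      have hb1 : (B.card : ℝ) ≤ (1 - α) * n := by rw [hBcard]; linarith
      have hb2 : (1 - α) * n - 1 ≤ (B.card : ℝ) := by rw [hBcard]; linarith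
      have hq1 : p * B.card ≤ c' := by
        calc p * B.card ≤ p * ((1 - α) * n) := mul_le_mul_of_nonneg_left hb1 hp0
          _ = (1 - α) * (p * n) := by ring
          _ = c' := by rw [hpD, hDc]
      have hq2 : c' - D / n ≤ p * B.card := by
        have h1 : p * ((1 - α) * n - 1) ≤ p * B.card := mul_le_mul_of_nonneg_left hb2 hp0
        have h2 : p * ((1 - α) * n - 1) = c' - D / n := by
          have h3 : p * ((1 - α) * n - 1) = (1 - α) * (p * n) - p := by ring
          rw [h3, hpD, hDc]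
        linarith
      have hE := hlow (Fin n) B p hp0 hp1' hq1
      have hF1 : Fi i (p * B.card) = xs (2 * i + 1) (p * B.card) + xs (2 * i + 2) (p * B.card) +
        p * B.card * xs (2 * i + 1) (p * B.card) * xs (2 * i + 2) (p * B.card) - 1 := rfl
      rw [← hF1] at hE
      have hF2 : FF c + g / 2 ≤ Fi i (p * B.card) := by
        have h2 : dist (p * (B.card : ℝ)) c' < r := by
          rw [Real.dist_eq, abs_sub_comm, abs_of_nonneg (by linarith)]
          linarith
        have h3 := hr h2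
        rw [Real.dist_eq] at h3
        have h4 := (abs_lt.mp h3).1
        rw [hg] at hi h4 hg0 ⊢
        linarith
      have hFc : 0 ≤ FF c := FF_nonneg hc.le
      have hE2 : α * n + 2 * s * n - (FF c + g / 2) - C' * (Real.sqrt n + 1) ≤
          cE p (fun ω : Sym2 (Fin n) → Bool => (dfc (gr ω) B : ℝ)) := by
        refine le_trans ?_ hE
        have h2 : ((1 - α) * n - 1) * (FF c + g / 2) ≤ B.card * Fi i (p * B.card) := by
          calc ((1 - α) * n - 1) * (FF c + g / 2) ≤ B.card * (FF c + g / 2) :=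
                mul_le_mul_of_nonneg_right hb2 (by positivity)
            _ ≤ B.card * Fi i (p * B.card) := mul_le_mul_of_nonneg_left hF2 (by positivity)
        have h3 : ((1 - α) * n - 1) * (FF c + g / 2) =
            α * n + 2 * s * n - (FF c + g / 2) := by
          rw [hFF, hs]
          field_simp
          ring
        have h4 : Real.sqrt B.card ≤ Real.sqrt n := by
          apply Real.sqrt_le_sqrt
          rw [hBcard]
          have : (0:ℝ) ≤ a := by positivity
          linarith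
        have h5 : C' * (Real.sqrt B.card + 1) ≤ C' * (Real.sqrt n + 1) :=
          mul_le_mul_of_nonneg_left (by linarith) hC'
        linarith
      have hsqrt : Real.sqrt n ≤ θ * n + 1 / θ := by
        have h2 : Real.sqrt n * Real.sqrt n = n := Real.mul_self_sqrt hn0.le
        have h3 : 0 ≤ Real.sqrt n := Real.sqrt_nonneg _
        have h4 : θ * n + 1 / θ - Real.sqrt n = ((θ * Real.sqrt n - 1 / 2) ^ 2 + 3 / 4) / θ := by
          rw [eq_div_iff hθ0.ne']
          have h5 : (θ * Real.sqrt n - 1 / 2) ^ 2 = θ ^ 2 * (Real.sqrt n * Real.sqrt n) -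
            θ * Real.sqrt n + 1 / 4 := by ring
          rw [h5, h2]
          field_simp
          ring
        have h6 : 0 ≤ ((θ * Real.sqrt n - 1 / 2) ^ 2 + 3 / 4) / θ := by positivity
        linarith
      have hCs : C' * Real.sqrt n ≤ s / 2 * n + C' / θ := by
        have h2 := mul_le_mul_of_nonneg_left hsqrt hC'
        have h3 := mul_le_mul_of_nonneg_right hCθ hn0.le
        have h4 : C' * (θ * n + 1 / θ) = C' * θ * n + C' / θ := by ring
        linarith
      refine le_trans ?_ ((dfc_dev hn B hp0 hp1' hpD hs0).trans hn3)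
      apply cP_mono hp0 hp1'
      intro ω hω
      have h2 := dfc_le_of_pm (bip n a) (gr ω) A (by
        intro x y hxy
        rcases hxy with h | h
        · left; rw [hA, Finset.mem_filter]; exact ⟨Finset.mem_univ _, h.1⟩
        · right; rw [hA, Finset.mem_filter]; exact ⟨Finset.mem_univ _, h.2⟩) hω
      rw [hAcard] at h2
      have h3 : (dfc (gr ω) B : ℝ) ≤ a := by exact_mod_cast h2
      rw [abs_sub_comm]
      refine le_trans ?_ (le_abs_self _)
      linarith
  obtain ⟨N, hN⟩ := eventually_atTop.mp hev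
  exact ⟨N, hN⟩

end Pool.Agent.H88.PM
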