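import Mathlib

set_option autoImplicit false

/-!
Matchings encoded by involutions, the deficiency `dfc G B` of the induced graph on `B`, the
recursion for the set of vertices missed by a maximum matching, and its truncations.
-/

namespace Pool.Agent.H88.PM

open Finset

section Match

variable {V : Type*} [DecidableEq V]

/-- `f` encodes a matching of `G` inside `B`. -/
def IsM (G : SimpleGraph V) (B : Finset V) (f : V → V) : Prop :=
  (∀ x, f (f x) = x) ∧ ∀ x, f x ≠ x → G.Adj x (f x) ∧ x ∈ B

/-- the vertices of `B` not covered -/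
def unm (B : Finset V) (f : V → V) : Finset V := B.filter (fun x => f x = x)

/-- the least number of vertices of `B` left uncovered by a matching of `G` inside `B` -/
noncomputable def dfc (G : SimpleGraph V) (B : Finset V) : ℕ :=
  sInf {k | ∃ f, IsM G B f ∧ (unm B f).card = k}

theorem mem_unm {B : Finset V} {f : V → V} {x : V} : x ∈ unm B f ↔ x ∈ B ∧ f x = x := by
  simp [unm]

theorem dfc_le {G : SimpleGraph V} {B : Finset V} {f : V → V} (h : IsM G B f) :
    dfc G B ≤ (unm B f).card := Nat.sInf_le ⟨f, h, rfl⟩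

theorem exists_dfc (G : SimpleGraph V) (B : Finset V) :
    ∃ f, IsM G B f ∧ (unm B f).card = dfc G B := by
  have h : {k | ∃ f, IsM G B f ∧ (unm B f).card = k}.Nonempty :=
    ⟨_, id, ⟨fun _ => rfl, fun x hx => absurd rfl hx⟩, rfl⟩
  exact Nat.sInf_mem h

theorem even_of_invol (f : V → V) (hf : ∀ x, f (f x) = x) (X : Finset V)
    (hX : ∀ x ∈ X, f x ∈ X ∧ f x ≠ x) : Even X.card := by
  have h : ∑ x ∈ X, (1 : ZMod 2) = 0 := by
    refine Finset.sum_involution (fun a _ => f a) ?_ ?_ ?_ ?_
    · intro a _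
      decide
    · intro a ha _
      exact (hX a ha).2
    · intro a ha
      exact (hX a ha).1
    · intro a _
      exact hf a
  rw [Finset.sum_const, nsmul_eq_mul, mul_one] at h
  rw [← ZMod.natCast_eq_zero_iff_even]
  exact h

theorem IsM.parity {G : SimpleGraph V} {B : Finset V} {f : V → V} (h : IsM G B f) :
    Even (B.card - (unm B f).card) ∧ (unm B f).card ≤ B.card := by
  have h1 : (unm B f).card ≤ B.card := Finset.card_le_card (Finset.filter_subset _ _)
  refine ⟨?_, h1⟩
  have h2 : B.card - (unm B f).card = (B.filter (fun x => ¬ f x = x)).card := by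
    have := Finset.card_filter_add_card_filter_not (s := B) (fun x => f x = x)
    unfold unm
    omega
  rw [h2]
  apply even_of_invol f h.1
  intro x hx
  rw [Finset.mem_filter] at hx ⊢
  have h3 : f (f x) ≠ f x := by rw [h.1]; exact fun h => hx.2 h.symm
  exact ⟨⟨(h.2 (f x) h3).2, h3⟩, hx.2⟩

theorem dfc_parity (G : SimpleGraph V) (B : Finset V) :
    Even (B.card - dfc G B) ∧ dfc G B ≤ B.card := by
  obtain ⟨f, hf, h⟩ := exists_dfc G B
  rw [← h]
  exact hf.parity

theorem dfc_empty (G : SimpleGraph V) : dfc G ∅ = 0 := by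
  have := (dfc_parity G ∅).2
  simpa using this

theorem dfc_le_erase (G : SimpleGraph V) (B : Finset V) (v : V) :
    dfc G B ≤ dfc G (B.erase v) + 1 := by
  obtain ⟨f, hf, h⟩ := exists_dfc G (B.erase v)
  have h1 : IsM G B f := ⟨hf.1, fun x hx => ⟨(hf.2 x hx).1, Finset.mem_of_mem_erase (hf.2 x hx).2⟩⟩
  refine (dfc_le h1).trans ?_
  rw [← h]
  have h2 : unm B f ⊆ insert v (unm (B.erase v) f) := by
    intro x hx
    rw [mem_unm] at hx
    rw [Finset.mem_insert, mem_unm, Finset.mem_erase]
    by_cases hxv : x = v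
    · exact Or.inl hxv
    · exact Or.inr ⟨⟨hxv, hx.1⟩, hx.2⟩
  exact (Finset.card_le_card h2).trans (Finset.card_insert_le _ _)

/-- remove the pair `v, f v` from the matching -/
def cut (f : V → V) (v : V) : V → V := fun x => if x = v ∨ x = f v then x else f x

theorem cut_isM {G : SimpleGraph V} {B : Finset V} {f : V → V} (h : IsM G B f) (v : V) :
    IsM G ((B.erase v).erase (f v)) (cut f v) := by
  constructor
  · intro x
    unfold cut
    by_cases hx : x = v ∨ x = f v
    · simp [hx]
    · rw [if_neg hx]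
      have h2 : ¬ (f x = v ∨ f x = f v) := by
        push Not at hx ⊢
        constructor
        · intro h3
          apply hx.2
          rw [← h3, h.1]
        · intro h3
          apply hx.1
          rw [← h.1 x, h3, h.1]
      rw [if_neg h2, h.1]
  · intro x hx
    unfold cut at hx ⊢
    by_cases hx2 : x = v ∨ x = f v
    · simp [hx2] at hx
    · rw [if_neg hx2] at hx ⊢
      push Not at hx2
      refine ⟨(h.2 x hx).1, ?_⟩
      rw [Finset.mem_erase, Finset.mem_erase]
      exact ⟨hx2.2, hx2.1, (h.2 x hx).2⟩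

theorem dfc_erase_le (G : SimpleGraph V) (B : Finset V) (v : V) :
    dfc G (B.erase v) ≤ dfc G B + 1 := by
  obtain ⟨f, hf, h⟩ := exists_dfc G B
  have h1 : IsM G (B.erase v) (cut f v) := by
    have h2 := cut_isM hf v
    exact ⟨h2.1, fun x hx => ⟨(h2.2 x hx).1, Finset.mem_of_mem_erase (h2.2 x hx).2⟩⟩
  refine (dfc_le h1).trans ?_
  rw [← h]
  have h2 : unm (B.erase v) (cut f v) ⊆ insert (f v) (unm B f) := by
    intro x hx
    rw [mem_unm, Finset.mem_erase] at hx
    rw [Finset.mem_insert, mem_unm]
    by_cases hxv : x = f v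
    · exact Or.inl hxv
    · right
      refine ⟨hx.1.2, ?_⟩
      have h3 := hx.2
      unfold cut at h3
      rwa [if_neg (by push Not; exact ⟨hx.1.1, hxv⟩)] at h3
  exact (Finset.card_le_card h2).trans (Finset.card_insert_le _ _)

theorem dfc_le_erase_erase {G : SimpleGraph V} {B : Finset V} {v w : V} (hv : v ∈ B)
    (hw : w ∈ B) (hvw : G.Adj v w) : dfc G B ≤ dfc G ((B.erase v).erase w) := by
  obtain ⟨f, hf, h⟩ := exists_dfc G ((B.erase v).erase w)
  have hne : v ≠ w := hvw.ne
  have hfv : f v = v := by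
    by_contra h3
    have := (hf.2 v h3).2
    simp at this
  have hfw : f w = w := by
    by_contra h3
    have := (hf.2 w h3).2
    simp at this
  have hfx : ∀ x, x ≠ v → x ≠ w → f x ≠ v ∧ f x ≠ w := by
    intro x h1 h2
    constructor
    · intro h3
      apply h1
      rw [← hf.1 x, h3, hfv]
    · intro h3
      apply h2
      rw [← hf.1 x, h3, hfw]
  have h1 : IsM G B (fun x => if x = v then w else if x = w then v else f x) := by
    constructor
    · intro x
      by_cases hxv : x = v
      · subst hxv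
        simp [hne.symm]
      · by_cases hxw : x = w
        · subst hxw
          simp
        · have := hfx x hxv hxw
          simp [hxv, hxw, this.1, this.2, hf.1]
    · intro x hx
      by_cases hxv : x = v
      · subst hxv
        simp only [if_true]
        exact ⟨hvw, hv⟩
      · by_cases hxw : x = w
        · subst hxw
          simp only [if_true, if_neg hxv]
          exact ⟨hvw.symm, hw⟩
        · simp only [if_neg hxv, if_neg hxw] at hx ⊢
          refine ⟨(hf.2 x hx).1, ?_⟩
          have := (hf.2 x hx).2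
          simp only [Finset.mem_erase] at this
          exact this.2.2
  refine (dfc_le h1).trans ?_
  rw [← h]
  apply Finset.card_le_card
  intro x hx
  rw [mem_unm] at hx
  rw [mem_unm, Finset.mem_erase, Finset.mem_erase]
  by_cases hxv : x = v
  · subst hxv
    simp only [if_true] at hx
    exact absurd hx.2.symm hne
  · by_cases hxw : x = w
    · subst hxw
      simp only [if_true, if_neg hxv] at hx
      exact absurd hx.2 hne
    · simp only [if_neg hxv, if_neg hxw] at hx
      exact ⟨⟨hxw, hxv, hx.1⟩, hx.2⟩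

theorem dfc_cases (G : SimpleGraph V) {B : Finset V} {v : V} (hv : v ∈ B) :
    dfc G (B.erase v) + 1 ≤ dfc G B ∨
      ∃ w ∈ B.erase v, G.Adj v w ∧ dfc G ((B.erase v).erase w) ≤ dfc G B := by
  obtain ⟨f, hf, h⟩ := exists_dfc G B
  by_cases hfv : f v = v
  · left
    have h1 : IsM G (B.erase v) f := by
      refine ⟨hf.1, fun x hx => ⟨(hf.2 x hx).1, ?_⟩⟩
      rw [Finset.mem_erase]
      refine ⟨?_, (hf.2 x hx).2⟩
      rintro rfl
      exact hx hfv
    have h2 := dfc_le h1
    have h3 : unm (B.erase v) f = (unm B f).erase v := by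
      ext x
      rw [mem_unm, Finset.mem_erase, Finset.mem_erase, mem_unm, and_assoc]
    have h4 : v ∈ unm B f := mem_unm.mpr ⟨hv, hfv⟩
    rw [h3, Finset.card_erase_of_mem h4] at h2
    have h5 : 0 < (unm B f).card := Finset.card_pos.mpr ⟨v, h4⟩
    omega
  · right
    refine ⟨f v, ?_, (hf.2 v hfv).1, ?_⟩
    · rw [Finset.mem_erase]
      refine ⟨hfv, (hf.2 (f v) ?_).2⟩
      rw [hf.1]
      exact fun h => hfv h.symm
    · refine (dfc_le (cut_isM hf v)).trans ?_
      rw [← h]
      apply Finset.card_le_card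
      intro x hx
      rw [mem_unm, Finset.mem_erase, Finset.mem_erase] at hx
      rw [mem_unm]
      refine ⟨hx.1.2.2, ?_⟩
      have h3 := hx.2
      unfold cut at h3
      rwa [if_neg (by push Not; exact ⟨hx.1.2.1, hx.1.1⟩)] at h3

/-- `v` is missed by some maximum matching of `G` inside `B` -/
def Dv (G : SimpleGraph V) (B : Finset V) (v : V) : Prop := dfc G B = dfc G (B.erase v) + 1

theorem not_Dv {G : SimpleGraph V} {B : Finset V} {v : V} (hv : v ∈ B) (h : ¬ Dv G B v) :
    dfc G B + 1 = dfc G (B.erase v) := by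
  have h1 := dfc_le_erase G B v
  have h2 := dfc_erase_le G B v
  have h3 := dfc_parity G B
  have h4 := dfc_parity G (B.erase v)
  rw [Finset.card_erase_of_mem hv] at h4
  have h5 : 0 < B.card := Finset.card_pos.mpr ⟨v, hv⟩
  unfold Dv at h
  obtain ⟨⟨a, ha⟩, h3'⟩ := h3
  obtain ⟨⟨b, hb⟩, h4'⟩ := h4
  omega

theorem Dv_iff {G : SimpleGraph V} {B : Finset V} {v : V} (hv : v ∈ B) :
    Dv G B v ↔ ∀ w ∈ B.erase v, G.Adj v w → ¬ Dv G (B.erase v) w := by
  constructor
  · intro h w hw hvw hD
    have h1 := dfc_le_erase_erase hv (Finset.mem_of_mem_erase hw) hvw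
    unfold Dv at h hD
    omega
  · intro h
    rcases dfc_cases G hv with h1 | ⟨w, hw, hvw, h1⟩
    · have h2 := dfc_le_erase G B v
      unfold Dv
      omega
    · have h2 := not_Dv hw (h w hw hvw)
      have h3 := dfc_le_erase G B v
      unfold Dv
      omega

/-- truncated recursion -/
def tr (G : SimpleGraph V) : ℕ → Finset V → V → Prop
  | 0, _, _ => True
  | k + 1, B, v => ∀ w ∈ B.erase v, G.Adj v w → ¬ tr G k (B.erase v) w

theorem tr_succ (G : SimpleGraph V) (k : ℕ) (B : Finset V) (v : V) :
    tr G (k + 1) B v ↔ ∀ w ∈ B.erase v, G.Adj v w → ¬ tr G k (B.erase v) w := Iff.rfl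

theorem tr_sandwich (G : SimpleGraph V) (i : ℕ) :
    (∀ (B : Finset V) (v : V), v ∈ B → Dv G B v → tr G (2 * i) B v) ∧
    (∀ (B : Finset V) (v : V), v ∈ B → tr G (2 * i + 1) B v → Dv G B v) := by
  induction i with
  | zero =>
    refine ⟨fun B v _ _ => trivial, ?_⟩
    intro B v hv h
    rw [Dv_iff hv]
    intro w hw hvw
    exact absurd trivial (h w hw hvw)
  | succ i ih =>
    have h1 : ∀ (B : Finset V) (v : V), v ∈ B → Dv G B v → tr G (2 * (i + 1)) B v := by
      intro B v hv h
      rw [show 2 * (i + 1) = (2 * i + 1) + 1 by ring, tr_succ]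
      intro w hw hvw h2
      exact (Dv_iff hv).mp h w hw hvw (ih.2 _ _ hw h2)
    refine ⟨h1, ?_⟩
    intro B v hv h
    rw [Dv_iff hv]
    intro w hw hvw h2
    exact h w hw hvw (h1 _ _ hw h2)

theorem tr_level (G : SimpleGraph V) (i : ℕ) :
    (∀ (B : Finset V) (v : V), v ∈ B → tr G (2 * i + 2) B v → tr G (2 * i) B v) ∧
    (∀ (B : Finset V) (v : V), v ∈ B → tr G (2 * i + 1) B v → tr G (2 * i + 3) B v) := by
  induction i with
  | zero =>
    refine ⟨fun B v _ _ => trivial, ?_⟩
    intro B v hv h w hw hvw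
    exact absurd trivial (h w hw hvw)
  | succ i ih =>
    have h1 : ∀ (B : Finset V) (v : V), v ∈ B → tr G (2 * (i + 1) + 2) B v →
        tr G (2 * (i + 1)) B v := by
      intro B v hv h
      rw [show 2 * (i + 1) = (2 * i + 1) + 1 by ring, tr_succ]
      intro w hw hvw h2
      exact h w hw hvw (ih.2 _ _ hw h2)
    refine ⟨h1, ?_⟩
    intro B v hv h w hw hvw h2
    exact h w hw hvw (h1 _ _ hw h2)

/-- the truncated recursion only depends on the edges inside `B` -/
theorem tr_congr {G G' : SimpleGraph V} (k : ℕ) : ∀ (B : Finset V) (v : V), v ∈ B →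
    (∀ x ∈ B, ∀ y ∈ B, G.Adj x y ↔ G'.Adj x y) → (tr G k B v ↔ tr G' k B v) := by
  induction k with
  | zero => intro B v _ _; exact Iff.rfl
  | succ k ih =>
    intro B v hv h
    rw [tr_succ, tr_succ]
    refine forall_congr' fun w => forall_congr' fun hw => ?_
    rw [h v hv w (Finset.mem_of_mem_erase hw), ih (B.erase v) w hw
      (fun x hx y hy => h x (Finset.mem_of_mem_erase hx) y (Finset.mem_of_mem_erase hy))]

theorem dfc_mono_congr {G G' : SimpleGraph V} {B : Finset V}
    (h : ∀ x ∈ B, ∀ y ∈ B, G.Adj x y → G'.Adj x y) : dfc G' B ≤ dfc G B := by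
  obtain ⟨f, hf, h1⟩ := exists_dfc G B
  rw [← h1]
  apply dfc_le
  refine ⟨hf.1, fun x hx => ?_⟩
  have h2 : f (f x) ≠ f x := by rw [hf.1]; exact fun h => hx h.symm
  exact ⟨h x (hf.2 x hx).2 (f x) (hf.2 (f x) h2).2 (hf.2 x hx).1, (hf.2 x hx).2⟩

theorem dfc_congr {G G' : SimpleGraph V} {B : Finset V}
    (h : ∀ x ∈ B, ∀ y ∈ B, G.Adj x y ↔ G'.Adj x y) : dfc G B = dfc G' B :=
  le_antisymm (dfc_mono_congr (fun x hx y hy => (h x hx y hy).mpr))
    (dfc_mono_congr (fun x hx y hy => (h x hx y hy).mp))

theorem Dv_congr {G G' : SimpleGraph V} {B : Finset V} {v : V}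
    (h : ∀ x ∈ B, ∀ y ∈ B, G.Adj x y ↔ G'.Adj x y) : Dv G B v ↔ Dv G' B v := by
  unfold Dv
  rw [dfc_congr h, dfc_congr (B := B.erase v)
    (fun x hx y hy => h x (Finset.mem_of_mem_erase hx) y (Finset.mem_of_mem_erase hy))]

/-- changing one edge changes the deficiency by at most two -/
theorem dfc_edge {G G' : SimpleGraph V} {B : Finset V} (a b : V)
    (h : ∀ x y, G.Adj x y → G'.Adj x y ∨ s(x, y) = s(a, b)) : dfc G' B ≤ dfc G B + 2 := by
  obtain ⟨f, hf, h1⟩ := exists_dfc G B
  rw [← h1]
  by_cases hab : f a = b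
  · -- cut the pair
    have h2 := cut_isM hf a
    have h3 : IsM G' B (cut f a) := by
      refine ⟨h2.1, fun x hx => ⟨?_, ?_⟩⟩
      · have h4 := h2.2 x hx
        rcases h _ _ h4.1 with h5 | h5
        · exact h5
        · exfalso
          rw [Sym2.eq_iff] at h5
          have h6 := h4.2
          rw [hab, Finset.mem_erase, Finset.mem_erase] at h6
          rcases h5 with h5 | h5
          · exact h6.2.1 h5.1
          · exact h6.1 h5.1
      · exact Finset.mem_of_mem_erase (Finset.mem_of_mem_erase (h2.2 x hx).2)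
    refine (dfc_le h3).trans ?_
    have h4 : unm B (cut f a) ⊆ insert a (insert (f a) (unm B f)) := by
      intro x hx
      rw [mem_unm] at hx
      rw [Finset.mem_insert, Finset.mem_insert, mem_unm]
      by_cases hxa : x = a
      · exact Or.inl hxa
      · by_cases hxv : x = f a
        · exact Or.inr (Or.inl hxv)
        · right; right
          refine ⟨hx.1, ?_⟩
          have h5 := hx.2
          unfold cut at h5
          rwa [if_neg (by push Not; exact ⟨hxa, hxv⟩)] at h5
    have h5 := Finset.card_le_card h4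
    have h6 := Finset.card_insert_le a (insert (f a) (unm B f))
    have h7 := Finset.card_insert_le (f a) (unm B f)
    omega
  · have h3 : IsM G' B f := by
      refine ⟨hf.1, fun x hx => ⟨?_, (hf.2 x hx).2⟩⟩
      rcases h _ _ (hf.2 x hx).1 with h5 | h5
      · exact h5
      · exfalso
        rw [Sym2.eq_iff] at h5
        rcases h5 with h5 | h5
        · exact hab (by rw [← h5.1, h5.2])
        · apply hab
          rw [← h5.2, hf.1]
          exact h5.1
    exact (dfc_le h3).trans (by omega)

/-- relabelling -/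
theorem dfc_relabel_le {G G' : SimpleGraph V} (σ : V ≃ V)
    (h : ∀ x y, G'.Adj x y ↔ G.Adj (σ x) (σ y)) (B : Finset V) :
    dfc G (B.map σ.toEmbedding) ≤ dfc G' B := by
  obtain ⟨f, hf, h1⟩ := exists_dfc G' B
  have h2 : IsM G (B.map σ.toEmbedding) (fun x => σ (f (σ.symm x))) := by
    constructor
    · intro x
      simp [hf.1]
    · intro x hx
      have h3 : f (σ.symm x) ≠ σ.symm x := by
        intro h4
        apply hx
        show σ (f (σ.symm x)) = x
        rw [h4]
        simp
      have h4 := hf.2 _ h3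
      constructor
      · have h5 := (h _ _).mp h4.1
        simpa using h5
      · rw [Finset.mem_map_equiv]
        exact h4.2
  refine (dfc_le h2).trans ?_
  rw [← h1]
  have h3 : unm (B.map σ.toEmbedding) (fun x => σ (f (σ.symm x))) =
      (unm B f).map σ.toEmbedding := by
    ext x
    rw [mem_unm, Finset.mem_map_equiv, Finset.mem_map_equiv, mem_unm]
    constructor
    · rintro ⟨h4, h5⟩
      refine ⟨h4, ?_⟩
      apply σ.injective
      rw [h5]
      simp
    · rintro ⟨h4, h5⟩
      refine ⟨h4, ?_⟩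
      rw [h5]
      simp
  rw [h3, Finset.card_map]

theorem dfc_relabel {G G' : SimpleGraph V} (σ : V ≃ V)
    (h : ∀ x y, G'.Adj x y ↔ G.Adj (σ x) (σ y)) (B : Finset V) :
    dfc G (B.map σ.toEmbedding) = dfc G' B := by
  apply le_antisymm (dfc_relabel_le σ h B)
  have h2 := dfc_relabel_le (G := G') (G' := G) σ.symm (by
    intro x y
    rw [h]
    simp) (B.map σ.toEmbedding)
  have h3 : (B.map σ.toEmbedding).map σ.symm.toEmbedding = B := by
    ext x
    simp
  rwa [h3] at h2

theorem Dv_relabel {G G' : SimpleGraph V} (σ : V ≃ V)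
    (h : ∀ x y, G'.Adj x y ↔ G.Adj (σ x) (σ y)) (B : Finset V) (v : V) :
    Dv G (B.map σ.toEmbedding) (σ v) ↔ Dv G' B v := by
  unfold Dv
  have h2 : (B.map σ.toEmbedding).erase (σ v) = (B.erase v).map σ.toEmbedding := by
    rw [Finset.map_erase]
    rfl
  rw [h2, dfc_relabel σ h, dfc_relabel σ h]

/-- a lower bound for the deficiency -/
theorem card_le_dfc {G : SimpleGraph V} {B L W : Finset V} (hL : L ⊆ B)
    (hW : ∀ v ∈ L, ∀ w ∈ B, G.Adj v w → w ∈ W) : L.card ≤ W.card + dfc G B := by
  obtain ⟨f, hf, h1⟩ := exists_dfc G B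
  rw [← h1]
  have h2 : L.card = (L.filter (fun x => ¬ f x = x)).card + (L.filter (fun x => f x = x)).card := by
    have := Finset.card_filter_add_card_filter_not (s := L) (fun x => f x = x)
    omega
  have h3 : (L.filter (fun x => f x = x)).card ≤ (unm B f).card := by
    apply Finset.card_le_card
    intro x hx
    rw [Finset.mem_filter] at hx
    exact mem_unm.mpr ⟨hL hx.1, hx.2⟩
  have h4 : (L.filter (fun x => ¬ f x = x)).card ≤ W.card := by
    apply Finset.card_le_card_of_injOn f
    · intro x hx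
      rw [Finset.mem_coe, Finset.mem_filter] at hx
      have h5 : f (f x) ≠ f x := by rw [hf.1]; exact fun h => hx.2 h.symm
      exact hW x hx.1 (f x) (hf.2 (f x) h5).2 (hf.2 x hx.2).1
    · intro x _ y _ hxy
      rw [← hf.1 x, hxy, hf.1]
  omega

end Match

end Pool.Agent.H88.PM
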