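import Pool.Agent.H88.PM.Cube
import Pool.Agent.H88.PM.Match

set_option autoImplicit false

/-!
The random graph on the cube `Sym2 V → Bool`.
-/

namespace Pool.Agent.H88.PM

open Finset

section RG

variable {V : Type*} [Fintype V] [DecidableEq V]

omit [Fintype V] [DecidableEq V] in
theorem gr_aux (ω : Sym2 V → Bool) (x y : V) (h : x ≠ y ∧ ω s(x, y) = true) :
    y ≠ x ∧ ω s(y, x) = true := ⟨h.1.symm, by rw [Sym2.eq_swap]; exact h.2⟩

/-- the graph of a configuration -/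
def gr (ω : Sym2 V → Bool) : SimpleGraph V where
  Adj x y := x ≠ y ∧ ω s(x, y) = true
  symm := ⟨fun x y h => gr_aux ω x y h⟩
  loopless := ⟨fun _ h => h.1 rfl⟩

omit [Fintype V] [DecidableEq V] in
theorem gr_adj (ω : Sym2 V → Bool) (x y : V) : (gr ω).Adj x y ↔ x ≠ y ∧ ω s(x, y) = true :=
  Iff.rfl

omit [Fintype V] [DecidableEq V] in
theorem gr_congr {ω₁ ω₂ : Sym2 V → Bool} {B : Finset V}
    (h : ∀ x ∈ B, ∀ y ∈ B, ω₁ s(x, y) = ω₂ s(x, y)) :
    ∀ x ∈ B, ∀ y ∈ B, (gr ω₁).Adj x y ↔ (gr ω₂).Adj x y := by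
  intro x hx y hy
  rw [gr_adj, gr_adj, h x hx y hy]

open Classical in
/-- the vertices of `B` for which the truncated recursion holds -/
noncomputable def Tk (G : SimpleGraph V) (k : ℕ) (B : Finset V) : Finset V := B.filter (tr G k B)

open Classical in
/-- the vertices of `B` missed by some maximum matching -/
noncomputable def DD (G : SimpleGraph V) (B : Finset V) : Finset V := B.filter (Dv G B)

omit [Fintype V] in
theorem mem_Tk {G : SimpleGraph V} {k : ℕ} {B : Finset V} {v : V} :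
    v ∈ Tk G k B ↔ v ∈ B ∧ tr G k B v := by
  simp [Tk]

omit [Fintype V] in
theorem Tk_sub (G : SimpleGraph V) (k : ℕ) (B : Finset V) : Tk G k B ⊆ B :=
  fun _ hv => (mem_Tk.mp hv).1

omit [Fintype V] in
theorem mem_DD {G : SimpleGraph V} {B : Finset V} {v : V} :
    v ∈ DD G B ↔ v ∈ B ∧ Dv G B v := by
  simp [DD]

omit [Fintype V] in
theorem DD_sub (G : SimpleGraph V) (B : Finset V) : DD G B ⊆ B :=
  fun _ hv => (mem_DD.mp hv).1

omit [Fintype V] in
theorem card_Tk (G : SimpleGraph V) (k : ℕ) (B : Finset V) :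
    ((Tk G k B).card : ℝ) = ∑ v ∈ B, ind (tr G k B v) := by
  classical
  unfold Tk ind
  rw [Finset.card_filter]
  push_cast
  rfl

omit [Fintype V] in
theorem card_DD (G : SimpleGraph V) (B : Finset V) :
    ((DD G B).card : ℝ) = ∑ v ∈ B, ind (Dv G B v) := by
  classical
  unfold DD ind
  rw [Finset.card_filter]
  push_cast
  rfl

omit [Fintype V] in
theorem Tk_congr {ω₁ ω₂ : Sym2 V → Bool} {B : Finset V} (k : ℕ)
    (h : ∀ x ∈ B, ∀ y ∈ B, ω₁ s(x, y) = ω₂ s(x, y)) : Tk (gr ω₁) k B = Tk (gr ω₂) k B := by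
  ext v
  rw [mem_Tk, mem_Tk]
  constructor
  · rintro ⟨h1, h2⟩
    exact ⟨h1, (tr_congr k B v h1 (gr_congr h)).mp h2⟩
  · rintro ⟨h1, h2⟩
    exact ⟨h1, (tr_congr k B v h1 (gr_congr h)).mpr h2⟩

omit [Fintype V] in
theorem DD_congr {ω₁ ω₂ : Sym2 V → Bool} {B : Finset V}
    (h : ∀ x ∈ B, ∀ y ∈ B, ω₁ s(x, y) = ω₂ s(x, y)) : DD (gr ω₁) B = DD (gr ω₂) B := by
  ext v
  rw [mem_DD, mem_DD, Dv_congr (gr_congr h)]

omit [Fintype V] in
theorem tr_succ_iff (G : SimpleGraph V) (k : ℕ) (B : Finset V) (v : V) :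
    tr G (k + 1) B v ↔ ∀ w ∈ Tk G k (B.erase v), ¬ G.Adj v w := by
  rw [tr_succ]
  constructor
  · intro h w hw hvw
    rw [mem_Tk] at hw
    exact h w hw.1 hvw hw.2
  · intro h w hw hvw h2
    exact h w (mem_Tk.mpr ⟨hw, h2⟩) hvw

omit [Fintype V] in
theorem Dv_iff_DD {G : SimpleGraph V} {B : Finset V} {v : V} (hv : v ∈ B) :
    Dv G B v ↔ ∀ w ∈ DD G (B.erase v), ¬ G.Adj v w := by
  rw [Dv_iff hv]
  constructor
  · intro h w hw hvw
    rw [mem_DD] at hw
    exact h w hw.1 hvw hw.2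
  · intro h w hw hvw h2
    exact h w (mem_DD.mpr ⟨hw, h2⟩) hvw

theorem cP_false {ι : Type*} [Fintype ι] (p : ℝ) {A : (ι → Bool) → Prop} (h : ∀ ω, ¬ A ω) :
    cP p A = 0 := by
  classical
  rw [cP_def, cE_congr p (g := fun _ => 0) (fun ω => if_neg (h ω)), cE_const]

/-- decoupling the edges between `K` and `B` from the edges inside `B` -/
theorem cE_star {α : Type*} (p : ℝ) (K B : Finset V) (hKB : Disjoint K B)
    (T : (Sym2 V → Bool) → α)
    (hT : ∀ ω₁ ω₂ : Sym2 V → Bool, (∀ x ∈ B, ∀ y ∈ B, ω₁ s(x, y) = ω₂ s(x, y)) → T ω₁ = T ω₂)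
    (φ : α → (Sym2 V → Bool) → ℝ)
    (hφ : ∀ (ω : Sym2 V → Bool) (ω₁ ω₂ : Sym2 V → Bool),
      (∀ x ∈ K, ∀ y ∈ B, ω₁ s(x, y) = ω₂ s(x, y)) → φ (T ω) ω₁ = φ (T ω) ω₂) :
    cE p (fun ω => φ (T ω) ω) = cE p (fun ω => cE p (fun ω' => φ (T ω) ω')) := by
  apply cE_decouple p (fun e => ∃ x ∈ K, ∃ y ∈ B, e = s(x, y)) (fun ω ω' => φ (T ω) ω')
  · intro ω₁ ω₂ ω' h
    rw [hT ω₁ ω₂]
    intro x hx y hy
    apply h
    rintro ⟨a, ha, b, hb, hab⟩
    rw [Sym2.eq_iff] at hab
    have hd := Finset.disjoint_left.mp hKB ha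
    rcases hab with hab | hab
    · exact hd (hab.1 ▸ hx)
    · exact hd (hab.2 ▸ hy)
  · intro ω ω₁ ω₂ h
    apply hφ
    intro x hx y hy
    exact h _ ⟨x, hx, y, hy, rfl⟩

theorem cP_edge (p : ℝ) (e : Sym2 V) : cP p (fun ω : Sym2 V → Bool => ω e = true) = p := by
  rw [cP_congr p (B := fun ω => ¬ (∀ i ∈ ({e} : Finset (Sym2 V)), ω i = false))
    (fun ω => by simp), cP_not, cP_all_false]
  simp

theorem cP_adj {p : ℝ} (h0 : 0 ≤ p) (h1 : p ≤ 1) (x y : V) :
    cP p (fun ω : Sym2 V → Bool => (gr ω).Adj x y) ≤ p := by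
  refine (cP_mono h0 h1 (B := fun ω => ω s(x, y) = true) (fun ω h => h.2)).trans ?_
  rw [cP_edge]

theorem cP_none (p : ℝ) (v : V) (S : Finset V) (hv : v ∉ S) :
    cP p (fun ω : Sym2 V → Bool => ∀ w ∈ S, ¬ (gr ω).Adj v w) = (1 - p) ^ S.card := by
  have h2 : (S.image (fun w => s(v, w))).card = S.card := by
    apply Finset.card_image_of_injective
    intro a b hab
    exact Sym2.congr_right.mp hab
  rw [← h2, ← cP_all_false]
  apply cP_congr
  intro ω
  constructor
  · intro h e he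
    rw [Finset.mem_image] at he
    obtain ⟨w, hw, rfl⟩ := he
    have h3 := h w hw
    rw [gr_adj] at h3
    have h4 : v ≠ w := fun h5 => hv (h5 ▸ hw)
    have h5 : ¬ ω s(v, w) = true := fun h6 => h3 ⟨h4, h6⟩
    simpa using h5
  · intro h w hw h3
    have h4 := h _ (Finset.mem_image_of_mem _ hw)
    rw [gr_adj] at h3
    rw [h3.2] at h4
    exact Bool.noConfusion h4

/-- probability that two different vertices send no edge to `S` -/
theorem cE_two (p x : ℝ) (v u : V) (S : Finset V) (hv : v ∉ S) (hu : u ∉ S) (hvu : v ≠ u) :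
    cE p (fun ω : Sym2 V → Bool =>
      (ind (∀ w ∈ S, ¬ (gr ω).Adj v w) - x) * (ind (∀ w ∈ S, ¬ (gr ω).Adj u w) - x)) =
      ((1 - p) ^ S.card - x) ^ 2 := by
  rw [cE_indep p (fun e => ∃ w ∈ S, e = s(u, w))]
  · rw [cE_sub, cE_sub, cE_const]
    have h1 := cP_none p v S hv
    have h2 := cP_none p u S hu
    rw [cP_eq] at h1 h2
    rw [h1, h2]
    ring
  · intro ω₁ ω₂ h
    congr 2
    apply propext
    refine forall_congr' fun w => forall_congr' fun hw => ?_
    rw [gr_adj, gr_adj, h s(v, w)]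
    rintro ⟨w', hw', he⟩
    rw [Sym2.eq_iff] at he
    rcases he with he | he
    · exact hvu he.1
    · exact hv (he.1 ▸ hw')
  · intro ω₁ ω₂ h
    congr 2
    apply propext
    refine forall_congr' fun w => forall_congr' fun hw => ?_
    rw [gr_adj, gr_adj, h s(u, w) ⟨w, hw, rfl⟩]

/-- the probability that the truncated recursion holds -/
theorem cP_tr_succ (p : ℝ) (k : ℕ) (B : Finset V) (v : V) :
    cP p (fun ω : Sym2 V → Bool => tr (gr ω) (k + 1) B v) =
      cE p (fun ω : Sym2 V → Bool => (1 - p) ^ (Tk (gr ω) k (B.erase v)).card) := by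
  classical
  rw [cP_congr p (fun ω => tr_succ_iff (gr ω) k B v), cP_def]
  rw [cE_star p {v} (B.erase v) (by simp) (fun ω => Tk (gr ω) k (B.erase v))
    (fun ω₁ ω₂ h => Tk_congr k h)
    (fun T ω => if ∀ w ∈ T, ¬ (gr ω).Adj v w then (1:ℝ) else 0)]
  · apply cE_congr
    intro ω
    rw [← cP_def, cP_none]
    intro h
    rw [mem_Tk] at h
    simp at h
  · intro ω ω₁ ω₂ h
    congr 1
    apply propext
    refine forall_congr' fun w => forall_congr' fun hw => ?_
    rw [mem_Tk] at hw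
    rw [gr_adj, gr_adj, h v (by simp) w hw.1]

/-- the probability that `v` is missed by some maximum matching -/
theorem cP_Dv (p : ℝ) (B : Finset V) (v : V) (hv : v ∈ B) :
    cP p (fun ω : Sym2 V → Bool => Dv (gr ω) B v) =
      cE p (fun ω : Sym2 V → Bool => (1 - p) ^ (DD (gr ω) (B.erase v)).card) := by
  classical
  rw [cP_congr p (fun ω => Dv_iff_DD (G := gr ω) hv), cP_def]
  rw [cE_star p {v} (B.erase v) (by simp) (fun ω => DD (gr ω) (B.erase v))
    (fun ω₁ ω₂ h => DD_congr h)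
    (fun T ω => if ∀ w ∈ T, ¬ (gr ω).Adj v w then (1:ℝ) else 0)]
  · apply cE_congr
    intro ω
    rw [← cP_def, cP_none]
    intro h
    rw [mem_DD] at h
    simp at h
  · intro ω ω₁ ω₂ h
    congr 1
    apply propext
    refine forall_congr' fun w => forall_congr' fun hw => ?_
    rw [mem_DD] at hw
    rw [gr_adj, gr_adj, h v (by simp) w hw.1]

/-- two vertices: the decoupled covariance -/
theorem cE_tr_two (p x : ℝ) (k : ℕ) (B : Finset V) (v u : V) (hvu : v ≠ u) :
    cE p (fun ω : Sym2 V → Bool =>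
      (ind (tr (gr ω) (k + 1) (B.erase u) v) - x) * (ind (tr (gr ω) (k + 1) (B.erase v) u) - x)) =
      cE p (fun ω : Sym2 V → Bool =>
        ((1 - p) ^ (Tk (gr ω) k ((B.erase v).erase u)).card - x) ^ 2) := by
  have h1 : ∀ ω : Sym2 V → Bool, tr (gr ω) (k + 1) (B.erase u) v ↔
      ∀ w ∈ Tk (gr ω) k ((B.erase v).erase u), ¬ (gr ω).Adj v w := by
    intro ω
    rw [tr_succ_iff, Finset.erase_right_comm]
  have h2 : ∀ ω : Sym2 V → Bool, tr (gr ω) (k + 1) (B.erase v) u ↔
      ∀ w ∈ Tk (gr ω) k ((B.erase v).erase u), ¬ (gr ω).Adj u w := by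
    intro ω
    rw [tr_succ_iff]
  have h3 : ∀ ω : Sym2 V → Bool,
      (ind (tr (gr ω) (k + 1) (B.erase u) v) - x) *
      (ind (tr (gr ω) (k + 1) (B.erase v) u) - x) =
      (ind (∀ w ∈ Tk (gr ω) k ((B.erase v).erase u), ¬ (gr ω).Adj v w) - x) *
      (ind (∀ w ∈ Tk (gr ω) k ((B.erase v).erase u), ¬ (gr ω).Adj u w) - x) := by
    intro ω
    rw [ind_congr (h1 ω), ind_congr (h2 ω)]
  rw [cE_congr p h3]
  have hdis : Disjoint ({v, u} : Finset V) ((B.erase v).erase u) := by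
    rw [Finset.disjoint_left]
    intro a ha hb
    rw [Finset.mem_erase, Finset.mem_erase] at hb
    rw [Finset.mem_insert, Finset.mem_singleton] at ha
    rcases ha with ha | ha
    · exact hb.2.1 ha
    · exact hb.1 ha
  rw [cE_star p {v, u} ((B.erase v).erase u) hdis (fun ω => Tk (gr ω) k ((B.erase v).erase u))
    (fun ω₁ ω₂ h => Tk_congr k h)
    (fun T ω => (ind (∀ w ∈ T, ¬ (gr ω).Adj v w) - x) *
      (ind (∀ w ∈ T, ¬ (gr ω).Adj u w) - x))]
  · apply cE_congr
    intro ω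
    rw [cE_two p x v u _ _ _ hvu]
    · intro h
      rw [mem_Tk] at h
      simp at h
    · intro h
      rw [mem_Tk] at h
      simp at h
  · intro ω ω₁ ω₂ h
    have e1 : (∀ w ∈ Tk (gr ω) k ((B.erase v).erase u), ¬ (gr ω₁).Adj v w) ↔
        (∀ w ∈ Tk (gr ω) k ((B.erase v).erase u), ¬ (gr ω₂).Adj v w) := by
      refine forall_congr' fun w => forall_congr' fun hw => ?_
      rw [mem_Tk] at hw
      rw [gr_adj, gr_adj, h v (by simp) w hw.1]
    have e2 : (∀ w ∈ Tk (gr ω) k ((B.erase v).erase u), ¬ (gr ω₁).Adj u w) ↔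
        (∀ w ∈ Tk (gr ω) k ((B.erase v).erase u), ¬ (gr ω₂).Adj u w) := by
      refine forall_congr' fun w => forall_congr' fun hw => ?_
      rw [mem_Tk] at hw
      rw [gr_adj, gr_adj, h u (by simp) w hw.1]
    simp only [e1, e2]

omit [Fintype V] in
theorem tr_diff (G : SimpleGraph V) (k : ℕ) (B : Finset V) (v u : V)
    (h : ¬ (tr G (k + 1) B v ↔ tr G (k + 1) (B.erase u) v)) :
    G.Adj v u ∨ ∃ x ∈ (B.erase v).erase u, G.Adj v x ∧
      ¬ (tr G k (B.erase v) x ↔ tr G k ((B.erase v).erase u) x) := by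
  by_contra hcon
  push Not at hcon
  obtain ⟨h1, h2⟩ := hcon
  apply h
  rw [tr_succ, tr_succ]
  constructor
  · intro h3 w hw hvw
    rw [Finset.erase_right_comm] at hw ⊢
    rw [← h2 w hw hvw]
    exact h3 w (Finset.mem_of_mem_erase hw) hvw
  · intro h3 w hw hvw
    have hwu : w ≠ u := by
      rintro rfl
      exact h1 hvw
    have hw2 : w ∈ (B.erase v).erase u := Finset.mem_erase.mpr ⟨hwu, hw⟩
    rw [h2 w hw2 hvw]
    rw [Finset.erase_right_comm] at h3
    exact h3 w hw2 hvw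

/-- locality of the truncated recursion -/
theorem cP_tr_diff {p c : ℝ} (h0 : 0 ≤ p) (h1 : p ≤ 1) (hc : 0 ≤ c) (k : ℕ) :
    ∀ (B : Finset V) (v u : V), p * B.card ≤ c → v ∈ B → v ≠ u →
    cP p (fun ω : Sym2 V → Bool => ¬ (tr (gr ω) k B v ↔ tr (gr ω) k (B.erase u) v))
      ≤ p * (1 + c) ^ k := by
  induction k with
  | zero =>
    intro B v u _ _ _
    rw [cP_false p (fun ω h => h Iff.rfl)]
    simpa using h0
  | succ k ih =>
    intro B v u hB hv hvu
    have hB2 : p * (B.erase v).card ≤ c := by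
      refine le_trans ?_ hB
      apply mul_le_mul_of_nonneg_left _ h0
      exact_mod_cast Finset.card_le_card (Finset.erase_subset _ _)
    refine (cP_mono h0 h1 (fun ω h => tr_diff (gr ω) k B v u h)).trans ?_
    refine (cP_or_le h0 h1 _ _).trans ?_
    have h2 := cP_adj h0 h1 v u
    have h3 := cP_exists_le ((B.erase v).erase u) h0 h1 (fun x (ω : Sym2 V → Bool) =>
      (gr ω).Adj v x ∧ ¬ (tr (gr ω) k (B.erase v) x ↔ tr (gr ω) k ((B.erase v).erase u) x))
    have h4 : ∀ x ∈ (B.erase v).erase u, cP p (fun ω : Sym2 V → Bool =>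
        (gr ω).Adj v x ∧ ¬ (tr (gr ω) k (B.erase v) x ↔ tr (gr ω) k ((B.erase v).erase u) x))
        ≤ p * (p * (1 + c) ^ k) := by
      intro x hx
      have hxB := Finset.mem_of_mem_erase hx
      have hxu : x ≠ u := (Finset.mem_erase.mp hx).1
      have h5 := cP_indep p (fun e => e ≠ s(v, x)) (fun ω : Sym2 V → Bool => (gr ω).Adj v x)
        (fun ω => ¬ (tr (gr ω) k (B.erase v) x ↔ tr (gr ω) k ((B.erase v).erase u) x)) ?_ ?_
      · rw [h5]
        exact mul_le_mul (cP_adj h0 h1 v x) (ih (B.erase v) x u hB2 hxB hxu)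
          (cP_nonneg h0 h1 _) h0
      · intro ω₁ ω₂ h
        rw [gr_adj, gr_adj, h s(v, x) (by simp)]
      · intro ω₁ ω₂ h
        have h6 : ∀ a ∈ B.erase v, ∀ b ∈ B.erase v, ω₁ s(a, b) = ω₂ s(a, b) := by
          intro a ha b hb
          apply h
          intro hab
          rw [Sym2.eq_iff] at hab
          rw [Finset.mem_erase] at ha hb
          rcases hab with hab | hab
          · exact ha.1 hab.1
          · exact hb.1 hab.2
        rw [tr_congr k (B.erase v) x hxB (gr_congr h6),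
          tr_congr k ((B.erase v).erase u) x hx (gr_congr (fun a ha b hb =>
            h6 a (Finset.mem_of_mem_erase ha) b (Finset.mem_of_mem_erase hb)))]
    have h5 := h3.trans (Finset.sum_le_card_nsmul _ _ _ h4)
    rw [nsmul_eq_mul] at h5
    have h6 : (((B.erase v).erase u).card : ℝ) ≤ B.card := by
      exact_mod_cast Finset.card_le_card ((Finset.erase_subset _ _).trans (Finset.erase_subset _ _))
    have h7 : (((B.erase v).erase u).card : ℝ) * (p * (p * (1 + c) ^ k)) ≤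
        c * (p * (1 + c) ^ k) := by
      have h8 : (0:ℝ) ≤ p * (1 + c) ^ k := by positivity
      calc (((B.erase v).erase u).card : ℝ) * (p * (p * (1 + c) ^ k))
          ≤ (B.card : ℝ) * (p * (p * (1 + c) ^ k)) := by
            apply mul_le_mul_of_nonneg_right h6 (by positivity)
        _ = (p * B.card) * (p * (1 + c) ^ k) := by ring
        _ ≤ c * (p * (1 + c) ^ k) := mul_le_mul_of_nonneg_right hB h8
    have h9 : (1:ℝ) ≤ (1 + c) ^ k := one_le_pow₀ (by linarith)
    have h10 : p * (1 + c) ^ (k + 1) = p * (1 + c) ^ k + c * (p * (1 + c) ^ k) := by ring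
    rw [h10]
    have h11 : p ≤ p * (1 + c) ^ k := le_mul_of_one_le_right h0 h9
    linarith

end RG

end Pool.Agent.H88.PM
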