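import Pool.Agent.H88.PM.Conc

set_option autoImplicit false

/-!
Lower bound for the expected deficiency.
-/

namespace Pool.Agent.H88.PM

open Finset

theorem conc1 {c : ℝ} (hc : 0 ≤ c) (k : ℕ) : ∃ C : ℝ, 0 ≤ C ∧
    ∀ (V : Type) [Fintype V] [DecidableEq V] (B : Finset V) (p : ℝ), 0 ≤ p → p ≤ 1 →
      p * B.card ≤ c →
      cE p (fun ω : Sym2 V → Bool =>
        |((Tk (gr ω) k B).card : ℝ) - B.card * xs k (p * B.card)|) ≤ C * Real.sqrt B.card := by
  obtain ⟨C, hC, h⟩ := conc hc k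
  refine ⟨Real.sqrt C, Real.sqrt_nonneg _, ?_⟩
  intro V _ _ B p h0 h1 hB
  have h2 := h V B p h0 h1 hB
  have h3 := cE_sq_le h0 h1 (fun ω : Sym2 V → Bool =>
    |((Tk (gr ω) k B).card : ℝ) - B.card * xs k (p * B.card)|)
  have h4 : ∀ ω : Sym2 V → Bool,
      |((Tk (gr ω) k B).card : ℝ) - B.card * xs k (p * B.card)| ^ 2 =
      (((Tk (gr ω) k B).card : ℝ) - B.card * xs k (p * B.card)) ^ 2 := fun ω => sq_abs _
  rw [cE_congr p h4] at h3
  rw [← Real.sqrt_mul hC]
  apply Real.le_sqrt_of_sq_le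
  exact h3.trans h2

section

variable {V : Type*} [Fintype V] [DecidableEq V]

/-- exactly one neighbour -/
theorem cP_only (p : ℝ) (v : V) (S : Finset V) (hv : v ∉ S) (u : V) (hu : u ∈ S) :
    cP p (fun ω : Sym2 V → Bool => (gr ω).Adj v u ∧ ∀ w ∈ S.erase u, ¬ (gr ω).Adj v w) =
      p * (1 - p) ^ (S.card - 1) := by
  rw [cP_indep p (fun e => e ≠ s(v, u))]
  · have h1 : cP p (fun ω : Sym2 V → Bool => (gr ω).Adj v u) = p := by
      have h2 : v ≠ u := fun h => hv (h ▸ hu)
      rw [cP_congr p (B := fun ω : Sym2 V → Bool => ω s(v, u) = true)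
        (fun ω => by rw [gr_adj]; simp [h2]), cP_edge]
    rw [h1, cP_none p v _ (fun h => hv (Finset.mem_of_mem_erase h)), Finset.card_erase_of_mem hu]
  · intro ω₁ ω₂ h
    rw [gr_adj, gr_adj, h s(v, u) (by simp)]
  · intro ω₁ ω₂ h
    refine forall_congr' fun w => forall_congr' fun hw => ?_
    rw [gr_adj, gr_adj, h s(v, w)]
    intro he
    rw [Sym2.congr_right] at he
    exact (Finset.mem_erase.mp hw).1 he

/-- at least two neighbours -/
theorem cP_two_le {p : ℝ} (h0 : 0 ≤ p) (h1 : p ≤ 1) (v : V) (S : Finset V) (hv : v ∉ S) :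
    cP p (fun ω : Sym2 V → Bool => ∃ a ∈ S, ∃ b ∈ S, a ≠ b ∧ (gr ω).Adj v a ∧ (gr ω).Adj v b) ≤
      1 - (1 - p) ^ S.card - S.card * (p * (1 - p) ^ (S.card - 1)) := by
  have h2 : ∀ ω : Sym2 V → Bool,
      ind (∃ a ∈ S, ∃ b ∈ S, a ≠ b ∧ (gr ω).Adj v a ∧ (gr ω).Adj v b) ≤
      (1 - ind (∀ w ∈ S, ¬ (gr ω).Adj v w)) -
        ∑ u ∈ S, ind ((gr ω).Adj v u ∧ ∀ w ∈ S.erase u, ¬ (gr ω).Adj v w) := by
    intro ω
    by_cases hn : ∀ w ∈ S, ¬ (gr ω).Adj v w
    · rw [ind_pos hn]
      have e1 : ∑ u ∈ S, ind ((gr ω).Adj v u ∧ ∀ w ∈ S.erase u, ¬ (gr ω).Adj v w) = 0 := by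
        apply Finset.sum_eq_zero
        intro u hu
        exact ind_neg (fun h => hn u hu h.1)
      rw [e1, ind_neg]
      · norm_num
      · rintro ⟨a, ha, b, hb, _, h3, _⟩
        exact hn a ha h3
    · rw [ind_neg hn]
      by_cases ho : ∃ u ∈ S, ((gr ω).Adj v u ∧ ∀ w ∈ S.erase u, ¬ (gr ω).Adj v w)
      · obtain ⟨u, hu, h3, h4⟩ := ho
        have e1 : ∑ u' ∈ S, ind ((gr ω).Adj v u' ∧ ∀ w ∈ S.erase u', ¬ (gr ω).Adj v w) = 1 := by
          rw [Finset.sum_eq_single u]
          · exact ind_pos ⟨h3, h4⟩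
          · intro u' hu' hne
            apply ind_neg
            intro h5
            exact h4 u' (Finset.mem_erase.mpr ⟨hne, hu'⟩) h5.1
          · intro h; exact absurd hu h
        rw [e1, ind_neg]
        · norm_num
        · rintro ⟨a, ha, b, hb, hab, h5, h6⟩
          by_cases hau : a = u
          · have hbu : b ≠ u := fun h => hab (hau.trans h.symm)
            exact h4 b (Finset.mem_erase.mpr ⟨hbu, hb⟩) h6
          · exact h4 a (Finset.mem_erase.mpr ⟨hau, ha⟩) h5
      · have e1 : ∑ u' ∈ S, ind ((gr ω).Adj v u' ∧ ∀ w ∈ S.erase u', ¬ (gr ω).Adj v w) = 0 := by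
          apply Finset.sum_eq_zero
          intro u hu
          exact ind_neg (fun h => ho ⟨u, hu, h⟩)
        rw [e1]
        have := ind_le_one (∃ a ∈ S, ∃ b ∈ S, a ≠ b ∧ (gr ω).Adj v a ∧ (gr ω).Adj v b)
        linarith
  have h3 := cE_mono h0 h1 h2
  rw [cE_sub, cE_sub, cE_const, cE_sum, ← cP_eq, ← cP_eq, cP_none p v S hv] at h3
  refine h3.trans (le_of_eq ?_)
  congr 1
  have h4 : ∀ u ∈ S, cE p (fun ω : Sym2 V → Bool =>
      ind ((gr ω).Adj v u ∧ ∀ w ∈ S.erase u, ¬ (gr ω).Adj v w)) = p * (1 - p) ^ (S.card - 1) := by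
    intro u hu
    rw [← cP_eq, cP_only p v S hv u hu]
  rw [Finset.sum_congr rfl h4, Finset.sum_const, nsmul_eq_mul]

/-- the exceptional event -/
def BadE (G : SimpleGraph V) (k : ℕ) (B : Finset V) (a b : V) : Prop :=
  G.Adj a b ∧ ∃ x ∈ (B.erase a).erase b, G.Adj a x ∧
    ¬ (tr G k (B.erase a) x ↔ tr G k ((B.erase a).erase b) x)

theorem cP_BadE {p c : ℝ} (h0 : 0 ≤ p) (h1 : p ≤ 1) (hc : 0 ≤ c) (k : ℕ) (B : Finset V) (a b : V)
    (hB : p * B.card ≤ c) :
    cP p (fun ω : Sym2 V → Bool => BadE (gr ω) k B a b) ≤ p ^ 2 * (c * (1 + c) ^ k) := by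
  have hB2 : p * (B.erase a).card ≤ c := by
    refine le_trans ?_ hB
    apply mul_le_mul_of_nonneg_left _ h0
    exact_mod_cast Finset.card_le_card (Finset.erase_subset _ _)
  have e1 : cP p (fun ω : Sym2 V → Bool => BadE (gr ω) k B a b) ≤
      cP p (fun ω : Sym2 V → Bool => ∃ x ∈ (B.erase a).erase b, (gr ω).Adj a b ∧ ((gr ω).Adj a x ∧
        ¬ (tr (gr ω) k (B.erase a) x ↔ tr (gr ω) k ((B.erase a).erase b) x))) := by
    apply cP_mono h0 h1
    rintro ω ⟨h2, x, hx, h3⟩
    exact ⟨x, hx, h2, h3⟩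
  have e2 := cP_exists_le ((B.erase a).erase b) h0 h1 (fun x (ω : Sym2 V → Bool) =>
      (gr ω).Adj a b ∧ ((gr ω).Adj a x ∧
        ¬ (tr (gr ω) k (B.erase a) x ↔ tr (gr ω) k ((B.erase a).erase b) x)))
  have e3 : ∀ x ∈ (B.erase a).erase b, cP p (fun ω : Sym2 V → Bool =>
      (gr ω).Adj a b ∧ ((gr ω).Adj a x ∧
        ¬ (tr (gr ω) k (B.erase a) x ↔ tr (gr ω) k ((B.erase a).erase b) x))) ≤
        p * (p * (p * (1 + c) ^ k)) := by
    intro x hx
    have hxB := Finset.mem_of_mem_erase hx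
    have hxb : x ≠ b := (Finset.mem_erase.mp hx).1
    have hxa : x ≠ a := (Finset.mem_erase.mp hxB).1
    have hloc : ∀ ω₁ ω₂ : Sym2 V → Bool, (∀ y ∈ B.erase a, ∀ z ∈ B.erase a,
        ω₁ s(y, z) = ω₂ s(y, z)) →
        ((¬ (tr (gr ω₁) k (B.erase a) x ↔ tr (gr ω₁) k ((B.erase a).erase b) x)) ↔
        (¬ (tr (gr ω₂) k (B.erase a) x ↔ tr (gr ω₂) k ((B.erase a).erase b) x))) := by
      intro ω₁ ω₂ h6
      rw [tr_congr k (B.erase a) x hxB (gr_congr h6),
          tr_congr k ((B.erase a).erase b) x hx (gr_congr (fun a ha b hb =>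
            h6 a (Finset.mem_of_mem_erase ha) b (Finset.mem_of_mem_erase hb)))]
    rw [cP_indep p (fun e => e ≠ s(a, b)) (fun ω : Sym2 V → Bool => (gr ω).Adj a b)]
    · apply mul_le_mul (cP_adj h0 h1 a b) _ (cP_nonneg h0 h1 _) h0
      rw [cP_indep p (fun e => e ≠ s(a, x)) (fun ω : Sym2 V → Bool => (gr ω).Adj a x)]
      · exact mul_le_mul (cP_adj h0 h1 a x) (cP_tr_diff h0 h1 hc k (B.erase a) x b hB2 hxB hxb)
          (cP_nonneg h0 h1 _) h0
      · intro ω₁ ω₂ h
        rw [gr_adj, gr_adj, h s(a, x) (by simp)]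
      · intro ω₁ ω₂ h
        apply hloc
        intro y hy z hz
        apply h
        intro hab
        rw [Sym2.eq_iff] at hab
        rw [Finset.mem_erase] at hy hz
        rcases hab with hab | hab
        · exact hy.1 hab.1
        · exact hz.1 hab.2
    · intro ω₁ ω₂ h
      rw [gr_adj, gr_adj, h s(a, b) (by simp)]
    · intro ω₁ ω₂ h
      rw [hloc ω₁ ω₂, gr_adj, gr_adj, h s(a, x)]
      · intro hab
        rw [Sym2.congr_right] at hab
        exact hxb hab
      · intro y hy z hz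
        apply h
        intro hab
        rw [Sym2.eq_iff] at hab
        rw [Finset.mem_erase] at hy hz
        rcases hab with hab | hab
        · exact hy.1 hab.1
        · exact hz.1 hab.2
  have e4 := (e1.trans e2).trans (Finset.sum_le_card_nsmul _ _ _ e3)
  rw [nsmul_eq_mul] at e4
  refine e4.trans ?_
  have h6 : (((B.erase a).erase b).card : ℝ) ≤ B.card := by
    exact_mod_cast Finset.card_le_card ((Finset.erase_subset _ _).trans (Finset.erase_subset _ _))
  have h8 : (0:ℝ) ≤ p * (p * (1 + c) ^ k) := by positivity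
  calc (((B.erase a).erase b).card : ℝ) * (p * (p * (p * (1 + c) ^ k)))
      ≤ (B.card : ℝ) * (p * (p * (p * (1 + c) ^ k))) :=
        mul_le_mul_of_nonneg_right h6 (by positivity)
    _ = (p * B.card) * (p * (p * (1 + c) ^ k)) := by ring
    _ ≤ c * (p * (p * (1 + c) ^ k)) := mul_le_mul_of_nonneg_right hB h8
    _ = p ^ 2 * (c * (1 + c) ^ k) := by ring

/-- vertices with two neighbours satisfying the odd recursion -/
def InW (G : SimpleGraph V) (i : ℕ) (B : Finset V) (w : V) : Prop :=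
  ∃ a ∈ Tk G (2 * i + 1) (B.erase w), ∃ b ∈ Tk G (2 * i + 1) (B.erase w), a ≠ b ∧
    G.Adj w a ∧ G.Adj w b

omit [Fintype V] in
theorem bad_cases (G : SimpleGraph V) (i : ℕ) (B : Finset V) (v w : V) (hv : v ∈ B) (hw : w ∈ B)
    (hL : tr G (2 * i + 1) B v) (hvw : G.Adj v w) (hW : ¬ InW G i B w) :
    BadE G (2 * i) B v w ∨ BadE G (2 * i + 1) B w v := by
  by_contra hcon
  push Not at hcon
  obtain ⟨h1, h2⟩ := hcon
  apply hW
  have hne : v ≠ w := hvw.ne
  -- `v` satisfies the recursion in `B.erase w`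
  have hv2 : tr G (2 * i + 1) (B.erase w) v := by
    rw [tr_succ]
    intro x hx hvx
    rw [Finset.erase_right_comm] at hx ⊢
    intro h3
    apply h1
    refine ⟨hvw, x, hx, hvx, ?_⟩
    intro h4
    exact hL x (Finset.mem_of_mem_erase hx) hvx (h4.mpr h3)
  have hvm : v ∈ Tk G (2 * i + 1) (B.erase w) :=
    mem_Tk.mpr ⟨Finset.mem_erase.mpr ⟨hne, hv⟩, hv2⟩
  have h3 := hL w (Finset.mem_erase.mpr ⟨hne.symm, hw⟩) hvw
  cases i with
  | zero => exact absurd trivial h3
  | succ i =>
    rw [show 2 * (i + 1) = (2 * i + 1) + 1 by ring, tr_succ] at h3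
    push Not at h3
    obtain ⟨x, hx, hwx, h4⟩ := h3
    have h5 : tr G (2 * (i + 1) + 1) ((B.erase v).erase w) x := (tr_level G i).2 _ _ hx h4
    refine ⟨v, hvm, x, ?_, ?_, hvw.symm, hwx⟩
    · rw [mem_Tk]
      have hx2 : x ∈ (B.erase w).erase v := by rwa [Finset.erase_right_comm] at hx
      refine ⟨Finset.mem_of_mem_erase hx2, ?_⟩
      by_contra h6
      apply h2
      refine ⟨hvw.symm, x, hx2, hwx, ?_⟩
      intro h7
      apply h6
      rw [h7, Finset.erase_right_comm]
      exact h5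
    · rintro rfl
      simp at hx

omit [Fintype V] in
/-- the deterministic inequality -/
theorem Tk_le (G : SimpleGraph V) (i : ℕ) (B : Finset V) :
    ((Tk G (2 * i + 1) B).card : ℝ) ≤ (∑ w ∈ B, ind (InW G i B w)) + dfc G B +
      ∑ v ∈ B, ∑ w ∈ B, (ind (BadE G (2 * i) B v w) + ind (BadE G (2 * i + 1) B w v)) := by
  classical
  set W : Finset V := B.filter (fun w => InW G i B w) with hW
  set bad : Finset V := (Tk G (2 * i + 1) B).filter (fun v => ∃ w ∈ B, G.Adj v w ∧ ¬ InW G i B w)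
    with hbad
  set L : Finset V := (Tk G (2 * i + 1) B).filter
    (fun v => ¬ ∃ w ∈ B, G.Adj v w ∧ ¬ InW G i B w) with hL
  have h1 : (Tk G (2 * i + 1) B).card = bad.card + L.card :=
    (Finset.card_filter_add_card_filter_not _).symm
  have h2 : L.card ≤ W.card + dfc G B := by
    apply card_le_dfc
    · exact (Finset.filter_subset _ _).trans (Tk_sub _ _ _)
    · intro v hv w hw hvw
      rw [hL, Finset.mem_filter] at hv
      rw [hW, Finset.mem_filter]
      refine ⟨hw, ?_⟩
      by_contra h3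
      exact hv.2 ⟨w, hw, hvw, h3⟩
  have h3 : (W.card : ℝ) = ∑ w ∈ B, ind (InW G i B w) := by
    rw [hW, Finset.card_filter]
    push_cast
    apply Finset.sum_congr rfl
    intro w _
    rw [ind_def]
  have h4 : (bad.card : ℝ) ≤
      ∑ v ∈ B, ∑ w ∈ B, (ind (BadE G (2 * i) B v w) + ind (BadE G (2 * i + 1) B w v)) := by
    have h5 : (bad.card : ℝ) = ∑ v ∈ bad, (1:ℝ) := by simp
    rw [h5]
    have h6 : ∀ v ∈ bad, (1:ℝ) ≤ ∑ w ∈ B, (ind (BadE G (2 * i) B v w) +
        ind (BadE G (2 * i + 1) B w v)) := by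
      intro v hv
      rw [hbad, Finset.mem_filter, mem_Tk] at hv
      obtain ⟨⟨hvB, hvL⟩, w, hw, hvw, hnW⟩ := hv
      have h7 := bad_cases G i B v w hvB hw hvL hvw hnW
      have h8 : (1:ℝ) ≤ ind (BadE G (2 * i) B v w) + ind (BadE G (2 * i + 1) B w v) := by
        rcases h7 with h | h
        · rw [ind_pos h]
          have := ind_nonneg (BadE G (2 * i + 1) B w v)
          linarith
        · rw [ind_pos h]
          have := ind_nonneg (BadE G (2 * i) B v w)
          linarith
      refine h8.trans ?_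
      exact Finset.single_le_sum (f := fun w => ind (BadE G (2 * i) B v w) +
        ind (BadE G (2 * i + 1) B w v))
        (fun w _ => add_nonneg (ind_nonneg _) (ind_nonneg _)) hw
    refine (Finset.sum_le_sum h6).trans ?_
    apply Finset.sum_le_sum_of_subset_of_nonneg
    · exact (Finset.filter_subset _ _).trans (Tk_sub _ _ _)
    · intro v _ _
      exact Finset.sum_nonneg (fun w _ => add_nonneg (ind_nonneg _) (ind_nonneg _))
  have h2' : (L.card : ℝ) ≤ W.card + dfc G B := by exact_mod_cast h2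
  rw [h1]
  push_cast
  linarith

end

/-- Poisson approximation of the probability of two neighbours -/
theorem two_est {p c : ℝ} (h0 : 0 ≤ p) (h1 : p ≤ 1) (hc : 0 ≤ c) (N : ℕ) (hN : p * N ≤ c)
    (l : ℝ) (hl : 0 ≤ l) :
    1 - (1 - p) ^ N - N * (p * (1 - p) ^ (N - 1)) ≤
      1 - Real.exp (-l) - l * Real.exp (-l) + |p * N - l| + p * (c + c * (1 + c)) := by
  have e1 := abs_pow_sub_exp h0 h1 N
  have hNp : (N : ℝ) * p ^ 2 ≤ p * c := by
    have : (N : ℝ) * p ^ 2 = p * (p * N) := by ring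
    rw [this]
    exact mul_le_mul_of_nonneg_left hN h0
  have e2 : Real.exp (-(p * N)) - p * c ≤ (1 - p) ^ N := by
    have := (abs_le.mp e1).1
    linarith
  have e3 : (1 - p) ^ N ≤ (1 - p) ^ (N - 1) :=
    pow_le_pow_of_le_one (by linarith) (by linarith) (Nat.sub_le _ _)
  have e4 : (N : ℝ) * (p * (1 - p) ^ (N - 1)) ≥ p * N * (Real.exp (-(p * N)) - p * c) := by
    have : (N : ℝ) * (p * (1 - p) ^ (N - 1)) = p * N * (1 - p) ^ (N - 1) := by ring
    rw [this]
    apply mul_le_mul_of_nonneg_left (e2.trans e3) (by positivity)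
  have e5 : p * N * (p * c) ≤ c * (p * c) := mul_le_mul_of_nonneg_right hN (by positivity)
  -- the function `rho`
  have key : ∀ a b : ℝ, 0 ≤ a → 0 ≤ b →
      1 - Real.exp (-a) - a * Real.exp (-a) ≤ 1 - Real.exp (-b) - b * Real.exp (-b) + |a - b| := by
    intro a b ha hb
    rcases le_total a b with h | h
    · have h2 : Real.exp (-b) + b * Real.exp (-b) ≤ Real.exp (-a) + a * Real.exp (-a) := by
        have h3 : Real.exp (-b) = Real.exp (-a) * Real.exp (-(b - a)) := by
          rw [← Real.exp_add]; congr 1; ring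
        have h4 : (1 + (b - a)) * Real.exp (-(b - a)) ≤ 1 := by
          have h5 := Real.add_one_le_exp (b - a)
          have h6 : Real.exp (b - a) * Real.exp (-(b - a)) = 1 := by
            rw [← Real.exp_add]; simp
          have h7 := Real.exp_pos (-(b - a))
          nlinarith
        have h8 : (1 + b) * Real.exp (-(b - a)) ≤ 1 + a := by
          have h9 : (1 + b) = (1 + (b - a)) + a := by ring
          have h10 : Real.exp (-(b - a)) ≤ 1 := Real.exp_le_one_iff.mpr (by linarith)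
          rw [h9]
          nlinarith
        have h11 := Real.exp_pos (-a)
        rw [h3]
        nlinarith
      have := abs_nonneg (a - b)
      linarith
    · rw [abs_of_nonneg (by linarith)]
      have h3 : Real.exp (-a) = Real.exp (-b) * Real.exp (-(a - b)) := by
        rw [← Real.exp_add]; congr 1; ring
      have h4 : 1 - (a - b) ≤ Real.exp (-(a - b)) := by
        have := Real.add_one_le_exp (-(a - b)); linarith
      have h5 : (1 + b) * Real.exp (-b) ≤ 1 := by
        have h5 := Real.add_one_le_exp b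
        have h6 : Real.exp b * Real.exp (-b) = 1 := by
          rw [← Real.exp_add]; simp
        have h7 := Real.exp_pos (-b)
        nlinarith
      have h6 : 0 < Real.exp (-b) := Real.exp_pos _
      have h7 : 0 < Real.exp (-(a - b)) := Real.exp_pos _
      -- want (1 + b) e^{-b} - (1 + a) e^{-a} ≤ a - b
      have h8 : Real.exp (-b) * ((1 + b) - (1 + a) * Real.exp (-(a - b))) ≤ a - b := by
        have h9 : (1 + b) - (1 + a) * Real.exp (-(a - b)) ≤ (1 + b) - (1 + b) * Real.exp (-(a - b)) := by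
          nlinarith
        have h10 : (1 + b) - (1 + b) * Real.exp (-(a - b)) ≤ (1 + b) * (a - b) := by nlinarith
        have h11 : Real.exp (-b) * ((1 + b) - (1 + a) * Real.exp (-(a - b))) ≤
            Real.exp (-b) * ((1 + b) * (a - b)) :=
          mul_le_mul_of_nonneg_left (h9.trans h10) h6.le
        have h12 : Real.exp (-b) * ((1 + b) * (a - b)) = ((1 + b) * Real.exp (-b)) * (a - b) := by
          ring
        have h13 : ((1 + b) * Real.exp (-b)) * (a - b) ≤ 1 * (a - b) :=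
          mul_le_mul_of_nonneg_right h5 (by linarith)
        linarith
      rw [h3]
      nlinarith
  have e6 := key (p * N) l (by positivity) hl
  nlinarith

/-- **Lower bound for the expected deficiency.** -/
theorem lower {c : ℝ} (hc : 0 ≤ c) (i : ℕ) : ∃ C : ℝ, 0 ≤ C ∧
    ∀ (V : Type) [Fintype V] [DecidableEq V] (B : Finset V) (p : ℝ), 0 ≤ p → p ≤ 1 →
      p * B.card ≤ c →
      B.card * (xs (2 * i + 1) (p * B.card) + xs (2 * i + 2) (p * B.card) +
        p * B.card * xs (2 * i + 1) (p * B.card) * xs (2 * i + 2) (p * B.card) - 1) -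
        C * (Real.sqrt B.card + 1) ≤
      cE p (fun ω : Sym2 V → Bool => (dfc (gr ω) B : ℝ)) := by
  obtain ⟨C, hC, hconc⟩ := conc1 hc (2 * i + 1)
  obtain ⟨L, hL, hlip⟩ := xs_lip hc (2 * i + 1)
  set K : ℝ := c * (c * (c * (1 + c) ^ (2 * i))) + c * (c * (c * (1 + c) ^ (2 * i + 1))) with hK
  refine ⟨C + c * C + c * (c + c * (1 + c)) + c * L + K, by positivity, ?_⟩
  intro V _ _ B p h0 h1 hB
  set m : ℝ := (B.card : ℝ) with hm
  set s : ℝ := p * m with hs
  have hm0 : 0 ≤ m := by rw [hm]; positivity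
  have hs0 : 0 ≤ s := mul_nonneg h0 hm0
  set x : ℝ := xs (2 * i + 1) s with hx
  have hx0 : 0 ≤ x := (xs_pos _ _).le
  set l : ℝ := s * x with hl
  have hl0 : 0 ≤ l := mul_nonneg hs0 hx0
  have hxe : xs (2 * i + 2) s = Real.exp (-l) := by
    rw [show 2 * i + 2 = (2 * i + 1) + 1 by ring, xs_succ]
  -- expectation of the deterministic inequality
  have d1 := cE_mono h0 h1 (fun ω : Sym2 V → Bool => Tk_le (gr ω) i B)
  rw [cE_add, cE_add, cE_sum, cE_sum] at d1
  -- bad events
  have d2 : ∑ v ∈ B, cE p (fun ω : Sym2 V → Bool => ∑ w ∈ B, (ind (BadE (gr ω) (2 * i) B v w) +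
      ind (BadE (gr ω) (2 * i + 1) B w v))) ≤ K := by
    have e1 : ∀ v ∈ B, cE p (fun ω : Sym2 V → Bool => ∑ w ∈ B, (ind (BadE (gr ω) (2 * i) B v w) +
        ind (BadE (gr ω) (2 * i + 1) B w v))) ≤
        m * (p ^ 2 * (c * (1 + c) ^ (2 * i)) + p ^ 2 * (c * (1 + c) ^ (2 * i + 1))) := by
      intro v _
      rw [cE_sum]
      have e2 : ∀ w ∈ B, cE p (fun ω : Sym2 V → Bool => ind (BadE (gr ω) (2 * i) B v w) +
          ind (BadE (gr ω) (2 * i + 1) B w v)) ≤
          p ^ 2 * (c * (1 + c) ^ (2 * i)) + p ^ 2 * (c * (1 + c) ^ (2 * i + 1)) := by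
        intro w _
        rw [cE_add, ← cP_eq, ← cP_eq]
        exact add_le_add (cP_BadE h0 h1 hc (2 * i) B v w hB) (cP_BadE h0 h1 hc (2 * i + 1) B w v hB)
      have e3 := Finset.sum_le_card_nsmul _ _ _ e2
      rwa [nsmul_eq_mul] at e3
    have e4 := Finset.sum_le_card_nsmul _ _ _ e1
    rw [nsmul_eq_mul] at e4
    refine e4.trans ?_
    have e5 : (B.card : ℝ) * (m * (p ^ 2 * (c * (1 + c) ^ (2 * i)) +
        p ^ 2 * (c * (1 + c) ^ (2 * i + 1)))) = s * s * (c * (1 + c) ^ (2 * i)) +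
        s * s * (c * (1 + c) ^ (2 * i + 1)) := by
      rw [← hm, hs]; ring
    rw [e5, hK]
    have e6 : s * s ≤ c * c := mul_le_mul hB hB hs0 hc
    have e7 : s * s * (c * (1 + c) ^ (2 * i)) ≤ c * c * (c * (1 + c) ^ (2 * i)) :=
      mul_le_mul_of_nonneg_right e6 (by positivity)
    have e8 : s * s * (c * (1 + c) ^ (2 * i + 1)) ≤ c * c * (c * (1 + c) ^ (2 * i + 1)) :=
      mul_le_mul_of_nonneg_right e6 (by positivity)
    linarith
  -- the size of `L`
  have d3 : m * x - C * Real.sqrt m ≤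
      cE p (fun ω : Sym2 V → Bool => ((Tk (gr ω) (2 * i + 1) B).card : ℝ)) := by
    have e1 := (abs_cE_le h0 h1 (fun ω : Sym2 V → Bool =>
      ((Tk (gr ω) (2 * i + 1) B).card : ℝ) - m * x)).trans (hconc V B p h0 h1 hB)
    rw [cE_sub, cE_const] at e1
    have := (abs_le.mp e1).1
    linarith
  -- the size of `W`
  have d4 : ∑ w ∈ B, cE p (fun ω : Sym2 V → Bool => ind (InW (gr ω) i B w)) ≤
      m * (1 - Real.exp (-l) - l * Real.exp (-l)) + c * C * Real.sqrt m +
        c * (c + c * (1 + c)) + c * L := by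
    have e1 : ∀ w ∈ B, cE p (fun ω : Sym2 V → Bool => ind (InW (gr ω) i B w)) ≤
        (1 - Real.exp (-l) - l * Real.exp (-l)) + p * (c + c * (1 + c)) +
          (p * (C * Real.sqrt m) + L * p) := by
      intro w hw
      have hcard : ((B.erase w).card : ℝ) = m - 1 := by
        have := Finset.card_erase_add_one hw
        rw [hm, ← this]
        push_cast
        ring
      have hcard0 : 0 ≤ m - 1 := by rw [← hcard]; positivity
      have hB2 : p * ((B.erase w).card : ℝ) ≤ c := by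
        rw [hcard]
        have := mul_le_mul_of_nonneg_left (by linarith : m - 1 ≤ m) h0
        linarith
      -- decoupling
      have e2 : cE p (fun ω : Sym2 V → Bool => ind (InW (gr ω) i B w)) =
          cE p (fun ω : Sym2 V → Bool => cE p (fun ω' : Sym2 V → Bool =>
            ind (∃ a ∈ Tk (gr ω) (2 * i + 1) (B.erase w), ∃ b ∈ Tk (gr ω) (2 * i + 1) (B.erase w),
              a ≠ b ∧ (gr ω').Adj w a ∧ (gr ω').Adj w b))) := by
        apply cE_star p {w} (B.erase w) (by simp) (fun ω => Tk (gr ω) (2 * i + 1) (B.erase w))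
          (fun ω₁ ω₂ h => Tk_congr (2 * i + 1) h)
          (fun T ω' => ind (∃ a ∈ T, ∃ b ∈ T, a ≠ b ∧ (gr ω').Adj w a ∧ (gr ω').Adj w b))
        intro ω ω₁ ω₂ h
        apply ind_congr
        have h3 : ∀ a ∈ Tk (gr ω) (2 * i + 1) (B.erase w), (gr ω₁).Adj w a ↔ (gr ω₂).Adj w a := by
          intro a ha
          rw [gr_adj, gr_adj, h w (by simp) a (mem_Tk.mp ha).1]
        constructor
        · rintro ⟨a, ha, b, hb, hab, h4, h5⟩
          exact ⟨a, ha, b, hb, hab, (h3 a ha).mp h4, (h3 b hb).mp h5⟩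
        · rintro ⟨a, ha, b, hb, hab, h4, h5⟩
          exact ⟨a, ha, b, hb, hab, (h3 a ha).mpr h4, (h3 b hb).mpr h5⟩
      rw [e2]
      have e3 : ∀ ω : Sym2 V → Bool, cE p (fun ω' : Sym2 V → Bool =>
            ind (∃ a ∈ Tk (gr ω) (2 * i + 1) (B.erase w), ∃ b ∈ Tk (gr ω) (2 * i + 1) (B.erase w),
              a ≠ b ∧ (gr ω').Adj w a ∧ (gr ω').Adj w b)) ≤
          ((1 - Real.exp (-l) - l * Real.exp (-l)) + p * (c + c * (1 + c)) + L * p) +
          p * |((Tk (gr ω) (2 * i + 1) (B.erase w)).card : ℝ) -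
            (B.erase w).card * xs (2 * i + 1) (p * (B.erase w).card)| := by
        intro ω
        set T := Tk (gr ω) (2 * i + 1) (B.erase w) with hT
        have hTc : (T.card : ℝ) ≤ (B.erase w).card := by
          exact_mod_cast Finset.card_le_card (Tk_sub _ _ _)
        have hwT : w ∉ T := by
          intro h
          rw [hT, mem_Tk] at h
          simp at h
        have g1 := cP_two_le h0 h1 w T hwT
        rw [cP_eq] at g1
        have hTN : p * (T.card : ℝ) ≤ c := (mul_le_mul_of_nonneg_left hTc h0).trans hB2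
        have g2 := two_est h0 h1 hc T.card hTN l hl0
        have g3 : |p * (T.card : ℝ) - l| ≤ p * |((T.card : ℝ)) -
            (B.erase w).card * xs (2 * i + 1) (p * (B.erase w).card)| + L * p := by
          have g4 : p * (T.card : ℝ) - l = p * ((T.card : ℝ) -
            (B.erase w).card * xs (2 * i + 1) (p * (B.erase w).card)) +
            (p * (B.erase w).card * xs (2 * i + 1) (p * (B.erase w).card) - l) := by ring
          rw [g4]
          refine (abs_add_le _ _).trans ?_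
          rw [abs_mul, abs_of_nonneg h0]
          have g5 := hlip (p * (B.erase w).card) s (by positivity) hB2 hs0 hB
          have g6 : |p * ((B.erase w).card : ℝ) - s| = p := by
            rw [hcard, hs, ← mul_sub, abs_mul, abs_of_nonneg h0]
            have : m - 1 - m = -1 := by ring
            rw [this]
            simp
          rw [g6] at g5
          linarith
        linarith
      refine (cE_mono h0 h1 e3).trans ?_
      rw [cE_add, cE_const, cE_mul_left]
      have e4 := hconc V (B.erase w) p h0 h1 hB2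
      have e5 : Real.sqrt ((B.erase w).card : ℝ) ≤ Real.sqrt m := by
        apply Real.sqrt_le_sqrt
        rw [hcard]
        linarith
      have e6 := mul_le_mul_of_nonneg_left (e4.trans (mul_le_mul_of_nonneg_left e5 hC)) h0
      linarith
    have e4 := Finset.sum_le_card_nsmul _ _ _ e1
    rw [nsmul_eq_mul] at e4
    refine e4.trans ?_
    have e5 : (B.card : ℝ) * ((1 - Real.exp (-l) - l * Real.exp (-l)) + p * (c + c * (1 + c)) +
          (p * (C * Real.sqrt m) + L * p)) = m * (1 - Real.exp (-l) - l * Real.exp (-l)) +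
          s * (c + c * (1 + c)) + (s * (C * Real.sqrt m) + s * L) := by
      rw [← hm, hs]; ring
    rw [e5]
    have e6 : s * (c + c * (1 + c)) ≤ c * (c + c * (1 + c)) :=
      mul_le_mul_of_nonneg_right hB (by positivity)
    have e7 : s * (C * Real.sqrt m) ≤ c * (C * Real.sqrt m) :=
      mul_le_mul_of_nonneg_right hB (by positivity)
    have e8 : s * L ≤ c * L := mul_le_mul_of_nonneg_right hB hL
    linarith
  rw [hxe]
  have e9 : s * x * Real.exp (-l) = l * Real.exp (-l) := by rw [hl]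
  rw [e9]
  have e10 : 0 ≤ Real.sqrt m := Real.sqrt_nonneg _
  have hK0 : 0 ≤ K := by positivity
  have e11 : 0 ≤ (c * (c + c * (1 + c)) + c * L + K) * Real.sqrt m := by positivity
  have e12 : 0 ≤ C + c * C := by positivity
  nlinarith [d1, d2, d3, d4, e10, e11, e12]

end Pool.Agent.H88.PM
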