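import Pool.Agent.H88.PM.Match

set_option autoImplicit false

/-!
Consequences of Tutte's theorem.
-/

namespace Pool.Agent.H88.PM

open Finset

/-- Tutte's theorem in terms of finite sets -/
theorem tutte_sets {V : Type*} [Fintype V] [DecidableEq V] (F : SimpleGraph V)
    (heven : Even (Fintype.card V))
    (h : ¬ ∃ M : F.Subgraph, M.IsPerfectMatching) :
    ∃ (S : Finset V) (C : Finset (Finset V)),
      S.card + 2 ≤ C.card ∧
      (∀ X ∈ C, Odd X.card ∧ Disjoint X S ∧ ∀ x ∈ X, ∀ y, F.Adj x y → y ∈ X ∨ y ∈ S) ∧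
      (∀ X ∈ C, ∀ Y ∈ C, X ≠ Y → Disjoint X Y) := by
  classical
  rw [SimpleGraph.tutte] at h
  push Not at h
  obtain ⟨u, hu⟩ := h
  unfold SimpleGraph.IsTutteViolator at hu
  set D := (⊤ : F.Subgraph).deleteVerts u with hD
  have hfin : Finite D.verts := inferInstance
  have hfinC : (D.coe.oddComponents).Finite := Set.toFinite _
  set T := hfinC.toFinset with hT
  have hTcard : T.card = D.coe.oddComponents.ncard := (Set.ncard_eq_toFinset_card _ hfinC).symm
  set φ : D.coe.ConnectedComponent → Finset V :=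
    fun c => (Set.toFinite (Subtype.val '' c.supp)).toFinset with hφ
  have hmemφ : ∀ c v, v ∈ φ c ↔ ∃ hv : v ∈ D.verts, (⟨v, hv⟩ : D.verts) ∈ c.supp := by
    intro c v
    simp only [hφ, Set.Finite.mem_toFinset, Set.mem_image]
    constructor
    · rintro ⟨⟨w, hw⟩, h1, h2⟩
      simp only at h2
      subst h2
      exact ⟨hw, h1⟩
    · rintro ⟨hv, h1⟩
      exact ⟨⟨v, hv⟩, h1, rfl⟩
  have hφcard : ∀ c, (φ c).card = c.supp.ncard := by
    intro c
    rw [← Set.ncard_image_of_injective c.supp Subtype.val_injective,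
      Set.ncard_eq_toFinset_card _ (Set.toFinite _)]
  have hdisj : ∀ c c', c ≠ c' → Disjoint (φ c) (φ c') := by
    intro c c' hcc
    rw [Finset.disjoint_left]
    intro v hv hv'
    rw [hmemφ] at hv hv'
    obtain ⟨h1, h2⟩ := hv
    obtain ⟨h3, h4⟩ := hv'
    apply hcc
    rw [SimpleGraph.ConnectedComponent.mem_supp_iff] at h2 h4
    rw [← h2, ← h4]
  have hne : ∀ c, (φ c).Nonempty := by
    intro c
    obtain ⟨⟨v, hv⟩, h1⟩ := c.nonempty_supp
    exact ⟨v, (hmemφ c v).mpr ⟨hv, h1⟩⟩
  have hinj : Function.Injective φ := by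
    intro c c' hcc
    by_contra hne2
    have h1 := hdisj c c' hne2
    rw [hcc] at h1
    have h2 := hne c'
    rw [disjoint_self] at h1
    rw [h1] at h2
    simp at h2
  have hverts : ∀ v, v ∈ D.verts ↔ v ∉ u := by
    intro v
    rw [hD, SimpleGraph.Subgraph.deleteVerts_verts]
    simp
  set S : Finset V := (Set.toFinite u).toFinset with hS
  have hScard : S.card = u.ncard := (Set.ncard_eq_toFinset_card _ (Set.toFinite u)).symm
  have hmemS : ∀ v, v ∈ S ↔ v ∈ u := by
    intro v
    rw [hS, Set.Finite.mem_toFinset]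
  refine ⟨S, T.image φ, ?_, ?_, ?_⟩
  · rw [Finset.card_image_of_injective _ hinj, hTcard, hScard]
    have hodd := SimpleGraph.odd_ncard_oddComponents (G := D.coe)
    have hc1 : Nat.card D.verts + u.ncard = Fintype.card V := by
      have h1 : D.verts = uᶜ := by
        ext v
        rw [hverts]
        rfl
      have h2 : Nat.card D.verts = D.verts.ncard := Nat.card_coe_set_eq _
      rw [h2, h1]
      have h3 := Set.ncard_add_ncard_compl u (Set.toFinite _) (Set.toFinite _)
      rw [Nat.card_eq_fintype_card] at h3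
      omega
    set q := D.coe.oddComponents.ncard
    rw [Nat.odd_iff, Nat.odd_iff] at hodd
    rw [Nat.even_iff] at heven
    omega
  · intro X hX
    rw [Finset.mem_image] at hX
    obtain ⟨c, hc, rfl⟩ := hX
    refine ⟨?_, ?_, ?_⟩
    · rw [hφcard]
      rw [hT, Set.Finite.mem_toFinset] at hc
      exact hc
    · rw [Finset.disjoint_left]
      intro v hv hvS
      rw [hmemφ] at hv
      rw [hmemS] at hvS
      exact (hverts v).mp hv.1 hvS
    · intro x hx y hxy
      by_cases hyS : y ∈ S
      · exact Or.inr hyS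
      · left
        rw [hmemφ] at hx ⊢
        obtain ⟨hxv, hxc⟩ := hx
        have hyv : y ∈ D.verts := by
          rw [hverts, ← hmemS]; exact hyS
        refine ⟨hyv, ?_⟩
        have hadj0 : D.Adj x y := by
          rw [hD, SimpleGraph.Subgraph.deleteVerts_adj]
          refine ⟨trivial, (hverts x).mp hxv, trivial, (hverts y).mp hyv, ?_⟩
          exact hxy
        have hadj : D.coe.Adj ⟨x, hxv⟩ ⟨y, hyv⟩ := hadj0
        exact c.mem_supp_of_adj_mem_supp hxc hadj
  · intro X hX Y hY hXY
    rw [Finset.mem_image] at hX hY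
    obtain ⟨c, hc, rfl⟩ := hX
    obtain ⟨c', hc', rfl⟩ := hY
    apply hdisj
    rintro rfl
    exact hXY rfl

section Det

variable {V : Type*} [Fintype V] [DecidableEq V]

/-- The first case: a small odd component forces a large deficiency outside `A`. -/
theorem det_small (H G : SimpleGraph V) (S : Finset V) (C : Finset (Finset V))
    (hcard : S.card + 2 ≤ C.card)
    (hC : ∀ X ∈ C, Odd X.card ∧ Disjoint X S ∧ ∀ x ∈ X, ∀ y, (H ⊔ G).Adj x y → y ∈ X ∨ y ∈ S)
    (hdis : ∀ X ∈ C, ∀ Y ∈ C, X ≠ Y → Disjoint X Y)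
    (X : Finset V) (hX : X ∈ C) (v : V) (hv : v ∈ X) (A : Finset V) (hA : ∀ y ∈ A, H.Adj v y) :
    A.card + 2 ≤ dfc G (univ \ A) + X.card := by
  classical
  obtain ⟨f, hf, hfd⟩ := exists_dfc G (univ \ A)
  have hAXS : ∀ y ∈ A, y ∈ X ∨ y ∈ S := by
    intro y hy
    exact (hC X hX).2.2 v hv y (Or.inl (hA y hy))
  have hvA : v ∉ A := fun h => (hA v h).ne rfl
  -- representatives
  have hrep : ∀ Y ∈ C.erase X, ∃ y ∈ Y, f y = y ∨ f y ∉ Y := by
    intro Y hY
    by_contra hcon
    push Not at hcon
    have h1 := even_of_invol f hf.1 Y (fun y hy => ⟨(hcon y hy).2, (hcon y hy).1⟩)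
    have h2 := (hC Y (Finset.mem_of_mem_erase hY)).1
    exact (Nat.not_even_iff_odd.mpr h2) h1
  have hrep2 : ∀ Y : Finset V, ∃ y, Y ∈ C.erase X → (y ∈ Y ∧ (f y = y ∨ f y ∉ Y)) := by
    intro Y
    by_cases hY : Y ∈ C.erase X
    · obtain ⟨y, hy, h⟩ := hrep Y hY
      exact ⟨y, fun _ => ⟨hy, h⟩⟩
    · exact ⟨v, fun h => absurd h hY⟩
  choose r hr using hrep2
  have hmap : ∀ Y ∈ C.erase X, f (r Y) ∈ unm (univ \ A) f ∪ (S \ A) := by
    intro Y hY
    obtain ⟨h1, h2⟩ := hr Y hY
    obtain ⟨hYX, hYC⟩ := Finset.mem_erase.mp hY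
    have hYdis := hdis Y hYC X hX hYX
    have hYS := (hC Y hYC).2.1
    have hrA : r Y ∉ A := by
      intro h3
      rcases hAXS _ h3 with h4 | h4
      · exact Finset.disjoint_left.mp hYdis h1 h4
      · exact Finset.disjoint_left.mp hYS h1 h4
    rw [Finset.mem_union]
    by_cases h3 : f (r Y) = r Y
    · left
      rw [mem_unm, h3]
      exact ⟨by simp [hrA], h3⟩
    · right
      have h4 : f (r Y) ∉ Y := h2.resolve_left h3
      have h5 := hf.2 (r Y) h3
      have h6 : f (f (r Y)) ≠ f (r Y) := by rw [hf.1]; exact fun h => h3 h.symm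
      have h7 := (hf.2 _ h6).2
      have h8 := (hC Y hYC).2.2 (r Y) h1 (f (r Y)) (Or.inr h5.1)
      rw [Finset.mem_sdiff] at h7 ⊢
      exact ⟨h8.resolve_left h4, h7.2⟩
  have hinj : Set.InjOn (fun Y => f (r Y)) (C.erase X : Finset (Finset V)) := by
    intro Y hY Y' hY' hYY
    simp only at hYY
    have h1 : r Y = r Y' := by rw [← hf.1 (r Y), hYY, hf.1]
    by_contra hne
    have h2 := hdis Y (Finset.mem_of_mem_erase hY) Y' (Finset.mem_of_mem_erase hY') hne
    have h3 := (hr Y hY).1
    rw [h1] at h3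
    exact Finset.disjoint_left.mp h2 h3 (hr Y' hY').1
  have h1 : (C.erase X).card ≤ (unm (univ \ A) f ∪ (S \ A)).card :=
    Finset.card_le_card_of_injOn _ hmap hinj
  have h2 := Finset.card_union_le (unm (univ \ A) f) (S \ A)
  have h3 : (C.erase X).card + 1 = C.card := Finset.card_erase_add_one hX
  -- `A` splits
  have h4 : A.card ≤ (S ∩ A).card + (X.erase v).card := by
    have h5 : A ⊆ (S ∩ A) ∪ (X.erase v) := by
      intro y hy
      rw [Finset.mem_union, Finset.mem_inter, Finset.mem_erase]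
      rcases hAXS y hy with h6 | h6
      · right
        exact ⟨fun h => hvA (h ▸ hy), h6⟩
      · left
        exact ⟨h6, hy⟩
    exact (Finset.card_le_card h5).trans (Finset.card_union_le _ _)
  have h5 : (S \ A).card + (S ∩ A).card = S.card := Finset.card_sdiff_add_card_inter S A
  have h6 : (X.erase v).card + 1 = X.card := Finset.card_erase_add_one hv
  omega

/-- the set determined by `S` and `R` -/
noncomputable def XX (H : SimpleGraph V) (S R : Finset V) : Finset V := by
  classical
  exact univ.filter (fun x => x ∉ S ∧ ∃ y, y ∉ S ∧ H.Adj x y ∧ ∃ r ∈ R, H.Adj r y)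

theorem mem_XX (H : SimpleGraph V) (S R : Finset V) (x : V) :
    x ∈ XX H S R ↔ x ∉ S ∧ ∃ y, y ∉ S ∧ H.Adj x y ∧ ∃ r ∈ R, H.Adj r y := by
  unfold XX
  simp

/-- The second case: few removed vertices. `d` is a lower bound for all `|N_H(x) \ S|`. -/
theorem det_large (H G : SimpleGraph V) (S : Finset V) (C : Finset (Finset V))
    (hcard : S.card + 2 ≤ C.card)
    (hC : ∀ X ∈ C, Odd X.card ∧ Disjoint X S ∧ ∀ x ∈ X, ∀ y, (H ⊔ G).Adj x y → y ∈ X ∨ y ∈ S)
    (hdis : ∀ X ∈ C, ∀ Y ∈ C, X ≠ Y → Disjoint X Y) (d : ℕ) (hd : 0 < d)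
    (hdeg : ∀ x : V, ∃ N : Finset V, (∀ y ∈ N, H.Adj x y ∧ y ∉ S) ∧ d ≤ N.card) :
    C.card * d ≤ Fintype.card V ∧
    ∃ R : Finset V, R.card * d ≤ Fintype.card V ∧ d ≤ (XX H S R).card ∧
      d ≤ ((univ \ S) \ XX H S R).card ∧
      ∀ x ∈ XX H S R, ∀ y ∈ (univ \ S) \ XX H S R, ¬ G.Adj x y := by
  classical
  choose N hN1 hN2 using hdeg
  -- each component has at least `d` vertices
  have hNX : ∀ X ∈ C, ∀ x ∈ X, N x ⊆ X := by
    intro X hX x hx y hy
    exact ((hC X hX).2.2 x hx y (Or.inl (hN1 x y hy).1)).resolve_right (hN1 x y hy).2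
  have hXd : ∀ X ∈ C, d ≤ X.card := by
    intro X hX
    have h1 : 0 < X.card := (hC X hX).1.pos
    obtain ⟨x, hx⟩ := Finset.card_pos.mp h1
    exact (hN2 x).trans (Finset.card_le_card (hNX X hX x hx))
  refine ⟨?_, ?_⟩
  · have h1 : (C.biUnion id).card = ∑ X ∈ C, X.card := by
      rw [Finset.card_biUnion]
      · rfl
      · intro X hX Y hY hXY
        exact hdis X hX Y hY hXY
    have h2 : C.card * d ≤ ∑ X ∈ C, X.card := by
      rw [← smul_eq_mul]
      exact Finset.card_nsmul_le_sum C _ d hXd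
    rw [← h1] at h2
    exact h2.trans (Finset.card_le_univ _)
  · obtain ⟨X, hX⟩ : C.Nonempty := Finset.card_pos.mp (by omega)
    obtain ⟨Y, hY⟩ : (C.erase X).Nonempty := by
      apply Finset.card_pos.mp
      rw [Finset.card_erase_of_mem hX]
      omega
    obtain ⟨hYX, hYC⟩ := Finset.mem_erase.mp hY
    -- maximal family
    set P : Finset (Finset V) := X.powerset.filter
      (fun R => ∀ a ∈ R, ∀ b ∈ R, a ≠ b → Disjoint (N a) (N b)) with hP
    have hPne : P.Nonempty := ⟨∅, by simp [hP]⟩
    obtain ⟨R, hR, hmax⟩ := Finset.exists_max_image P Finset.card hPne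
    rw [hP, Finset.mem_filter, Finset.mem_powerset] at hR
    obtain ⟨hRX, hRd⟩ := hR
    have hXX : XX H S R = X := by
      ext x
      rw [mem_XX]
      constructor
      · rintro ⟨hxS, y, hyS, hxy, r, hr, hry⟩
        have hyX : y ∈ X := ((hC X hX).2.2 r (hRX hr) y (Or.inl hry)).resolve_right hyS
        exact ((hC X hX).2.2 y hyX x (Or.inl hxy.symm)).resolve_right hxS
      · intro hx
        refine ⟨Finset.disjoint_left.mp (hC X hX).2.1 hx, ?_⟩
        -- `N x` meets some `N r`
        have h1 : ∃ r ∈ R, ¬ Disjoint (N x) (N r) := by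
          by_contra hcon
          push Not at hcon
          have hxR : x ∉ R := by
            intro hxR
            have h2 := hcon x hxR
            rw [disjoint_self] at h2
            have h3 := hN2 x
            rw [h2] at h3
            simp at h3
            omega
          have h2 : insert x R ∈ P := by
            rw [hP, Finset.mem_filter, Finset.mem_powerset]
            refine ⟨Finset.insert_subset hx hRX, ?_⟩
            intro a ha b hb hab
            rw [Finset.mem_insert] at ha hb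
            rcases ha with rfl | ha
            · rcases hb with rfl | hb
              · exact absurd rfl hab
              · exact hcon b hb
            · rcases hb with rfl | hb
              · exact (hcon a ha).symm
              · exact hRd a ha b hb hab
          have h3 := hmax _ h2
          rw [Finset.card_insert_of_notMem hxR] at h3
          omega
        obtain ⟨r, hr, h2⟩ := h1
        rw [Finset.not_disjoint_iff] at h2
        obtain ⟨y, hy1, hy2⟩ := h2
        exact ⟨y, (hN1 x y hy1).2, (hN1 x y hy1).1, r, hr, (hN1 r y hy2).1⟩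
    refine ⟨R, ?_, ?_, ?_, ?_⟩
    · have h1 : (R.biUnion N).card = ∑ r ∈ R, (N r).card := by
        rw [Finset.card_biUnion]
        intro a ha b hb hab
        exact hRd a ha b hb hab
      have h2 : R.card * d ≤ ∑ r ∈ R, (N r).card := by
        rw [← smul_eq_mul]
        exact Finset.card_nsmul_le_sum R _ d (fun r _ => hN2 r)
      rw [← h1] at h2
      exact h2.trans (Finset.card_le_univ _)
    · rw [hXX]
      exact hXd X hX
    · rw [hXX]
      refine (hXd Y hYC).trans (Finset.card_le_card ?_)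
      intro y hy
      rw [Finset.mem_sdiff, Finset.mem_sdiff]
      refine ⟨⟨Finset.mem_univ _, Finset.disjoint_left.mp (hC Y hYC).2.1 hy⟩, ?_⟩
      exact Finset.disjoint_left.mp (hdis Y hYC X hX hYX) hy
    · rw [hXX]
      intro x hx y hy hxy
      rw [Finset.mem_sdiff, Finset.mem_sdiff] at hy
      rcases (hC X hX).2.2 x hx y (Or.inr hxy) with h1 | h1
      · exact hy.2 h1
      · exact hy.1.2 h1

/-- a perfect matching of the union with the complete bipartite graph -/
theorem dfc_le_of_pm (H G : SimpleGraph V) (A : Finset V)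
    (hH : ∀ x y, H.Adj x y → x ∈ A ∨ y ∈ A)
    (h : ∃ M : (H ⊔ G).Subgraph, M.IsPerfectMatching) : dfc G (univ \ A) ≤ A.card := by
  classical
  obtain ⟨M, hM⟩ := h
  have hM1 : ∀ v, ∃! w, M.Adj v w := fun v => SimpleGraph.Subgraph.isPerfectMatching_iff.mp hM v
  choose g hg hg2 using hM1
  have hgg : ∀ x, g (g x) = x := by
    intro x
    exact (hg2 (g x) x (hg x).symm).symm
  have hadj : ∀ x, (H ⊔ G).Adj x (g x) := fun x => (hg x).adj_sub
  set f : V → V := fun x => if x ∉ A ∧ g x ∉ A then g x else x with hf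
  have hfM : IsM G (univ \ A) f := by
    constructor
    · intro x
      simp only [hf]
      by_cases hx : x ∉ A ∧ g x ∉ A
      · rw [if_pos hx, if_pos ⟨hx.2, by rw [hgg]; exact hx.1⟩, hgg]
      · rw [if_neg hx, if_neg hx]
    · intro x hx
      simp only [hf] at hx ⊢
      by_cases hx2 : x ∉ A ∧ g x ∉ A
      · rw [if_pos hx2]
        refine ⟨?_, by simp [hx2.1]⟩
        rcases hadj x with h1 | h1
        · rcases hH _ _ h1 with h2 | h2
          · exact absurd h2 hx2.1
          · exact absurd h2 hx2.2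
        · exact h1
      · rw [if_neg hx2] at hx
        exact absurd rfl hx
  refine (dfc_le hfM).trans ?_
  apply Finset.card_le_card_of_injOn g
  · intro x hx
    rw [Finset.mem_coe, mem_unm] at hx
    rw [Finset.mem_coe]
    by_contra hgx
    have hxA : x ∉ A := by simpa using hx.1
    have h1 := hx.2
    simp only [hf] at h1
    rw [if_pos ⟨hxA, hgx⟩] at h1
    exact (hadj x).ne h1.symm
  · intro x _ y _ hxy
    rw [← hgg x, hxy, hgg]

end Det

end Pool.Agent.H88.PM
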