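import Pool.Agent.H88.PM.Graph
import Pool.Agent.H88.PM.Tutte

set_option autoImplicit false

/-!
Random graph on `Fin n` and the failure probability of having a perfect matching.
-/

namespace Pool.Agent.H88.PM

open Finset

theorem gr_eq_iff {n : ℕ} (G : SimpleGraph (Fin n)) (ω : Sym2 (Fin n) → Bool) :
    gr ω = G ↔ ∀ e : Sym2 (Fin n), e.IsDiag ∨ (ω e = true ↔ e ∈ G.edgeSet) := by
  constructor
  · rintro rfl e
    induction e using Sym2.ind with
    | _ x y =>
      by_cases h : x = y
      · left
        rw [Sym2.mk_isDiag_iff]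
        exact h
      · right
        rw [SimpleGraph.mem_edgeSet, gr_adj]
        simp [h]
  · intro h
    ext x y
    rw [gr_adj]
    rcases h s(x, y) with h1 | h1
    · rw [Sym2.mk_isDiag_iff] at h1
      subst h1
      simp
    · rw [SimpleGraph.mem_edgeSet] at h1
      rw [h1]
      exact ⟨fun h2 => h2.2, fun h2 => ⟨h2.ne, h2⟩⟩

theorem cP_gr_eq {n : ℕ} (p : ℝ) (G : SimpleGraph (Fin n)) :
    cP p (fun ω : Sym2 (Fin n) → Bool => gr ω = G) =
      p ^ G.edgeSet.ncard * (1 - p) ^ (n.choose 2 - G.edgeSet.ncard) := by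
  classical
  rw [cP_congr p (gr_eq_iff G),
    cP_pi p (fun (e : Sym2 (Fin n)) b => e.IsDiag ∨ (b = true ↔ e ∈ G.edgeSet))]
  set E : Finset (Sym2 (Fin n)) := univ.filter (fun e => e ∈ G.edgeSet) with hE
  set ND : Finset (Sym2 (Fin n)) := univ.filter (fun e => ¬ e.IsDiag) with hND
  have hEND : E ⊆ ND := by
    intro e he
    rw [hE, Finset.mem_filter] at he
    rw [hND, Finset.mem_filter]
    exact ⟨Finset.mem_univ _, G.not_isDiag_of_mem_edgeSet he.2⟩
  have h1 : ∀ e : Sym2 (Fin n),
      (p * (if (e.IsDiag ∨ (true = true ↔ e ∈ G.edgeSet)) then (1:ℝ) else 0) +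
        (1 - p) * (if (e.IsDiag ∨ (false = true ↔ e ∈ G.edgeSet)) then (1:ℝ) else 0)) =
      (if e ∈ E then p else 1) * (if e ∈ ND \ E then (1 - p) else 1) := by
    intro e
    by_cases hd : e.IsDiag
    · have g1 : e ∉ E := by
        intro h
        have := hEND h
        rw [hND, Finset.mem_filter] at this
        exact this.2 hd
      have g2 : e ∉ ND \ E := by
        intro h
        rw [Finset.mem_sdiff, hND, Finset.mem_filter] at h
        exact h.1.2 hd
      rw [if_neg g1, if_neg g2, if_pos (Or.inl hd), if_pos (Or.inl hd)]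
      ring
    · by_cases he : e ∈ G.edgeSet
      · have g1 : e ∈ E := by rw [hE, Finset.mem_filter]; exact ⟨Finset.mem_univ _, he⟩
        have g2 : e ∉ ND \ E := by
          intro h
          exact (Finset.mem_sdiff.mp h).2 g1
        rw [if_pos g1, if_neg g2, if_pos (Or.inr (by simp [he])), if_neg (by simp [he, hd])]
        ring
      · have g1 : e ∉ E := by
          intro h
          rw [hE, Finset.mem_filter] at h
          exact he h.2
        have g2 : e ∈ ND \ E := by
          rw [Finset.mem_sdiff, hND, Finset.mem_filter]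
          exact ⟨⟨Finset.mem_univ _, hd⟩, g1⟩
        rw [if_neg g1, if_pos g2, if_neg (by simp [he, hd]), if_pos (Or.inr (by simp [he]))]
        ring
  rw [Finset.prod_congr rfl (fun e _ => h1 e), Finset.prod_mul_distrib, Finset.prod_ite_mem,
    Finset.prod_ite_mem, Finset.univ_inter, Finset.univ_inter, Finset.prod_const,
    Finset.prod_const]
  have h2 : E.card = G.edgeSet.ncard := by
    rw [Set.ncard_eq_toFinset_card']
    congr 1
    ext e
    simp [hE]
  have h3 : ND.card = n.choose 2 := by
    have := Sym2.card_subtype_not_diag (α := Fin n)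
    rw [Fintype.card_fin, Fintype.card_subtype] at this
    rw [← this]
  rw [Finset.card_sdiff_of_subset hEND, h2, h3]

/-- the sum over graphs of the frozen statement -/
theorem sum_eq_cP {n : ℕ} [Fintype (SimpleGraph (Fin n))] (p : ℝ)
    (P : SimpleGraph (Fin n) → Prop) [DecidablePred P] :
    ∑ G : SimpleGraph (Fin n), (if P G then
      p ^ G.edgeSet.ncard * (1 - p) ^ (n.choose 2 - G.edgeSet.ncard) else 0) =
      cP p (fun ω : Sym2 (Fin n) → Bool => P (gr ω)) := by
  classical
  rw [cP_eq]
  have h : ∀ ω : Sym2 (Fin n) → Bool, ind (P (gr ω)) =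
      ∑ G : SimpleGraph (Fin n), ind (P G) * ind (gr ω = G) := by
    intro ω
    rw [Finset.sum_eq_single (gr ω)]
    · rw [ind_pos (rfl : gr ω = gr ω), mul_one]
    · intro G _ hG
      have hne : ¬ (gr ω = G) := fun h => hG h.symm
      rw [ind_neg hne, mul_zero]
    · intro h
      exact absurd (Finset.mem_univ _) h
  rw [cE_congr p h, cE_sum]
  apply Finset.sum_congr rfl
  intro G _
  rw [cE_mul_left, ← cP_eq, cP_gr_eq, ind_def]
  by_cases hP : P G <;> simp [hP]

/-- no edges between two disjoint sets -/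
theorem cP_no_edges {V : Type} [Fintype V] [DecidableEq V] {p : ℝ} (h0 : 0 ≤ p) (h1 : p ≤ 1)
    (X Y : Finset V) (hXY : Disjoint X Y) (d : ℕ) (hX : d ≤ X.card) (hY : d ≤ Y.card) :
    cP p (fun ω : Sym2 V → Bool => ∀ x ∈ X, ∀ y ∈ Y, ¬ (gr ω).Adj x y) ≤ (1 - p) ^ (d * d) := by
  classical
  set J : Finset (Sym2 V) := (X ×ˢ Y).image (fun q => s(q.1, q.2)) with hJ
  have hcard : J.card = X.card * Y.card := by
    rw [hJ, Finset.card_image_of_injOn, Finset.card_product]
    intro q hq q' hq' hqq
    rw [Finset.mem_coe, Finset.mem_product] at hq hq'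
    simp only at hqq
    rw [Sym2.eq_iff] at hqq
    rcases hqq with h | h
    · exact Prod.ext h.1 h.2
    · exfalso
      rw [h.1] at hq
      exact Finset.disjoint_left.mp hXY hq.1 hq'.2
  have e1 : cP p (fun ω : Sym2 V → Bool => ∀ x ∈ X, ∀ y ∈ Y, ¬ (gr ω).Adj x y) ≤
      cP p (fun ω : Sym2 V → Bool => ∀ e ∈ J, ω e = false) := by
    apply cP_mono h0 h1
    intro ω h e he
    rw [hJ, Finset.mem_image] at he
    obtain ⟨⟨x, y⟩, hq, rfl⟩ := he
    rw [Finset.mem_product] at hq
    have h2 := h x hq.1 y hq.2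
    rw [gr_adj] at h2
    have h3 : x ≠ y := by
      rintro rfl
      exact Finset.disjoint_left.mp hXY hq.1 hq.2
    have h4 : ¬ ω s(x, y) = true := fun h5 => h2 ⟨h3, h5⟩
    simpa using h4
  refine e1.trans ?_
  rw [cP_all_false, hcard]
  exact pow_le_pow_of_le_one (by linarith) (by linarith) (Nat.mul_le_mul hX hY)

/-- the finite set coded by a partial tuple -/
noncomputable def decode {V : Type} [Fintype V] {k : ℕ} (s : Fin k → Option V) : Finset V := by
  classical
  exact univ.filter (fun v => ∃ i, s i = some v)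

theorem exists_code {V : Type} [Fintype V] {k : ℕ} (S : Finset V) (hS : S.card ≤ k) :
    ∃ s : Fin k → Option V, decode s = S := by
  classical
  refine ⟨fun i => S.toList[(i : ℕ)]?, ?_⟩
  ext v
  unfold decode
  rw [Finset.mem_filter]
  constructor
  · rintro ⟨_, i, hi⟩
    rw [← Finset.mem_toList]
    exact List.mem_of_getElem? hi
  · intro hv
    refine ⟨Finset.mem_univ _, ?_⟩
    rw [← Finset.mem_toList] at hv
    obtain ⟨j, hj⟩ := List.mem_iff_getElem?.mp hv
    have hj2 : j < S.toList.length := by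
      by_contra h
      rw [List.getElem?_eq_none (by omega)] at hj
      exact absurd hj (by simp)
    rw [Finset.length_toList] at hj2
    exact ⟨⟨j, by omega⟩, hj⟩

/-- **Failure probability.** -/
theorem fail_prob {n : ℕ} (hn : 0 < n) (heven : Even n) (H : SimpleGraph (Fin n)) {α : ℝ}
    (hα : 0 < α) (a K k₀ d : ℕ) (hK : 4 / α ≤ K) (hk₀ : 2 / α ≤ k₀) (hd0 : 0 < d)
    (hd : α * n / 2 ≤ d) (hd2 : ∀ m : ℕ, α * n / 2 < m → d ≤ m)
    (A : Fin n → Finset (Fin n)) (hA : ∀ v, ∀ y ∈ A v, H.Adj v y) (hAc : ∀ v, (A v).card = a)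
    (hdeg : ∀ v, ∃ N : Finset (Fin n), (∀ y ∈ N, H.Adj v y) ∧ α * n ≤ (N.card : ℝ))
    {p τ : ℝ} (h0 : 0 ≤ p) (h1 : p ≤ 1)
    (hτ : ∀ v, cP p (fun ω : Sym2 (Fin n) → Bool => a + 2 ≤ dfc (gr ω) (univ \ A v) + K) ≤ τ) :
    cP p (fun ω : Sym2 (Fin n) → Bool => ¬ ∃ M : (H ⊔ gr ω).Subgraph, M.IsPerfectMatching) ≤
      4 / α * τ + ((n : ℝ) + 1) ^ (2 * k₀) * (1 - p) ^ (d * d) := by
  classical
  have hn0 : (0:ℝ) < n := by exact_mod_cast hn
  have hKpos : (0:ℝ) < K := lt_of_lt_of_le (by positivity) hK
  -- the two events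
  have key : ∀ ω : Sym2 (Fin n) → Bool, (¬ ∃ M : (H ⊔ gr ω).Subgraph, M.IsPerfectMatching) →
      (α * n / 4 ≤ ∑ v : Fin n, ind (a + 2 ≤ dfc (gr ω) (univ \ A v) + K)) ∨
      (∃ q ∈ (univ : Finset ((Fin k₀ → Option (Fin n)) × (Fin k₀ → Option (Fin n)))),
        d ≤ (XX H (decode q.1) (decode q.2)).card ∧
        d ≤ ((univ \ decode q.1) \ XX H (decode q.1) (decode q.2)).card ∧
        ∀ x ∈ XX H (decode q.1) (decode q.2),
          ∀ y ∈ (univ \ decode q.1) \ XX H (decode q.1) (decode q.2), ¬ (gr ω).Adj x y) := by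
    intro ω hω
    obtain ⟨S, C, hcard, hC, hdis⟩ := tutte_sets (H ⊔ gr ω) (by rw [Fintype.card_fin]; exact heven) hω
    by_cases hS : α * n / 2 ≤ S.card
    · left
      set Cs := C.filter (fun X => X.card ≤ K) with hCs
      set Cl := C.filter (fun X => ¬ X.card ≤ K) with hCl
      have e1 : Cs.card + Cl.card = C.card := Finset.card_filter_add_card_filter_not _
      have e2 : Cl.card * K ≤ n := by
        have g1 : (Cl.biUnion id).card = ∑ X ∈ Cl, X.card := by
          rw [Finset.card_biUnion]
          · rfl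
          · intro X hX Y hY hXY
            exact hdis X (Finset.mem_filter.mp hX).1 Y (Finset.mem_filter.mp hY).1 hXY
        have g2 : Cl.card * K ≤ ∑ X ∈ Cl, X.card := by
          rw [← smul_eq_mul]
          apply Finset.card_nsmul_le_sum
          intro X hX
          have := (Finset.mem_filter.mp hX).2
          omega
        rw [← g1] at g2
        have g3 := Finset.card_le_univ (Cl.biUnion id)
        rw [Fintype.card_fin] at g3
        exact g2.trans g3
      have e3 : (Cl.card : ℝ) ≤ α * n / 4 := by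
        have g1 : (Cl.card : ℝ) * K ≤ n := by exact_mod_cast e2
        have g2 : (Cl.card : ℝ) * (4 / α) ≤ n :=
          (mul_le_mul_of_nonneg_left hK (by positivity)).trans g1
        rw [mul_div_assoc', div_le_iff₀ hα] at g2
        linarith
      have e4 : α * n / 4 ≤ (Cs.card : ℝ) := by
        have g1 : ((S.card : ℝ) + 2) ≤ Cs.card + Cl.card := by
          rw [← e1] at hcard
          exact_mod_cast hcard
        linarith
      refine e4.trans ?_
      -- representatives
      have hrep : ∀ X ∈ Cs, ∃ v ∈ X, a + 2 ≤ dfc (gr ω) (univ \ A v) + K := by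
        intro X hX
        rw [hCs, Finset.mem_filter] at hX
        have g1 : 0 < X.card := (hC X hX.1).1.pos
        obtain ⟨v, hv⟩ := Finset.card_pos.mp g1
        refine ⟨v, hv, ?_⟩
        have g2 := det_small H (gr ω) S C hcard hC hdis X hX.1 v hv (A v) (hA v)
        rw [hAc] at g2
        omega
      have hrep2 : ∀ X : Finset (Fin n), ∃ v, X ∈ Cs →
          (v ∈ X ∧ a + 2 ≤ dfc (gr ω) (univ \ A v) + K) := by
        intro X
        by_cases hX : X ∈ Cs
        · obtain ⟨v, hv, h⟩ := hrep X hX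
          exact ⟨v, fun _ => ⟨hv, h⟩⟩
        · exact ⟨⟨0, hn⟩, fun h => absurd h hX⟩
      choose r hr using hrep2
      have g1 : Cs.card ≤ (univ.filter (fun v => a + 2 ≤ dfc (gr ω) (univ \ A v) + K)).card := by
        apply Finset.card_le_card_of_injOn r
        · intro X hX
          rw [Finset.mem_coe, Finset.mem_filter]
          exact ⟨Finset.mem_univ _, (hr X hX).2⟩
        · intro X hX Y hY hXY
          by_contra hne
          have g2 := hdis X (Finset.mem_filter.mp hX).1 Y (Finset.mem_filter.mp hY).1 hne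
          have g3 := (hr X hX).1
          rw [hXY] at g3
          exact Finset.disjoint_left.mp g2 g3 (hr Y hY).1
      have g2 : ((univ.filter (fun v => a + 2 ≤ dfc (gr ω) (univ \ A v) + K)).card : ℝ) =
          ∑ v : Fin n, ind (a + 2 ≤ dfc (gr ω) (univ \ A v) + K) := by
        rw [Finset.card_filter]
        push_cast
        apply Finset.sum_congr rfl
        intro v _
        rw [ind_def]
      rw [← g2]
      exact_mod_cast g1
    · right
      push Not at hS
      have hdeg2 : ∀ x : Fin n, ∃ N : Finset (Fin n), (∀ y ∈ N, H.Adj x y ∧ y ∉ S) ∧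
          d ≤ N.card := by
        intro x
        obtain ⟨N, hN1, hN2⟩ := hdeg x
        refine ⟨N \ S, ?_, ?_⟩
        · intro y hy
          rw [Finset.mem_sdiff] at hy
          exact ⟨hN1 y hy.1, hy.2⟩
        · apply hd2
          have g1 : N.card ≤ (N \ S).card + S.card := by
            have := Finset.card_sdiff_add_card_inter N S
            have g2 := Finset.card_le_card (Finset.inter_subset_right (s₁ := N) (s₂ := S))
            omega
          have g2 : (N.card : ℝ) ≤ (N \ S).card + S.card := by exact_mod_cast g1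
          linarith
      obtain ⟨f1, R, f2, f3, f4, f5⟩ := det_large H (gr ω) S C hcard hC hdis d hd0 hdeg2
      rw [Fintype.card_fin] at f1 f2
      have bound : ∀ m : ℕ, m * d ≤ n → m ≤ k₀ := by
        intro m hm
        have g1 : (m : ℝ) * d ≤ n := by exact_mod_cast hm
        have g2 : (m : ℝ) * (α * n / 2) ≤ n :=
          (mul_le_mul_of_nonneg_left hd (by positivity)).trans g1
        have g3 : (m : ℝ) ≤ 2 / α := by
          rw [le_div_iff₀ hα]
          have g4 : ((m : ℝ) * α) * n ≤ 2 * n := by linarith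
          exact le_of_mul_le_mul_right g4 hn0
        exact_mod_cast g3.trans hk₀
      have hSk : S.card ≤ k₀ := by
        have := bound _ f1
        omega
      have hRk : R.card ≤ k₀ := bound _ f2
      obtain ⟨s, hs⟩ := exists_code S hSk
      obtain ⟨r, hr⟩ := exists_code R hRk
      refine ⟨(s, r), Finset.mem_univ _, ?_⟩
      simp only [hs, hr]
      exact ⟨f3, f4, f5⟩
  refine (cP_mono h0 h1 key).trans ((cP_or_le h0 h1 _ _).trans ?_)
  apply add_le_add
  · -- Markov
    refine (cP_markov h0 h1 (fun ω : Sym2 (Fin n) → Bool =>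
      ∑ v : Fin n, ind (a + 2 ≤ dfc (gr ω) (univ \ A v) + K))
      (fun ω => Finset.sum_nonneg (fun v _ => ind_nonneg _)) (α * n / 4) (by positivity)).trans ?_
    rw [cE_sum]
    have e1 : ∑ v : Fin n, cE p (fun ω : Sym2 (Fin n) → Bool =>
        ind (a + 2 ≤ dfc (gr ω) (univ \ A v) + K)) ≤ n * τ := by
      have := Finset.sum_le_card_nsmul (univ : Finset (Fin n)) (fun v =>
        cE p (fun ω : Sym2 (Fin n) → Bool => ind (a + 2 ≤ dfc (gr ω) (univ \ A v) + K))) τ
        (fun v _ => by
          have := hτ v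
          rwa [cP_eq] at this)
      rwa [nsmul_eq_mul, Finset.card_univ, Fintype.card_fin] at this
    rw [div_le_iff₀ (by positivity)]
    have e2 : 4 / α * τ * (α * n / 4) = n * τ := by field_simp
    rw [e2]
    exact e1
  · refine (cP_exists_le univ h0 h1 _).trans ?_
    have e1 : ∀ q ∈ (univ : Finset ((Fin k₀ → Option (Fin n)) × (Fin k₀ → Option (Fin n)))),
        cP p (fun ω : Sym2 (Fin n) → Bool => d ≤ (XX H (decode q.1) (decode q.2)).card ∧
        d ≤ ((univ \ decode q.1) \ XX H (decode q.1) (decode q.2)).card ∧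
        ∀ x ∈ XX H (decode q.1) (decode q.2),
          ∀ y ∈ (univ \ decode q.1) \ XX H (decode q.1) (decode q.2), ¬ (gr ω).Adj x y) ≤
        (1 - p) ^ (d * d) := by
      intro q _
      by_cases h : d ≤ (XX H (decode q.1) (decode q.2)).card ∧
        d ≤ ((univ \ decode q.1) \ XX H (decode q.1) (decode q.2)).card
      · refine (cP_mono h0 h1 (fun ω h2 => h2.2.2)).trans ?_
        exact cP_no_edges h0 h1 _ _ (Finset.disjoint_sdiff) d h.1 h.2
      · rw [cP_false p (fun ω h2 => h ⟨h2.1, h2.2.1⟩)]
        exact pow_nonneg (by linarith) _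
    have e2 := Finset.sum_le_card_nsmul _ _ _ e1
    refine e2.trans (le_of_eq ?_)
    rw [nsmul_eq_mul, Finset.card_univ, Fintype.card_prod, Fintype.card_fun, Fintype.card_option,
      Fintype.card_fin, Fintype.card_fin]
    push_cast
    ring

end Pool.Agent.H88.PM
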